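import Mathlib

/-!
# Real forms and quadratic functionals of symmetric biadditive maps
-/

set_option autoImplicit false

namespace Pool.Agent.H85.FL

open Finset
open scoped ComplexConjugate ComplexOrder

section para

variable {V W ι : Type} [AddCommGroup V] [AddCommGroup W] [DecidableEq ι]

/-- a quadratic functional which is nonnegative on the diagonal of a symmetric biadditive map is
nonnegative on its Gaussian average -/
lemma para (φ : V → V → W) (ha : ∀ x y z, φ (x + y) z = φ x z + φ y z)
    (hs : ∀ x y, φ x y = φ y x) (Q : W → ℝ)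
    (hQ : ∀ x y, Q (x + y) + Q (x - y) = 2 * Q x + 2 * Q y) (h0 : ∀ x, 0 ≤ Q (φ x x))
    (v : ι → V) (s : Finset ι) : ∀ x, 0 ≤ Q (φ x x + ∑ j ∈ s, φ (v j) (v j)) +
      4 * ∑ j ∈ s, Q (φ x (v j)) + 2 * ∑ i ∈ s, ∑ j ∈ s, Q (φ (v i) (v j)) -
      2 * ∑ j ∈ s, Q (φ (v j) (v j)) := by
  have hz : Q 0 = 0 := by
    have h := hQ 0 0
    rw [add_zero, sub_zero] at h
    linarith
  have h2 : ∀ x, Q (x + x) = 4 * Q x := by
    intro x
    have h := hQ x x
    rw [sub_self, hz] at h
    linarith
  have hsub : ∀ x y z, φ (x - y) z = φ x z - φ y z := by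
    intro x y z
    have h := ha (x - y) y z
    rw [sub_add_cancel] at h
    rw [h, add_sub_cancel_right]
  induction s using Finset.induction_on with
  | empty =>
    intro x
    simp only [Finset.sum_empty, add_zero, mul_zero, sub_zero]
    exact h0 x
  | insert a s has ih =>
    intro x
    have h1 := ih (x + v a)
    have h3 := ih (x - v a)
    have e1 : φ (x + v a) (x + v a) + ∑ j ∈ s, φ (v j) (v j) =
        (φ x x + (φ (v a) (v a) + ∑ j ∈ s, φ (v j) (v j))) + (φ x (v a) + φ x (v a)) := by
      rw [ha, hs x (x + v a), hs (v a) (x + v a), ha, ha, hs (v a) x]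
      abel
    have e2 : φ (x - v a) (x - v a) + ∑ j ∈ s, φ (v j) (v j) =
        (φ x x + (φ (v a) (v a) + ∑ j ∈ s, φ (v j) (v j))) - (φ x (v a) + φ x (v a)) := by
      rw [hsub, hs x (x - v a), hs (v a) (x - v a), hsub, hsub, hs (v a) x]
      abel
    have e3 := hQ (φ x x + (φ (v a) (v a) + ∑ j ∈ s, φ (v j) (v j))) (φ x (v a) + φ x (v a))
    rw [← e1, ← e2, h2] at e3
    have e4 : ∑ j ∈ s, Q (φ (x + v a) (v j)) + ∑ j ∈ s, Q (φ (x - v a) (v j)) =
        2 * ∑ j ∈ s, Q (φ x (v j)) + 2 * ∑ j ∈ s, Q (φ (v a) (v j)) := by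
      rw [← Finset.sum_add_distrib, Finset.mul_sum, Finset.mul_sum, ← Finset.sum_add_distrib]
      refine Finset.sum_congr rfl fun j _ => ?_
      rw [ha, hsub]
      exact hQ _ _
    have e5 : ∑ i ∈ insert a s, ∑ j ∈ insert a s, Q (φ (v i) (v j)) = Q (φ (v a) (v a)) +
        2 * ∑ j ∈ s, Q (φ (v a) (v j)) + ∑ i ∈ s, ∑ j ∈ s, Q (φ (v i) (v j)) := by
      rw [Finset.sum_insert has]
      simp only [Finset.sum_insert has]
      rw [Finset.sum_add_distrib]
      have : ∑ x ∈ s, Q (φ (v x) (v a)) = ∑ x ∈ s, Q (φ (v a) (v x)) :=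
        Finset.sum_congr rfl fun x _ => by rw [hs]
      rw [this]
      ring
    rw [e5]
    simp only [Finset.sum_insert has]
    linarith

/-- the Gaussian average -/
lemma para' [Fintype ι] (φ : V → V → W) (ha : ∀ x y z, φ (x + y) z = φ x z + φ y z)
    (hs : ∀ x y, φ x y = φ y x) (Q : W → ℝ)
    (hQ : ∀ x y, Q (x + y) + Q (x - y) = 2 * Q x + 2 * Q y) (h0 : ∀ x, 0 ≤ Q (φ x x))
    (v : ι → V) : 0 ≤ Q (∑ j, φ (v j) (v j)) + 2 * ∑ i, ∑ j, Q (φ (v i) (v j)) := by
  have hφ : ∀ z, φ 0 z = 0 := by
    intro z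
    have h := ha 0 0 z
    rw [add_zero] at h
    exact left_eq_add.1 h
  have hz : Q 0 = 0 := by
    have h := hQ 0 0
    rw [add_zero, sub_zero] at h
    linarith
  have h := para φ ha hs Q hQ h0 v univ 0
  simp only [hφ, zero_add, hz, Finset.sum_const_zero, mul_zero, add_zero] at h
  have h1 : 0 ≤ ∑ j, Q (φ (v j) (v j)) := Finset.sum_nonneg fun j _ => h0 _
  linarith

end para

/-- a real quadratic form with Hermitian part `m` and complex symmetric part `C` -/
lemma real_factor {S : Type} [Fintype S] [DecidableEq S] (m C : S → S → ℂ)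
    (hm : ∀ s t, m t s = conj (m s t)) (hC : ∀ s t, C t s = C s t)
    (h : ∀ x : S → ℂ, 0 ≤ (∑ s, ∑ t, m s t * (x s * conj (x t))).re +
      (∑ s, ∑ t, C s t * (x s * x t)).re) :
    ∃ w : S × Bool → S → ℂ, (∀ s t, 2 * m s t = ∑ j, w j s * conj (w j t)) ∧
      (∀ s t, 2 * C s t = ∑ j, w j s * w j t) := by
  classical
  obtain ⟨A, hA⟩ : ∃ A : Matrix (S × Bool) (S × Bool) ℝ, ∀ s t,
      A (s, false) (t, false) = (m s t).re + (C s t).re ∧
      A (s, true) (t, true) = (m s t).re - (C s t).re ∧
      A (s, false) (t, true) = (m s t).im - (C s t).im ∧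
      A (s, true) (t, false) = -(m s t).im - (C s t).im :=
    ⟨fun x y => match x, y with
      | (s, false), (t, false) => (m s t).re + (C s t).re
      | (s, true), (t, true) => (m s t).re - (C s t).re
      | (s, false), (t, true) => (m s t).im - (C s t).im
      | (s, true), (t, false) => -(m s t).im - (C s t).im, fun _ _ => ⟨rfl, rfl, rfl, rfl⟩⟩
  have mre : ∀ s t, (m t s).re = (m s t).re := fun s t => by rw [hm s t, Complex.conj_re]
  have mim : ∀ s t, (m t s).im = -(m s t).im := fun s t => by rw [hm s t, Complex.conj_im]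
  have hAH : A.IsHermitian := by
    ext ⟨s, c⟩ ⟨t, d⟩
    rw [Matrix.conjTranspose_apply, star_trivial]
    cases c <;> cases d
    · rw [(hA t s).1, (hA s t).1, mre, hC]
    · rw [(hA t s).2.2.2, (hA s t).2.2.1, mim, hC]; ring
    · rw [(hA t s).2.2.1, (hA s t).2.2.2, mim, hC]
    · rw [(hA t s).2.1, (hA s t).2.1, mre, hC]
  have hApsd : A.PosSemidef := by
    refine Matrix.PosSemidef.of_dotProduct_mulVec_nonneg hAH fun c => ?_
    have h1 := h fun s => ⟨c (s, false), c (s, true)⟩
    refine le_of_le_of_eq h1 ?_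
    simp only [dotProduct, Matrix.mulVec, star_trivial, Complex.re_sum, Fintype.sum_prod_type,
      Fintype.sum_bool]
    rw [← Finset.sum_add_distrib]
    refine Finset.sum_congr rfl fun s _ => ?_
    rw [← Finset.sum_add_distrib, Finset.mul_sum, Finset.mul_sum, ← Finset.sum_add_distrib]
    refine Finset.sum_congr rfl fun t _ => ?_
    rw [(hA s t).1, (hA s t).2.1, (hA s t).2.2.1, (hA s t).2.2.2]
    simp only [Complex.mul_re, Complex.mul_im, Complex.conj_re, Complex.conj_im]
    ring
  obtain ⟨B, hB⟩ : ∃ B : Matrix (S × Bool) (S × Bool) ℝ, A = B.conjTranspose * B := by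
    open scoped MatrixOrder in
    exact CStarAlgebra.nonneg_iff_eq_star_mul_self.mp hApsd.nonneg
  have hB' : ∀ x y, A x y = ∑ j, B j x * B j y := by
    intro x y
    rw [hB, Matrix.mul_apply]
    exact Finset.sum_congr rfl fun j _ => by rw [Matrix.conjTranspose_apply, star_trivial]
  refine ⟨fun j s => ⟨B j (s, false), -B j (s, true)⟩, fun s t => ?_, fun s t => ?_⟩
  · apply Complex.ext
    · simp only [Complex.re_sum, Complex.mul_re, Complex.conj_re, Complex.conj_im]
      have e1 := (hA s t).1
      have e2 := (hA s t).2.1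
      rw [hB'] at e1 e2
      have e3 : ∑ x, (B x (s, false) * B x (t, false) - -B x (s, true) * - -B x (t, true)) =
          ∑ x, B x (s, false) * B x (t, false) + ∑ x, B x (s, true) * B x (t, true) := by
        rw [← Finset.sum_add_distrib]
        exact Finset.sum_congr rfl fun x _ => by ring
      rw [e3, e1, e2]
      simp
      ring
    · simp only [Complex.im_sum, Complex.mul_im, Complex.conj_re, Complex.conj_im]
      have e1 := (hA s t).2.2.1
      have e2 := (hA s t).2.2.2
      rw [hB'] at e1 e2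
      have e3 : ∑ x, (B x (s, false) * - -B x (t, true) + -B x (s, true) * B x (t, false)) =
          ∑ x, B x (s, false) * B x (t, true) - ∑ x, B x (s, true) * B x (t, false) := by
        rw [← Finset.sum_sub_distrib]
        exact Finset.sum_congr rfl fun x _ => by ring
      rw [e3, e1, e2]
      simp
      ring
  · apply Complex.ext
    · simp only [Complex.re_sum, Complex.mul_re]
      have e1 := (hA s t).1
      have e2 := (hA s t).2.1
      rw [hB'] at e1 e2
      have e3 : ∑ x, (B x (s, false) * B x (t, false) - -B x (s, true) * -B x (t, true)) =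
          ∑ x, B x (s, false) * B x (t, false) - ∑ x, B x (s, true) * B x (t, true) := by
        rw [← Finset.sum_sub_distrib]
        exact Finset.sum_congr rfl fun x _ => by ring
      rw [e3, e1, e2]
      simp
      ring
    · simp only [Complex.im_sum, Complex.mul_im]
      have e1 := (hA s t).2.2.1
      have e2 := (hA s t).2.2.2
      rw [hB'] at e1 e2
      have e3 : ∑ x, (B x (s, false) * -B x (t, true) + -B x (s, true) * B x (t, false)) =
          -(∑ x, B x (s, false) * B x (t, true)) - ∑ x, B x (s, true) * B x (t, false) := by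
        rw [← Finset.sum_neg_distrib, ← Finset.sum_sub_distrib]
        exact Finset.sum_congr rfl fun x _ => by ring
      rw [e3, e1, e2]
      simp
      ring

/-- a real polynomial without constant term which is nonnegative has no linear term -/
lemma lin_zero (a c : ℝ) (h : ∀ δ : ℝ, 0 ≤ δ * a + δ ^ 2 * c) : a = 0 := by
  have ht : ∀ x y : ℝ, (∀ δ : ℝ, 0 ≤ δ * x + δ ^ 2 * y) → 0 ≤ x := by
    intro x y hx
    by_contra hn
    push Not at hn
    rcases le_or_gt y 0 with hy | hy
    · have := hx 1
      linarith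
    · have h1 := hx (-x / (2 * y))
      have h2 : -x / (2 * y) * x + (-x / (2 * y)) ^ 2 * y = -(x ^ 2) / (4 * y) := by
        field_simp
        ring
      rw [h2] at h1
      have h3 : -(x ^ 2) / (4 * y) < 0 := div_neg_of_neg_of_pos (by nlinarith) (by linarith)
      linarith
  have h1 := ht a c h
  have h2 := ht (-a) c fun δ => by
    have := h (-δ)
    nlinarith
  linarith

/-- the second order term -/
lemma second_order (a b c : ℝ) (h : ∀ δ : ℝ, 0 < δ → 0 ≤ a + δ * b + δ ^ 2 * c) : 0 ≤ a := by
  have ht : Filter.Tendsto (fun δ : ℝ => a + δ * b + δ ^ 2 * c)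
      (nhdsWithin 0 (Set.Ioi 0)) (nhds a) := by
    have hcont : Continuous fun δ : ℝ => a + δ * b + δ ^ 2 * c := by fun_prop
    have h3 := (hcont.tendsto 0).mono_left (nhdsWithin_le_nhds (s := Set.Ioi 0))
    simpa using h3
  exact ge_of_tendsto ht (Filter.eventually_of_mem self_mem_nhdsWithin fun ε hε => h ε hε)

end Pool.Agent.H85.FL
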