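import Pool.Agent.H85.Flat.Form2

/-!
# The alternating symbol of four indices
-/

set_option autoImplicit false
set_option linter.unusedSimpArgs false

namespace Pool.Agent.H85.FL

open Finset MeasureTheory Pool.Agent.TH598.GV Pool.Agent.R735.HA
open scoped ComplexConjugate ComplexOrder

/-- numbering of the four indices -/
def nu (j : K 2) : ℤ := 2 * (j.1 : ℕ) + (if j.2 then 1 else 0)

/-- the alternating symbol -/
def e4 (i j k l : K 2) : ℤ :=
  (nu j - nu i) * (nu k - nu i) * (nu l - nu i) * (nu k - nu j) * (nu l - nu j) * (nu l - nu k) / 12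

lemma E4_s01 (i j k l : K 2) : E4 j i k l = -E4 i j k l := D6_sw0 _ _ _ _ _ _

lemma E4_s23 (i j k l : K 2) : E4 i j l k = -E4 i j k l := D6_swt _ _ _ _ _ _

lemma E4_s12 (i j k l : K 2) : E4 i k j l = -E4 i j k l :=
  D6_perm (0, true) (1, true) (by decide) (all6 rfl rfl rfl rfl rfl rfl)

lemma E4_z01 (i k l : K 2) : E4 i i k l = 0 := D6_zero (0, false) (0, true) (by decide) rfl

lemma E4_z12 (i j l : K 2) : E4 i j j l = 0 := D6_zero (0, true) (1, true) (by decide) rfl

lemma E4_z23 (i j k : K 2) : E4 i j k k = 0 := D6_zero (1, true) (2, true) (by decide) rfl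

lemma D6_one : D6 (ev false) (ev true) (dl (0, false)) (dl (0, true)) (dl (1, false))
    (dl (1, true)) = 1 := by
  unfold D6
  have h : Matrix.of (R6 (ev false) (ev true) (dl (0, false)) (dl (0, true)) (dl (1, false))
    (dl (1, true))) = (1 : Matrix (Ix 2) (Ix 2) ℂ) := by
    ext r c
    rw [Matrix.one_apply, Matrix.of_apply]
    revert r
    refine all6 ?_ ?_ ?_ ?_ ?_ ?_
    · change ev false c = _
      unfold ev
      simp only [eq_comm]
    · change ev true c = _
      unfold ev
      simp only [eq_comm]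
    · change dl (0, false) c = _
      unfold dl
      simp only [eq_comm]
      rfl
    · change dl (0, true) c = _
      unfold dl
      simp only [eq_comm]
      rfl
    · change dl (1, false) c = _
      unfold dl
      simp only [eq_comm]
      rfl
    · change dl (1, true) c = _
      unfold dl
      simp only [eq_comm]
      rfl
  rw [h, Matrix.det_one]

lemma E4_base : E4 (0, false) (0, true) (1, false) (1, true) = -1 := by
  unfold E4
  have h1 : D6 (dl (0, false)) (dl (0, true)) (ev false) (dl (1, false)) (ev true)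
      (dl (1, true)) = -D6 (ev false) (dl (0, true)) (dl (0, false)) (dl (1, false)) (ev true)
      (dl (1, true)) := D6_perm (0, false) (1, false) (by decide) (all6 rfl rfl rfl rfl rfl rfl)
  have h2 : D6 (ev false) (dl (0, true)) (dl (0, false)) (dl (1, false)) (ev true)
      (dl (1, true)) = -D6 (ev false) (ev true) (dl (0, false)) (dl (1, false)) (dl (0, true))
      (dl (1, true)) := D6_perm (0, true) (2, false) (by decide) (all6 rfl rfl rfl rfl rfl rfl)
  have h3 : D6 (ev false) (ev true) (dl (0, false)) (dl (1, false)) (dl (0, true))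
      (dl (1, true)) = -D6 (ev false) (ev true) (dl (0, false)) (dl (0, true)) (dl (1, false))
      (dl (1, true)) := D6_perm (1, true) (2, false) (by decide) (all6 rfl rfl rfl rfl rfl rfl)
  rw [h1, h2, h3, D6_one]
  norm_num

lemma E4_val (i j k l : K 2) : E4 i j k l = -((e4 i j k l : ℤ) : ℂ) := by
  have a1 := E4_s01 (0, false) (0, true)
  have a2 := E4_s01 (0, false) (1, false)
  have a3 := E4_s01 (0, false) (1, true)
  have a4 := E4_s01 (0, true) (1, false)
  have a5 := E4_s01 (0, true) (1, true)
  have a6 := E4_s01 (1, false) (1, true)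
  have b1 := fun i l => E4_s12 i (0, false) (0, true) l
  have b2 := fun i l => E4_s12 i (0, false) (1, false) l
  have b3 := fun i l => E4_s12 i (0, false) (1, true) l
  have b4 := fun i l => E4_s12 i (0, true) (1, false) l
  have b5 := fun i l => E4_s12 i (0, true) (1, true) l
  have b6 := fun i l => E4_s12 i (1, false) (1, true) l
  have c1 := fun i j => E4_s23 i j (0, false) (0, true)
  have c2 := fun i j => E4_s23 i j (0, false) (1, false)
  have c3 := fun i j => E4_s23 i j (0, false) (1, true)
  have c4 := fun i j => E4_s23 i j (0, true) (1, false)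
  have c5 := fun i j => E4_s23 i j (0, true) (1, true)
  have c6 := fun i j => E4_s23 i j (1, false) (1, true)
  revert i j k l
  have key : ∀ (x : ℂ) (i j k l : K 2) (n : ℤ), e4 i j k l = n → x = -(n : ℂ) →
      x = -((e4 i j k l : ℤ) : ℂ) := by
    intro x i j k l n h1 h2
    rw [h1, h2]
  refine all4 ?_ ?_ ?_ ?_ <;> refine all4 ?_ ?_ ?_ ?_ <;> refine all4 ?_ ?_ ?_ ?_ <;>
    refine all4 ?_ ?_ ?_ ?_ <;>
    first
    | (refine key _ _ _ _ _ 0 (by decide) ?_
       simp only [a1, a2, a3, a4, a5, a6, b1, b2, b3, b4, b5, b6, c1, c2, c3, c4, c5, c6,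
         E4_z01, E4_z12, E4_z23, E4_base, neg_neg, neg_zero, Int.cast_zero]
       done)
    | (refine key _ _ _ _ _ 1 (by decide) ?_
       simp only [a1, a2, a3, a4, a5, a6, b1, b2, b3, b4, b5, b6, c1, c2, c3, c4, c5, c6,
         E4_z01, E4_z12, E4_z23, E4_base, neg_neg, neg_zero, Int.cast_one]
       done)
    | (refine key _ _ _ _ _ (-1) (by decide) ?_
       simp only [a1, a2, a3, a4, a5, a6, b1, b2, b3, b4, b5, b6, c1, c2, c3, c4, c5, c6,
         E4_z01, E4_z12, E4_z23, E4_base, neg_neg, neg_zero, Int.cast_one, Int.cast_neg]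
       done)

lemma E4_pair (i j k l : K 2) : E4 k l i j = E4 i j k l := by
  rw [E4_val, E4_val]
  have h : ∀ i j k l : K 2, e4 k l i j = e4 i j k l := by decide +kernel
  rw [h]

lemma e4_ss : ∀ k l k' l' : K 2, ∑ p : K 2, ∑ q : K 2, e4 p q k l * e4 p q k' l' =
    2 * ((if k = k' then 1 else 0) * (if l = l' then 1 else 0) -
      (if k = l' then 1 else 0) * (if l = k' then 1 else 0)) := by decide +kernel

lemma E4_ss (k l k' l' : K 2) : ∑ p : T6, E4 p.1 p.2 k l * E4 p.1 p.2 k' l' =
    2 * ((if k = k' then 1 else 0) * (if l = l' then 1 else 0) -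
      (if k = l' then 1 else 0) * (if l = k' then 1 else 0)) := by
  rw [Fintype.sum_prod_type]
  simp only [E4_val]
  have h := congrArg (fun x : ℤ => (x : ℂ)) (e4_ss k l k' l')
  push_cast at h
  rw [← h]
  refine Finset.sum_congr rfl fun p _ => Finset.sum_congr rfl fun q _ => by ring

end Pool.Agent.H85.FL
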