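import Pool.Graph.R_seed8.R735.HA.Frame

/-!
# The double alternating sum of a tensor in dimension six with a decomposable null bivector which is
not an eigenbivector: the blocks
-/

set_option autoImplicit false

namespace Pool.Agent.H85.FL

open Finset MeasureTheory Pool.Agent.TH598.GV Pool.Agent.R735.HA
open scoped ComplexConjugate ComplexOrder
open Pool.Agent.TH991.J3417 (GM GM_comp PP_comp conj_PP)

/-- `1` for the two indices of the plane, `0` for the indices of the complement -/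
def dg (i : Ix 2) : ℕ := if i.1 = 0 then 1 else 0

lemma sum_dg : ∑ i : Ix 2, dg i = 2 := by decide

lemma sum_dg_perm (σ : Equiv.Perm (Ix 2)) :
    ∑ b : Fin (2 + 1), (dg (σ (b, false)) + dg (σ (b, true))) = 2 := by
  have h := Equiv.sum_comp σ dg
  rw [sum_dg, Fintype.sum_prod_type] at h
  refine Eq.trans (Finset.sum_congr rfl fun b _ => ?_) h
  rw [Fintype.sum_bool, add_comm]

/-- `GM` vanishes unless both index slots contain the two indices of the plane -/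
lemma GM_deg (H : Fin (2 + 1) → Ix 2 → Ix 2 → Ix 2 → Ix 2 → ℂ) (d e : Fin (2 + 1) → ℕ)
    (hd : ∀ b i j k l, dg i + dg j ≠ d b → H b i j k l = 0)
    (he : ∀ b i j k l, dg k + dg l ≠ e b → H b i j k l = 0)
    (h : ¬ (∑ b, d b = 2 ∧ ∑ b, e b = 2)) : GM (B := Fin (2 + 1)) H = 0 := by
  unfold GM
  refine Finset.sum_eq_zero fun σ _ => Finset.sum_eq_zero fun τ _ => ?_
  by_contra hne
  have h1 : ∀ b, H b (σ (b, false)) (σ (b, true)) (τ (b, false)) (τ (b, true)) ≠ 0 := by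
    intro b hb
    exact hne (by rw [Finset.prod_eq_zero (Finset.mem_univ b) hb, mul_zero])
  apply h
  constructor
  · refine Eq.trans (Finset.sum_congr rfl fun b _ => ?_) (sum_dg_perm σ)
    by_contra hc
    exact h1 b (hd b _ _ _ _ (Ne.symm hc))
  · refine Eq.trans (Finset.sum_congr rfl fun b _ => ?_) (sum_dg_perm τ)
    by_contra hc
    exact h1 b (he b _ _ _ _ (Ne.symm hc))

/-- degrees of the blocks in the left slot -/
def dL : Fin 6 → ℕ := ![2, 0, 1, 1, 0, 0]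

/-- degrees of the blocks in the right slot -/
def dR : Fin 6 → ℕ := ![0, 2, 1, 0, 1, 0]

/-- the blocks: plane-complement, complement-plane, mixed-mixed, mixed-complement,
complement-mixed, complement-complement -/
def blk (H : Ix 2 → Ix 2 → Ix 2 → Ix 2 → ℂ) (t : Fin 6) : Ix 2 → Ix 2 → Ix 2 → Ix 2 → ℂ :=
  fun i j k l => if dg i + dg j = dL t ∧ dg k + dg l = dR t then H i j k l else 0

/-- no plane-plane and no plane-mixed components -/
structure Null (H : Ix 2 → Ix 2 → Ix 2 → Ix 2 → ℂ) : Prop where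
  left : ∀ i j k l, dg i + dg j = 2 → 1 ≤ dg k + dg l → H i j k l = 0
  right : ∀ i j k l, 1 ≤ dg i + dg j → dg k + dg l = 2 → H i j k l = 0

lemma blk_sum {H : Ix 2 → Ix 2 → Ix 2 → Ix 2 → ℂ} (hN : Null H) (i j k l : Ix 2) :
    H i j k l = ∑ t, blk H t i j k l := by
  have h1 : ∀ i : Ix 2, dg i ≤ 1 := by
    intro i
    unfold dg
    split_ifs <;> simp
  obtain ⟨a, ha⟩ : ∃ a, dg i + dg j = a := ⟨_, rfl⟩
  obtain ⟨b, hb⟩ : ∃ b, dg k + dg l = b := ⟨_, rfl⟩
  have ha2 : a ≤ 2 := by have := h1 i; have := h1 j; omega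
  have hb2 : b ≤ 2 := by have := h1 k; have := h1 l; omega
  have hL := hN.left i j k l
  have hR := hN.right i j k l
  rw [ha, hb] at hL hR
  simp only [blk, Fin.sum_univ_six, ha, hb]
  interval_cases a <;> interval_cases b <;>
    simp [dL, dR] <;> first | exact hL rfl (le_refl _) | exact hR (le_refl _) rfl | exact hL rfl one_le_two

/-- trilinear form of the blocks -/
noncomputable def G3 (H : Ix 2 → Ix 2 → Ix 2 → Ix 2 → ℂ) (a b c : Fin 6) : ℂ :=
  GM (B := Fin (2 + 1)) (fun x => blk H (![a, b, c] x))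

lemma G3_zero (H : Ix 2 → Ix 2 → Ix 2 → Ix 2 → ℂ) (a b c : Fin 6)
    (h : ¬ (dL a + dL b + dL c = 2 ∧ dR a + dR b + dR c = 2)) : G3 H a b c = 0 := by
  refine GM_deg _ (fun x => dL (![a, b, c] x)) (fun x => dR (![a, b, c] x)) ?_ ?_ ?_
  · intro x i j k l hx
    unfold blk
    rw [if_neg fun h => hx h.1]
  · intro x i j k l hx
    unfold blk
    rw [if_neg fun h => hx h.2]
  · intro hc
    apply h
    have h1 : ∑ b_1 : Fin (2 + 1), dL (![a, b, c] b_1) = dL a + dL b + dL c := by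
      simp [Fin.sum_univ_succ, add_assoc]
    have h2 : ∑ b_1 : Fin (2 + 1), dR (![a, b, c] b_1) = dR a + dR b + dR c := by
      simp [Fin.sum_univ_succ, add_assoc]
    rw [h1, h2] at hc
    exact hc

lemma G3_expand {H : Ix 2 → Ix 2 → Ix 2 → Ix 2 → ℂ} (hN : Null H) :
    GG H = ∑ a, ∑ b, ∑ c, G3 H a b c := by
  have h1 : ∀ σ τ : Equiv.Perm (Ix 2),
      ∏ x : Fin (2 + 1), H (σ (x, false)) (σ (x, true)) (τ (x, false)) (τ (x, true)) =
      ∑ a, ∑ b, ∑ c, ∏ x : Fin (2 + 1),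
        blk H (![a, b, c] x) (σ (x, false)) (σ (x, true)) (τ (x, false)) (τ (x, true)) := by
    intro σ τ
    have h2 : ∏ x : Fin (2 + 1), H (σ (x, false)) (σ (x, true)) (τ (x, false)) (τ (x, true)) =
        ∏ x : Fin (2 + 1), ∑ t, blk H t (σ (x, false)) (σ (x, true)) (τ (x, false))
          (τ (x, true)) := Finset.prod_congr rfl fun x _ => blk_sum hN _ _ _ _
    rw [h2]
    have h3 : ∀ F : Fin (2 + 1) → Fin 6 → ℂ, ∏ x, ∑ t, F x t =
        ∑ a, ∑ b, ∑ c, ∏ x, F x (![a, b, c] x) := by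
      intro F
      have e : ∀ g : Fin (2 + 1) → ℂ, ∏ x, g x = g 0 * g 1 * g 2 := fun g =>
        Fin.prod_univ_three g
      simp only [e]
      rw [Finset.sum_mul_sum, Finset.sum_mul]
      refine Finset.sum_congr rfl fun a _ => ?_
      rw [Finset.sum_mul]
      refine Finset.sum_congr rfl fun b _ => ?_
      rw [Finset.mul_sum]
      rfl
    exact h3 _
  unfold GG G3 GM
  rw [Finset.sum_congr rfl fun σ _ => Finset.sum_congr rfl fun τ _ => by rw [h1 σ τ]]
  simp only [Finset.mul_sum]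
  have sw : ∀ F : Equiv.Perm (Ix 2) → Equiv.Perm (Ix 2) → Fin 6 → Fin 6 → Fin 6 → ℂ,
      ∑ σ, ∑ τ, ∑ a, ∑ b, ∑ c, F σ τ a b c = ∑ a, ∑ b, ∑ c, ∑ σ, ∑ τ, F σ τ a b c := by
    intro F
    calc ∑ σ, ∑ τ, ∑ a, ∑ b, ∑ c, F σ τ a b c
        = ∑ x : Equiv.Perm (Ix 2) × Equiv.Perm (Ix 2), ∑ y : Fin 6 × Fin 6 × Fin 6,
            F x.1 x.2 y.1 y.2.1 y.2.2 := by
          simp only [Fintype.sum_prod_type]
      _ = ∑ y : Fin 6 × Fin 6 × Fin 6, ∑ x : Equiv.Perm (Ix 2) × Equiv.Perm (Ix 2),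
            F x.1 x.2 y.1 y.2.1 y.2.2 := Finset.sum_comm
      _ = _ := by simp only [Fintype.sum_prod_type]
  exact sw _

lemma G3_perm (H : Ix 2 → Ix 2 → Ix 2 → Ix 2 → ℂ) (t : Fin 3 → Fin 6) (π : Equiv.Perm (Fin 3)) :
    G3 H (t (π 0)) (t (π 1)) (t (π 2)) = G3 H (t 0) (t 1) (t 2) := by
  have h := GM_comp (B := Fin (2 + 1)) (fun x => blk H (t x)) π
  have e1 : (fun x : Fin (2 + 1) => blk H (t (π x))) =
      fun x => blk H (![t (π 0), t (π 1), t (π 2)] x) := by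
    funext x
    fin_cases x <;> rfl
  have e2 : (fun x : Fin (2 + 1) => blk H (t x)) = fun x => blk H (![t 0, t 1, t 2] x) := by
    funext x
    fin_cases x <;> rfl
  rw [e1, e2] at h
  exact h

lemma G3_12 (H : Ix 2 → Ix 2 → Ix 2 → Ix 2 → ℂ) (a b c : Fin 6) : G3 H b a c = G3 H a b c :=
  G3_perm H ![a, b, c] (Equiv.swap 0 1)

lemma G3_23 (H : Ix 2 → Ix 2 → Ix 2 → Ix 2 → ℂ) (a b c : Fin 6) : G3 H a c b = G3 H a b c :=
  G3_perm H ![a, b, c] (Equiv.swap 1 2)

/-- the five kinds of terms -/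
lemma G3_main {H : Ix 2 → Ix 2 → Ix 2 → Ix 2 → ℂ} (hN : Null H) :
    GG H = 6 * G3 H 0 1 5 + 3 * G3 H 2 2 5 + 3 * G3 H 0 4 4 + 3 * G3 H 1 3 3 +
      6 * G3 H 2 3 4 := by
  rw [G3_expand hN]
  have hz : ∀ a b c, G3 H a b c =
      if dL a + dL b + dL c = 2 ∧ dR a + dR b + dR c = 2 then G3 H a b c else 0 := by
    intro a b c
    split_ifs with h
    · rfl
    · exact G3_zero H a b c h
  rw [Finset.sum_congr rfl fun a _ => Finset.sum_congr rfl fun b _ =>
    Finset.sum_congr rfl fun c _ => hz a b c]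
  simp only [Fin.sum_univ_six]
  have p1 : ∀ a b c, G3 H b a c = G3 H a b c := G3_12 H
  have p2 : ∀ a b c, G3 H a c b = G3 H a b c := G3_23 H
  have p3 : ∀ a b c, G3 H b c a = G3 H a b c := fun a b c => by rw [p2 b a c, p1]
  have p4 : ∀ a b c, G3 H c a b = G3 H a b c := fun a b c => by rw [p1 a c b, p2]
  have p5 : ∀ a b c, G3 H c b a = G3 H a b c := fun a b c => by rw [p1 b c a, p3]
  simp [dL, dR]
  linear_combination p2 0 1 5 + p1 0 1 5 + p3 0 1 5 + p4 0 1 5 + p5 0 1 5 + p2 2 2 5 + p4 2 2 5 +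
    p1 0 4 4 + p3 0 4 4 + p1 1 3 3 + p3 1 3 3 + p2 2 3 4 + p1 2 3 4 + p3 2 3 4 + p4 2 3 4 +
    p5 2 3 4

end Pool.Agent.H85.FL
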