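import Pool.Agent.H85.Flat.Form

/-!
# The blocks as sums of elementary matrices, and the values of the polarised Pfaffian
-/

set_option autoImplicit false

namespace Pool.Agent.H85.FL

open Finset MeasureTheory Pool.Agent.TH598.GV Pool.Agent.R735.HA
open scoped ComplexConjugate ComplexOrder
open Pool.Agent.TH991.J3417 (GM GM_comp PP_comp conj_PP)

/-- the coordinates of the two-forms which mix the plane with the complement -/
abbrev S : Type := Bool × K 2

/-- elementary mixed matrices -/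
noncomputable def ms (s : S) : Ix 2 → Ix 2 → ℂ := ot (ev s.1) (dl s.2)

/-- the two-form of the plane -/
noncomputable def P0 : Ix 2 → Ix 2 → ℂ := ot (ev false) (ev true)

lemma ev_0 (c c' : Bool) : ev c ((0, c') : Ix 2) = if c' = c then 1 else 0 := by
  unfold ev
  by_cases h : c' = c
  · rw [h]; simp
  · rw [if_neg h, if_neg]
    intro h'
    exact h (congrArg Prod.snd h')

lemma ev_em (c : Bool) (a : K 2) : ev c (em a) = 0 := by
  unfold ev
  rw [if_neg (em_ne a c)]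

lemma dl_0 (k : K 2) (c : Bool) : dl k ((0, c) : Ix 2) = 0 := by
  unfold dl
  rw [if_neg (em_ne k c).symm]

lemma dl_em (k a : K 2) : dl k (em a) = if a = k then 1 else 0 := by
  unfold dl
  by_cases h : a = k
  · rw [h]; simp
  · rw [if_neg h, if_neg]
    intro h'
    exact h (Pool.Agent.TH263.J4005.em_inj h')

lemma dg_0 (c : Bool) : dg ((0, c) : Ix 2) = 1 := rfl

lemma dg_em (a : K 2) : dg (em a) = 0 := by
  unfold dg Pool.Agent.TH598.GV.em
  rw [if_neg (Fin.succ_ne_zero _)]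

/-- cases for a pair of indices -/
lemma two_cases {C : Ix 2 → Ix 2 → Prop} (h1 : ∀ c c' : Bool, C (0, c) (0, c'))
    (h2 : ∀ c a, C (0, c) (em a)) (h3 : ∀ a c, C (em a) (0, c)) (h4 : ∀ a b, C (em a) (em b))
    (i j : Ix 2) : C i j := by
  rcases Pool.Agent.TH263.J4005.em_or i with ⟨c, rfl⟩ | ⟨a, rfl⟩ <;>
  rcases Pool.Agent.TH263.J4005.em_or j with ⟨c', rfl⟩ | ⟨b, rfl⟩
  · exact h1 _ _
  · exact h2 _ _
  · exact h3 _ _
  · exact h4 _ _

lemma ex0 (F : Ix 2 → Ix 2 → ℂ) (i j : Ix 2) : (if dg i + dg j = 0 then F i j else 0) =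
    ∑ p : T6, F (em p.1) (em p.2) * wp p i j := by
  have hw : ∀ (p : T6) (i j : Ix 2), wp p i j = dl p.1 i * dl p.2 j := fun _ _ _ => rfl
  refine two_cases (C := fun i j => (if dg i + dg j = 0 then F i j else 0) =
    ∑ p : T6, F (em p.1) (em p.2) * wp p i j) ?_ ?_ ?_ ?_ i j
  · intro c c'
    simp [hw, dl_0, dg_0]
  · intro c a
    simp [hw, dl_0, dg_0]
  · intro a c
    simp [hw, dl_0, dg_0]
  · intro a b
    simp only [hw, dl_em, dg_em, add_zero, if_true]
    rw [Finset.sum_eq_single (a, b)]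
    · simp
    · rintro ⟨p, q⟩ _ hpq
      by_cases h : a = p
      · by_cases h' : b = q
        · exact absurd (Prod.ext h.symm h'.symm) hpq
        · simp [h']
      · simp [h]
    · simp

lemma ex1 (F : Ix 2 → Ix 2 → ℂ) (hF : ∀ i j, F j i = -F i j) (i j : Ix 2) :
    (if dg i + dg j = 1 then F i j else 0) = ∑ s : S, F (0, s.1) (em s.2) * ms s i j := by
  refine two_cases (C := fun i j => (if dg i + dg j = 1 then F i j else 0) =
    ∑ s : S, F (0, s.1) (em s.2) * ms s i j) ?_ ?_ ?_ ?_ i j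
  · intro c c'
    simp only [ms, ot, dl_0, dg_0, mul_zero, sub_zero, Finset.sum_const_zero]
    norm_num
  · intro c a
    simp only [ms, ot, dl_0, dl_em, ev_0, ev_em, dg_0, dg_em, add_zero, if_true]
    rw [Finset.sum_eq_single (c, a)]
    · simp
    · rintro ⟨p, q⟩ _ hpq
      by_cases h : c = p
      · by_cases h' : a = q
        · exact absurd (Prod.ext h.symm h'.symm) hpq
        · simp [h']
      · simp [h]
    · simp
  · intro a c
    simp only [ms, ot, dl_0, dl_em, ev_0, ev_em, dg_0, dg_em, zero_add, if_true]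
    rw [Finset.sum_eq_single (c, a)]
    · simp only [if_true, zero_mul, mul_one, zero_sub, mul_neg]
      exact hF _ _
    · rintro ⟨p, q⟩ _ hpq
      by_cases h : c = p
      · by_cases h' : a = q
        · exact absurd (Prod.ext h.symm h'.symm) hpq
        · simp [h']
      · simp [h]
    · simp
  · intro a b
    simp [ms, ot, ev_em, dg_em]

lemma ex2 (F : Ix 2 → Ix 2 → ℂ) (hF : ∀ i j, F j i = -F i j) (i j : Ix 2) :
    (if dg i + dg j = 2 then F i j else 0) = F (0, false) (0, true) * P0 i j := by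
  have h0 : ∀ i, F i i = 0 := by
    intro i
    have h := hF i i
    have h2 : (2 : ℂ) * F i i = 0 := by linear_combination h
    rcases mul_eq_zero.1 h2 with h3 | h3
    · norm_num at h3
    · exact h3
  refine two_cases (C := fun i j => (if dg i + dg j = 2 then F i j else 0) =
    F (0, false) (0, true) * P0 i j) ?_ ?_ ?_ ?_ i j
  · intro c c'
    cases c <;> cases c'
    · simp [P0, ot, ev_0, dg_0, h0]
    · simp [P0, ot, ev_0, dg_0]
    · simp [P0, ot, ev_0, dg_0]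
      exact hF _ _
    · simp [P0, ot, ev_0, dg_0, h0]
  · intro c a
    simp [P0, ot, ev_em, dg_0, dg_em]
  · intro a c
    simp [P0, ot, ev_em, dg_0, dg_em]
  · intro a b
    simp [P0, ot, ev_em, dg_em]

/-- the polarised Pfaffian of three matrices -/
noncomputable def PP3 (A B C : Ix 2 → Ix 2 → ℂ) : ℂ :=
  ∑ σ : Equiv.Perm (Ix 2), cs σ * (A (σ (0, false)) (σ (0, true)) *
    (B (σ (1, false)) (σ (1, true)) * C (σ (2, false)) (σ (2, true))))

lemma PP3_PP (A B C : Ix 2 → Ix 2 → ℂ) :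
    PP3 A B C = PP (B := Fin (2 + 1)) ![A, B, C] := by
  unfold PP3 PP
  refine Finset.sum_congr rfl fun σ _ => ?_
  have e : ∀ g : Fin (2 + 1) → ℂ, ∏ x, g x = g 0 * (g 1 * g 2) := fun g => by
    rw [← mul_assoc]; exact Fin.prod_univ_three g
  rw [e]
  rfl

lemma PP3_12 (A B C : Ix 2 → Ix 2 → ℂ) : PP3 B A C = PP3 A B C := by
  rw [PP3_PP, PP3_PP, ← PP_comp (B := Fin (2 + 1)) ![A, B, C] (Equiv.swap 0 1)]
  congr 1
  funext x
  fin_cases x <;> rfl

lemma PP3_23 (A B C : Ix 2 → Ix 2 → ℂ) : PP3 A C B = PP3 A B C := by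
  rw [PP3_PP, PP3_PP, ← PP_comp (B := Fin (2 + 1)) ![A, B, C] (Equiv.swap 1 2)]
  congr 1
  funext x
  fin_cases x <;> rfl

/-- the alternating symbol of the four indices of the complement -/
noncomputable def E4 (i j k l : K 2) : ℂ := D6 (dl i) (dl j) (ev false) (dl k) (ev true) (dl l)

/-- the sign of a pair of indices of the plane -/
def sg : Bool → Bool → ℂ
  | false, true => 1
  | true, false => -1
  | _, _ => 0

lemma D6_sg (i j k l : K 2) (c c' : Bool) :
    D6 (dl i) (dl j) (ev c) (dl k) (ev c') (dl l) = sg c c' * E4 i j k l := by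
  cases c <;> cases c'
  · rw [D6_zero (1, false) (2, false) (by decide) rfl]
    simp [sg]
  · simp [sg, E4]
  · rw [D6_swf]
    simp [sg, E4]
  · rw [D6_zero (1, false) (2, false) (by decide) rfl]
    simp [sg]

lemma PP3_wmm (p : T6) (s t : S) :
    PP3 (wp p) (ms s) (ms t) = 4 * (sg s.1 t.1 * E4 p.1 p.2 s.2 t.2) := by
  have h : PP3 (wp p) (ms s) (ms t) =
      PB (dl p.1) (dl p.2) (ot (ev s.1) (dl s.2)) (ot (ev t.1) (dl t.2)) := by
    unfold PP3 PB ms
    rfl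
  rw [h, PB_ot, D6_sg]

lemma PP3_mmw (p : T6) (s t : S) :
    PP3 (ms s) (ms t) (wp p) = 4 * (sg s.1 t.1 * E4 p.1 p.2 s.2 t.2) := by
  rw [← PP3_wmm, ← PP3_23, ← PP3_12 (wp p) (ms s) (ms t)]

lemma PP3_mwm (p : T6) (s t : S) :
    PP3 (ms s) (wp p) (ms t) = 4 * (sg s.1 t.1 * E4 p.1 p.2 s.2 t.2) := by
  rw [← PP3_wmm, ← PP3_12 (wp p) (ms s) (ms t)]

lemma PP3_wPw (p q : T6) : PP3 (wp p) P0 (wp q) = -(2 * E4 p.1 p.2 q.1 q.2) := by
  have h : PP3 (wp p) P0 (wp q) = D6 (dl p.1) (dl p.2) (ev false) (ev true) (dl q.1) (dl q.2) -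
      D6 (dl p.1) (dl p.2) (ev true) (ev false) (dl q.1) (dl q.2) := by
    simp only [D6_eq]
    unfold PP3 P0 ot
    rw [← Finset.sum_sub_distrib]
    refine Finset.sum_congr rfl fun σ _ => ?_
    have hw : ∀ (p : T6) (i j : Ix 2), wp p i j = dl p.1 i * dl p.2 j := fun _ _ _ => rfl
    simp only [hw]
    ring
  have h2 : D6 (dl p.1) (dl p.2) (ev true) (ev false) (dl q.1) (dl q.2) =
      -D6 (dl p.1) (dl p.2) (ev false) (ev true) (dl q.1) (dl q.2) := D6_sw1 _ _ _ _ _ _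
  have h3 : D6 (dl p.1) (dl p.2) (ev false) (dl q.1) (ev true) (dl q.2) =
      -D6 (dl p.1) (dl p.2) (ev false) (ev true) (dl q.1) (dl q.2) :=
    D6_perm (1, true) (2, false) (by decide) (all6 rfl rfl rfl rfl rfl rfl)
  rw [h, h2, E4, h3]
  ring

lemma PP3_Pww (p q : T6) : PP3 P0 (wp p) (wp q) = -(2 * E4 p.1 p.2 q.1 q.2) := by
  rw [← PP3_wPw, PP3_12]

lemma PP3_wwP (p q : T6) : PP3 (wp p) (wp q) P0 = -(2 * E4 p.1 p.2 q.1 q.2) := by
  rw [← PP3_wPw, PP3_23]

lemma E4_conj (i j k l : K 2) : conj (E4 i j k l) = E4 i j k l := by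
  unfold E4
  rw [D6_eq]
  have h1 : ∀ (k : K 2) (i : Ix 2), conj (dl k i) = dl k i := by
    intro k i; unfold dl; split_ifs <;> simp
  have h2 : ∀ (c : Bool) (i : Ix 2), conj (ev c i) = ev c i := by
    intro k i; unfold ev; split_ifs <;> simp
  have h3 : ∀ σ : Equiv.Perm (Ix 2), conj (cs σ) = cs σ := by
    intro σ; unfold cs; simp
  simp only [map_sum, map_mul, h1, h2, h3]

lemma sg_conj (c c' : Bool) : conj (sg c c') = sg c c' := by
  cases c <;> cases c' <;> simp [sg]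

/-- the trilinear form of three sums of rank one -/
lemma GM_rank {I0 I1 I2 : Type} [Fintype I0] [Fintype I1] [Fintype I2]
    (H0 H1 H2 : Ix 2 → Ix 2 → Ix 2 → Ix 2 → ℂ)
    (A0 B0 : I0 → Ix 2 → Ix 2 → ℂ) (A1 B1 : I1 → Ix 2 → Ix 2 → ℂ)
    (A2 B2 : I2 → Ix 2 → Ix 2 → ℂ) (c0 : I0 → ℂ) (c1 : I1 → ℂ) (c2 : I2 → ℂ)
    (h0 : ∀ i j k l, H0 i j k l = ∑ r, c0 r * A0 r i j * B0 r k l)
    (h1 : ∀ i j k l, H1 i j k l = ∑ r, c1 r * A1 r i j * B1 r k l)
    (h2 : ∀ i j k l, H2 i j k l = ∑ r, c2 r * A2 r i j * B2 r k l) :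
    GM (B := Fin (2 + 1)) ![H0, H1, H2] = ∑ r0, ∑ r1, ∑ r2, c0 r0 * c1 r1 * c2 r2 *
      (PP3 (A0 r0) (A1 r1) (A2 r2) * PP3 (B0 r0) (B1 r1) (B2 r2)) := by
  have e : ∀ g : Fin (2 + 1) → ℂ, ∏ x, g x = g 0 * g 1 * g 2 := fun g => Fin.prod_univ_three g
  unfold GM
  simp only [e]
  change ∑ σ : Equiv.Perm (Ix 2), ∑ τ : Equiv.Perm (Ix 2), cs σ * cs τ *
    (H0 (σ (0, false)) (σ (0, true)) (τ (0, false)) (τ (0, true)) *
      H1 (σ (1, false)) (σ (1, true)) (τ (1, false)) (τ (1, true)) *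
      H2 (σ (2, false)) (σ (2, true)) (τ (2, false)) (τ (2, true))) = _
  simp only [h0, h1, h2]
  unfold PP3
  have l1 : ∀ σ τ : Equiv.Perm (Ix 2), cs σ * cs τ *
      ((∑ r, c0 r * A0 r (σ (0, false)) (σ (0, true)) * B0 r (τ (0, false)) (τ (0, true))) *
      (∑ r, c1 r * A1 r (σ (1, false)) (σ (1, true)) * B1 r (τ (1, false)) (τ (1, true))) *
      (∑ r, c2 r * A2 r (σ (2, false)) (σ (2, true)) * B2 r (τ (2, false)) (τ (2, true)))) =
      ∑ r0, ∑ r1, ∑ r2, c0 r0 * c1 r1 * c2 r2 *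
        ((cs σ * (A0 r0 (σ (0, false)) (σ (0, true)) *
          (A1 r1 (σ (1, false)) (σ (1, true)) * A2 r2 (σ (2, false)) (σ (2, true))))) *
        (cs τ * (B0 r0 (τ (0, false)) (τ (0, true)) *
          (B1 r1 (τ (1, false)) (τ (1, true)) * B2 r2 (τ (2, false)) (τ (2, true)))))) := by
    intro σ τ
    rw [Finset.sum_mul_sum, Finset.sum_mul, Finset.mul_sum]
    refine Finset.sum_congr rfl fun r0 _ => ?_
    rw [Finset.sum_mul, Finset.mul_sum]
    refine Finset.sum_congr rfl fun r1 _ => ?_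
    rw [Finset.mul_sum, Finset.mul_sum]
    refine Finset.sum_congr rfl fun r2 _ => ?_
    ring
  simp only [l1]
  have sw : ∀ F : Equiv.Perm (Ix 2) → Equiv.Perm (Ix 2) → I0 → I1 → I2 → ℂ,
      ∑ σ, ∑ τ, ∑ a, ∑ b, ∑ c, F σ τ a b c = ∑ a, ∑ b, ∑ c, ∑ σ, ∑ τ, F σ τ a b c := by
    intro F
    calc ∑ σ, ∑ τ, ∑ a, ∑ b, ∑ c, F σ τ a b c
        = ∑ x : Equiv.Perm (Ix 2) × Equiv.Perm (Ix 2), ∑ y : I0 × I1 × I2,
            F x.1 x.2 y.1 y.2.1 y.2.2 := by
          simp only [Fintype.sum_prod_type]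
      _ = ∑ y : I0 × I1 × I2, ∑ x : Equiv.Perm (Ix 2) × Equiv.Perm (Ix 2),
            F x.1 x.2 y.1 y.2.1 y.2.2 := Finset.sum_comm
      _ = _ := by simp only [Fintype.sum_prod_type]
  rw [sw]
  refine Finset.sum_congr rfl fun r0 _ => Finset.sum_congr rfl fun r1 _ =>
    Finset.sum_congr rfl fun r2 _ => ?_
  rw [Finset.sum_mul_sum, Finset.mul_sum]
  refine Finset.sum_congr rfl fun σ _ => ?_
  rw [Finset.mul_sum]

end Pool.Agent.H85.FL
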