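import Pool.Agent.H85.Flat.Eps

/-!
# The values of the trilinear form on the blocks
-/

set_option autoImplicit false

namespace Pool.Agent.H85.FL

open Finset MeasureTheory Pool.Agent.TH598.GV Pool.Agent.R735.HA
open scoped ComplexConjugate ComplexOrder
open Pool.Agent.TH991.J3417 (GM GM_comp PP_comp conj_PP)

/-- the mixed block -/
def bm (H : Ix 2 → Ix 2 → Ix 2 → Ix 2 → ℂ) (s t : S) : ℂ := H (0, s.1) (em s.2) (0, t.1) (em t.2)

/-- the mixed-complement block -/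
def bn (H : Ix 2 → Ix 2 → Ix 2 → Ix 2 → ℂ) (s : S) (q : T6) : ℂ :=
  H (0, s.1) (em s.2) (em q.1) (em q.2)

/-- the plane-complement block -/
def bc (H : Ix 2 → Ix 2 → Ix 2 → Ix 2 → ℂ) (q : T6) : ℂ :=
  H (0, false) (0, true) (em q.1) (em q.2)

/-- the complement block -/
def bo (H : Ix 2 → Ix 2 → Ix 2 → Ix 2 → ℂ) (p q : T6) : ℂ :=
  H (em p.1) (em p.2) (em q.1) (em q.2)

lemma alt_r {H : Ix 2 → Ix 2 → Ix 2 → Ix 2 → ℂ} (hH : HS H) (i j k l : Ix 2) :
    H i j l k = -H i j k l := by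
  rw [hH.herm l k i j, hH.alt k l i j, map_neg, ← hH.herm k l i j]

lemma blk_eq (H : Ix 2 → Ix 2 → Ix 2 → Ix 2 → ℂ) (t : Fin 6) (i j k l : Ix 2) :
    blk H t i j k l = if dg i + dg j = dL t then (if dg k + dg l = dR t then H i j k l else 0)
      else 0 := by
  unfold blk
  by_cases h1 : dg i + dg j = dL t <;> by_cases h2 : dg k + dg l = dR t <;> simp [h1, h2]

lemma blk0 {H : Ix 2 → Ix 2 → Ix 2 → Ix 2 → ℂ} (hH : HS H) (i j k l : Ix 2) :
    blk H 0 i j k l = ∑ q : T6, bc H q * P0 i j * wp q k l := by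
  rw [blk_eq]
  change (if dg i + dg j = 2 then (if dg k + dg l = 0 then H i j k l else 0) else 0) = _
  rw [ex2 (fun i j => if dg k + dg l = 0 then H i j k l else 0)
    (fun i j => by split_ifs; exacts [hH.alt i j k l, neg_zero.symm]) i j]
  rw [ex0 (fun k l => H (0, false) (0, true) k l) k l, Finset.sum_mul]
  exact Finset.sum_congr rfl fun q _ => by unfold bc; ring

lemma blk1 {H : Ix 2 → Ix 2 → Ix 2 → Ix 2 → ℂ} (hH : HS H) (i j k l : Ix 2) :
    blk H 1 i j k l = ∑ p : T6, conj (bc H p) * wp p i j * P0 k l := by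
  rw [blk_eq]
  change (if dg i + dg j = 0 then (if dg k + dg l = 2 then H i j k l else 0) else 0) = _
  rw [ex0 (fun i j => if dg k + dg l = 2 then H i j k l else 0) i j]
  refine Finset.sum_congr rfl fun p _ => ?_
  rw [ex2 (fun k l => H (em p.1) (em p.2) k l) (fun k l => alt_r hH _ _ k l) k l]
  unfold bc
  rw [← hH.herm]
  ring

lemma blk2 {H : Ix 2 → Ix 2 → Ix 2 → Ix 2 → ℂ} (hH : HS H) (i j k l : Ix 2) :
    blk H 2 i j k l = ∑ x : S × S, bm H x.1 x.2 * ms x.1 i j * ms x.2 k l := by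
  rw [blk_eq, Fintype.sum_prod_type]
  change (if dg i + dg j = 1 then (if dg k + dg l = 1 then H i j k l else 0) else 0) = _
  rw [ex1 (fun i j => if dg k + dg l = 1 then H i j k l else 0)
    (fun i j => by split_ifs; exacts [hH.alt i j k l, neg_zero.symm]) i j]
  refine Finset.sum_congr rfl fun s _ => ?_
  rw [ex1 (fun k l => H (0, s.1) (em s.2) k l) (fun k l => alt_r hH _ _ k l) k l,
    Finset.sum_mul]
  refine Finset.sum_congr rfl fun t _ => ?_
  unfold bm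
  ring

lemma blk3 {H : Ix 2 → Ix 2 → Ix 2 → Ix 2 → ℂ} (hH : HS H) (i j k l : Ix 2) :
    blk H 3 i j k l = ∑ x : S × T6, bn H x.1 x.2 * ms x.1 i j * wp x.2 k l := by
  rw [blk_eq, Fintype.sum_prod_type]
  change (if dg i + dg j = 1 then (if dg k + dg l = 0 then H i j k l else 0) else 0) = _
  rw [ex1 (fun i j => if dg k + dg l = 0 then H i j k l else 0)
    (fun i j => by split_ifs; exacts [hH.alt i j k l, neg_zero.symm]) i j]
  refine Finset.sum_congr rfl fun s _ => ?_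
  rw [ex0 (fun k l => H (0, s.1) (em s.2) k l) k l, Finset.sum_mul]
  refine Finset.sum_congr rfl fun t _ => ?_
  unfold bn
  ring

lemma blk4 {H : Ix 2 → Ix 2 → Ix 2 → Ix 2 → ℂ} (hH : HS H) (i j k l : Ix 2) :
    blk H 4 i j k l = ∑ x : S × T6, conj (bn H x.1 x.2) * wp x.2 i j * ms x.1 k l := by
  rw [blk_eq, Fintype.sum_prod_type_right]
  change (if dg i + dg j = 0 then (if dg k + dg l = 1 then H i j k l else 0) else 0) = _
  rw [ex0 (fun i j => if dg k + dg l = 1 then H i j k l else 0) i j]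
  refine Finset.sum_congr rfl fun p _ => ?_
  rw [ex1 (fun k l => H (em p.1) (em p.2) k l) (fun k l => alt_r hH _ _ k l) k l,
    Finset.sum_mul]
  refine Finset.sum_congr rfl fun t _ => ?_
  unfold bn
  rw [← hH.herm]
  ring

lemma blk5 {H : Ix 2 → Ix 2 → Ix 2 → Ix 2 → ℂ} (i j k l : Ix 2) :
    blk H 5 i j k l = ∑ x : T6 × T6, bo H x.1 x.2 * wp x.1 i j * wp x.2 k l := by
  rw [blk_eq, Fintype.sum_prod_type (α₁ := T6)]
  change (if dg i + dg j = 0 then (if dg k + dg l = 0 then H i j k l else 0) else 0) = _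
  rw [ex0 (fun i j => if dg k + dg l = 0 then H i j k l else 0) i j]
  refine Finset.sum_congr rfl fun p _ => ?_
  rw [ex0 (fun k l => H (em p.1) (em p.2) k l) k l, Finset.sum_mul]
  refine Finset.sum_congr rfl fun t _ => ?_
  unfold bo
  ring

lemma G3_eq (H : Ix 2 → Ix 2 → Ix 2 → Ix 2 → ℂ) (a b c : Fin 6) :
    G3 H a b c = GM (B := Fin (2 + 1)) ![blk H a, blk H b, blk H c] := by
  unfold G3
  congr 1
  funext x
  fin_cases x <;> rfl

/-- the Hodge dual of the plane-complement block -/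
noncomputable def gs (b : T6 → ℂ) (p : T6) : ℂ := ∑ q : T6, conj (b q) * E4 q.1 q.2 p.1 p.2

/-- the symbol of a pair of mixed coordinates -/
noncomputable def se (s t : S) (p : T6) : ℂ := sg s.1 t.1 * E4 p.1 p.2 s.2 t.2

lemma sw3 {A B C : Type} [Fintype A] [Fintype B] [Fintype C] (F : A → B → C → ℂ) :
    ∑ a, ∑ b, ∑ c, F a b c = ∑ c, ∑ a, ∑ b, F a b c := by
  calc ∑ a, ∑ b, ∑ c, F a b c = ∑ x : A × B, ∑ c, F x.1 x.2 c := by
        rw [Fintype.sum_prod_type (α₁ := A)]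
    _ = ∑ c, ∑ x : A × B, F x.1 x.2 c := Finset.sum_comm
    _ = _ := by simp only [Fintype.sum_prod_type (α₁ := A)]

lemma G3_015 {H : Ix 2 → Ix 2 → Ix 2 → Ix 2 → ℂ} (hH : HS H) :
    G3 H 0 1 5 = 4 * ∑ p, ∑ q, bo H p q * gs (bc H) p * conj (gs (bc H) q) := by
  rw [G3_eq, GM_rank (I0 := T6) (I1 := T6) (I2 := T6 × T6) _ _ _ _ _ _ _ _ _ _ _ _
    (blk0 hH) (blk1 hH) blk5]
  simp only [PP3_Pww, PP3_wPw]
  have h : ∀ q0 p1 : T6, ∀ x : T6 × T6, bc H q0 * conj (bc H p1) * bo H x.1 x.2 *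
      (-(2 * E4 p1.1 p1.2 x.1.1 x.1.2) * -(2 * E4 q0.1 q0.2 x.2.1 x.2.2)) =
      4 * (bo H x.1 x.2 * (conj (bc H p1) * E4 p1.1 p1.2 x.1.1 x.1.2) *
        (bc H q0 * E4 q0.1 q0.2 x.2.1 x.2.2)) := by
    intro q0 p1 x
    ring
  simp only [h]
  have e : ∀ q : T6, conj (gs (bc H) q) = ∑ r : T6, bc H r * E4 r.1 r.2 q.1 q.2 := by
    intro q
    unfold gs
    simp only [map_sum, map_mul, Complex.conj_conj, E4_conj]
  rw [sw3, Fintype.sum_prod_type (α₁ := T6), Finset.mul_sum]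
  refine Finset.sum_congr rfl fun p _ => ?_
  rw [Finset.mul_sum]
  refine Finset.sum_congr rfl fun q _ => ?_
  rw [e, gs, mul_assoc (bo H p q), Finset.sum_mul_sum, Finset.mul_sum, Finset.mul_sum,
    Finset.sum_comm]
  refine Finset.sum_congr rfl fun a _ => ?_
  rw [Finset.mul_sum, Finset.mul_sum]
  exact Finset.sum_congr rfl fun b _ => by ring

lemma G3_225 {H : Ix 2 → Ix 2 → Ix 2 → Ix 2 → ℂ} (hH : HS H) :
    G3 H 2 2 5 = 16 * ∑ x : S × S, ∑ y : S × S, ∑ z : T6 × T6,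
      bm H x.1 x.2 * bm H y.1 y.2 * bo H z.1 z.2 * (se x.1 y.1 z.1 * se x.2 y.2 z.2) := by
  rw [G3_eq, GM_rank (I0 := S × S) (I1 := S × S) (I2 := T6 × T6) _ _ _ _ _ _ _ _ _ _ _ _
    (blk2 hH) (blk2 hH) blk5]
  simp only [PP3_mmw, Finset.mul_sum]
  refine Finset.sum_congr rfl fun x _ => Finset.sum_congr rfl fun y _ =>
    Finset.sum_congr rfl fun z _ => ?_
  unfold se
  ring

lemma G3_133 {H : Ix 2 → Ix 2 → Ix 2 → Ix 2 → ℂ} (hH : HS H) :
    G3 H 1 3 3 = -8 * ∑ p : T6, ∑ x : S × T6, ∑ y : S × T6,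
      conj (bc H p) * bn H x.1 x.2 * bn H y.1 y.2 *
        (se x.1 y.1 p * E4 x.2.1 x.2.2 y.2.1 y.2.2) := by
  rw [G3_eq, GM_rank (I0 := T6) (I1 := S × T6) (I2 := S × T6) _ _ _ _ _ _ _ _ _ _ _ _
    (blk1 hH) (blk3 hH) (blk3 hH)]
  simp only [PP3_wmm, PP3_Pww, Finset.mul_sum]
  refine Finset.sum_congr rfl fun x _ => Finset.sum_congr rfl fun y _ =>
    Finset.sum_congr rfl fun z _ => ?_
  unfold se
  ring

lemma G3_044 {H : Ix 2 → Ix 2 → Ix 2 → Ix 2 → ℂ} (hH : HS H) :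
    G3 H 0 4 4 = conj (G3 H 1 3 3) := by
  rw [G3_133 hH, G3_eq, GM_rank (I0 := T6) (I1 := S × T6) (I2 := S × T6) _ _ _ _ _ _ _ _ _ _ _ _
    (blk0 hH) (blk4 hH) (blk4 hH)]
  simp only [PP3_wmm, PP3_Pww, Finset.mul_sum, map_sum, map_mul, Complex.conj_conj, map_neg,
    map_ofNat]
  refine Finset.sum_congr rfl fun x _ => Finset.sum_congr rfl fun y _ =>
    Finset.sum_congr rfl fun z _ => ?_
  unfold se
  rw [map_mul, E4_conj, sg_conj, E4_conj]
  ring

lemma G3_234 {H : Ix 2 → Ix 2 → Ix 2 → Ix 2 → ℂ} (hH : HS H) :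
    G3 H 2 3 4 = 16 * ∑ x : S × S, ∑ y : S × T6, ∑ z : S × T6,
      bm H x.1 x.2 * bn H y.1 y.2 * conj (bn H z.1 z.2) *
        (se x.1 y.1 z.2 * se x.2 z.1 y.2) := by
  rw [G3_eq, GM_rank (I0 := S × S) (I1 := S × T6) (I2 := S × T6) _ _ _ _ _ _ _ _ _ _ _ _
    (blk2 hH) (blk3 hH) (blk4 hH)]
  simp only [PP3_mmw, PP3_mwm, Finset.mul_sum]
  refine Finset.sum_congr rfl fun x _ => Finset.sum_congr rfl fun y _ =>
    Finset.sum_congr rfl fun z _ => ?_
  unfold se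
  ring

end Pool.Agent.H85.FL
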