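import Pool.Agent.H85.Flat.Pin2
import Pool.Graph.R_seed8.R735.HA.Frame

/-!
# Shears of the complement
-/

set_option autoImplicit false
set_option linter.unusedSimpArgs false

namespace Pool.Agent.H85.FL

open Finset MeasureTheory Pool.Agent.TH598.GV Pool.Agent.R735.HA
open scoped ComplexConjugate ComplexOrder

/-- the shear -/
noncomputable def sh (ν : S → ℂ) : Matrix (Ix 2) (Ix 2) ℂ := fun a i =>
  (if a = i then 1 else 0) + ∑ s : S, ν s * (ev s.1 a * dl s.2 i)

lemma sh_0 (ν : S → ℂ) (F : Ix 2 → ℂ) (c : Bool) : ∑ a, F a * sh ν a (0, c) = F (0, c) := by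
  have h : ∀ a, sh ν a (0, c) = if a = (0, c) then 1 else 0 := by
    intro a
    unfold sh
    simp only [dl_0, mul_zero, Finset.sum_const_zero, add_zero]
  simp only [h]
  simp

lemma sh_em (ν : S → ℂ) (F : Ix 2 → ℂ) (k : K 2) :
    ∑ a, F a * sh ν a (em k) = F (em k) + ∑ c, ν (c, k) * F (0, c) := by
  have h : ∀ a, sh ν a (em k) = (if a = em k then 1 else 0) + ∑ c, ν (c, k) * ev c a := by
    intro a
    unfold sh
    congr 1
    rw [Fintype.sum_prod_type (α₁ := Bool)]
    refine Finset.sum_congr rfl fun c _ => ?_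
    simp only [dl_em]
    rw [Finset.sum_eq_single k]
    · simp
    · intro l _ hl
      rw [if_neg (Ne.symm hl)]
      ring
    · simp
  simp only [h, mul_add, Finset.sum_add_distrib, Finset.mul_sum]
  congr 1
  · simp
  · rw [Finset.sum_comm]
    refine Finset.sum_congr rfl fun c _ => ?_
    have e : ∀ a, F a * (ν (c, k) * ev c a) = ν (c, k) * (ev c a * F a) := fun a => by ring
    simp only [e, ← Finset.mul_sum, sum_ev]

lemma sh_0' (ν : S → ℂ) (F : Ix 2 → ℂ) (c : Bool) : ∑ a, F a * conj (sh ν a (0, c)) = F (0, c) := by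
  have h := congrArg conj (sh_0 ν (fun a => conj (F a)) c)
  simpa only [map_sum, map_mul, Complex.conj_conj] using h

lemma sh_em' (ν : S → ℂ) (F : Ix 2 → ℂ) (k : K 2) :
    ∑ a, F a * conj (sh ν a (em k)) = F (em k) + ∑ c, conj (ν (c, k)) * F (0, c) := by
  have h := congrArg conj (sh_em ν (fun a => conj (F a)) k)
  simpa only [map_add, map_sum, map_mul, Complex.conj_conj] using h

lemma sh_mul (ν : S → ℂ) : sh ν * sh (fun s => -ν s) = 1 := by
  ext a i
  rw [Matrix.mul_apply, Matrix.one_apply]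
  rcases Pool.Agent.TH263.J4005.em_or i with ⟨c, rfl⟩ | ⟨k, rfl⟩
  · rw [sh_0]
    unfold sh
    simp only [dl_0, mul_zero, Finset.sum_const_zero, add_zero]
  · rw [sh_em]
    have h1 : ∀ c, sh ν a (0, c) = ev c a := by
      intro c
      unfold sh ev
      simp only [dl_0, mul_zero, Finset.sum_const_zero, add_zero]
    have h2 : sh ν a (em k) = (if a = em k then 1 else 0) + ∑ c, ν (c, k) * ev c a := by
      have := sh_em ν (fun b => if a = b then 1 else 0) k
      simp only [ite_mul, one_mul, zero_mul, Finset.sum_ite_eq, Finset.mem_univ, if_true] at this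
      rw [this]
      congr 1
    rw [h2]
    simp only [h1]
    rw [add_assoc, ← Finset.sum_add_distrib, Finset.sum_eq_zero, add_zero]
    intro c _
    ring

lemma sh_det (ν : S → ℂ) : (sh ν).det ≠ 0 := by
  intro h
  have h1 := congrArg Matrix.det (sh_mul ν)
  rw [Matrix.det_mul, h, zero_mul, Matrix.det_one] at h1
  exact zero_ne_one h1

lemma Hc_iter (M : Matrix (Ix 2) (Ix 2) ℂ) (H : Ix 2 → Ix 2 → Ix 2 → Ix 2 → ℂ)
    (i j k l : Ix 2) : Hc M H i j k l =
    ∑ a, (∑ b, (∑ c, (∑ d, H a b c d * conj (M d l)) * conj (M c k)) * M b j) * M a i := by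
  unfold Hc
  simp only [Finset.sum_mul]
  refine Finset.sum_congr rfl fun a _ => Finset.sum_congr rfl fun b _ =>
    Finset.sum_congr rfl fun c _ => Finset.sum_congr rfl fun d _ => by ring

variable {H : Ix 2 → Ix 2 → Ix 2 → Ix 2 → ℂ}

lemma null1 (hN : Null H) (c c' d : Bool) (l : Ix 2) : H (0, c) (0, c') (0, d) l = 0 :=
  hN.left _ _ _ _ (by rw [dg_0, dg_0]) (by rw [dg_0]; omega)

lemma null2 (hN : Null H) (c c' d : Bool) (l : Ix 2) : H (0, c) (0, c') l (0, d) = 0 :=
  hN.left _ _ _ _ (by rw [dg_0, dg_0]) (by rw [dg_0]; omega)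

lemma null3 (hN : Null H) (c d d' : Bool) (l : Ix 2) : H (0, c) l (0, d) (0, d') = 0 :=
  hN.right _ _ _ _ (by rw [dg_0]; omega) (by rw [dg_0, dg_0])

lemma Hc_0 (hN : Null H) (ν : S → ℂ) :
    Hc (sh ν) H (0, false) (0, true) (0, false) (0, true) = 0 := by
  rw [Hc_iter]
  simp only [sh_0, sh_0']
  exact null1 hN _ _ _ _

lemma Hc_bm (hN : Null H) (ν : S → ℂ) : bm (Hc (sh ν) H) = bm H := by
  funext s t
  unfold bm
  rw [Hc_iter]
  simp only [sh_0, sh_0', sh_em, sh_em', null1 hN, null2 hN, null3 hN, mul_zero,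
    Finset.sum_const_zero, add_zero]

lemma Hc_bc (hN : Null H) (ν : S → ℂ) : bc (Hc (sh ν) H) = bc H := by
  funext q
  unfold bc
  rw [Hc_iter]
  simp only [sh_0, sh_0', sh_em, sh_em', null1 hN, null2 hN, null3 hN, mul_zero,
    Finset.sum_const_zero, add_zero]

lemma bc_sg (hH : HS H) (c c' : Bool) (i j : K 2) :
    H (0, c) (0, c') (em i) (em j) = sg c c' * bc H (i, j) := by
  have hd : ∀ i k l, H i i k l = 0 := by
    intro i k l
    have h := hH.alt i i k l
    have h2 : (2 : ℂ) * H i i k l = 0 := by linear_combination h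
    rcases mul_eq_zero.1 h2 with h3 | h3
    · norm_num at h3
    · exact h3
  unfold bc
  cases c <;> cases c' <;> simp only [sg, zero_mul, one_mul, neg_mul]
  · exact hd _ _ _
  · exact hH.alt _ _ _ _
  · exact hd _ _ _

lemma Hc_bn (hH : HS H) (hN : Null H) (ν : S → ℂ) (s : S) (i j : K 2) :
    bn (Hc (sh ν) H) s (i, j) = bn H s (i, j) - ∑ d, conj (ν (d, j)) * bm H s (d, i) +
      ∑ d, conj (ν (d, i)) * bm H s (d, j) +
      ∑ c, ν (c, s.2) * (sg s.1 c * bc H (i, j)) := by
  have h1 : bn (Hc (sh ν) H) s (i, j) = bn H s (i, j) +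
      ∑ d, conj (ν (d, j)) * H (0, s.1) (em s.2) (em i) (0, d) +
      ∑ d, conj (ν (d, i)) * H (0, s.1) (em s.2) (0, d) (em j) +
      ∑ c, ν (c, s.2) * H (0, s.1) (0, c) (em i) (em j) := by
    unfold bn
    rw [Hc_iter]
    simp only [sh_0, sh_0', sh_em, sh_em', null1 hN, null2 hN, null3 hN, mul_zero,
      Finset.sum_const_zero, add_zero]
  rw [h1]
  simp only [bc_sg hH]
  have h2 : ∑ d, conj (ν (d, j)) * H (0, s.1) (em s.2) (em i) (0, d) =
      -∑ d, conj (ν (d, j)) * bm H s (d, i) := by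
    rw [← Finset.sum_neg_distrib]
    refine Finset.sum_congr rfl fun d _ => ?_
    rw [alt_r hH]
    unfold bm
    ring
  rw [h2]
  unfold bm
  ring

/-- the change of the trace -/
noncomputable def Lam (m : S → S → ℂ) (b : T6 → ℂ) : (S → ℂ) →ₗ[ℝ] (S → ℂ) where
  toFun ν := fun t => ∑ k, (-∑ d, conj (ν (d, t.2)) * m (t.1, k) (d, k) +
    ∑ d, conj (ν (d, k)) * m (t.1, k) (d, t.2) +
      ∑ c, ν (c, k) * (sg t.1 c * b (k, t.2)))
  map_add' x y := by
    funext t
    simp only [Pi.add_apply, map_add, add_mul, Finset.sum_add_distrib, neg_add,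
      Finset.sum_neg_distrib]
    ring
  map_smul' r x := by
    funext t
    simp only [Pi.smul_apply, Complex.real_smul, map_mul, Complex.conj_ofReal, mul_assoc,
      RingHom.id_apply, ← Finset.mul_sum, Finset.sum_add_distrib, Finset.sum_neg_distrib]
    ring

/-- the elementary mixed vectors -/
noncomputable def xv (ν : S → ℂ) (j k : K 2) : S → ℂ := fun s => if s.2 = k then ν (s.1, j) else 0

lemma MB_xv (m : S → S → ℂ) (ν : S → ℂ) (j k j' k' : K 2) : MB m (xv ν j k) (xv ν j' k') =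
    ∑ c, ∑ d, m (c, k) (d, k') * (ν (c, j) * conj (ν (d, j'))) := by
  unfold MB xv
  rw [Fintype.sum_prod_type (α₁ := Bool)]
  refine Finset.sum_congr rfl fun c _ => ?_
  rw [Finset.sum_eq_single k]
  · rw [Fintype.sum_prod_type (α₁ := Bool)]
    refine Finset.sum_congr rfl fun d _ => ?_
    rw [Finset.sum_eq_single k']
    · simp
    · intro l _ hl
      simp [hl]
    · simp
  · intro l _ hl
    simp [hl]
  · simp

lemma Lam_pair (m : S → S → ℂ) (b : T6 → ℂ) (hb : ∀ i j, b (j, i) = -b (i, j)) (ν : S → ℂ) :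
    ∑ t, ν t * Lam m b ν t = -∑ j, ∑ k, MB m (xv ν j k) (xv ν j k) +
      ∑ j, ∑ k, MB m (xv ν j k) (xv ν k j) +
      2 * bi b (fun k => ν (true, k)) (fun k => ν (false, k)) := by
  have e0 : ∀ t, ν t * Lam m b ν t =
      -(∑ k, ν t * ∑ d, conj (ν (d, t.2)) * m (t.1, k) (d, k)) +
      (∑ k, ν t * ∑ d, conj (ν (d, k)) * m (t.1, k) (d, t.2)) +
      (∑ k, ν t * ∑ c, ν (c, k) * (sg t.1 c * b (k, t.2))) := by
    intro t
    change ν t * (∑ k, (-∑ d, conj (ν (d, t.2)) * m (t.1, k) (d, k) +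
      ∑ d, conj (ν (d, k)) * m (t.1, k) (d, t.2) +
      ∑ c, ν (c, k) * (sg t.1 c * b (k, t.2)))) = _
    rw [Finset.mul_sum, ← Finset.sum_neg_distrib, ← Finset.sum_add_distrib,
      ← Finset.sum_add_distrib]
    exact Finset.sum_congr rfl fun k _ => by ring
  simp only [e0, Finset.sum_add_distrib, Finset.sum_neg_distrib]
  have e1 : ∑ t : S, ∑ k, ν t * ∑ d, conj (ν (d, t.2)) * m (t.1, k) (d, k) =
      ∑ j, ∑ k, MB m (xv ν j k) (xv ν j k) := by
    simp only [MB_xv]
    rw [Fintype.sum_prod_type_right (α₁ := Bool)]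
    refine Finset.sum_congr rfl fun j _ => ?_
    rw [Finset.sum_comm]
    refine Finset.sum_congr rfl fun k _ => Finset.sum_congr rfl fun c _ => ?_
    rw [Finset.mul_sum]
    exact Finset.sum_congr rfl fun d _ => by ring
  have e2 : ∑ t : S, ∑ k, ν t * ∑ d, conj (ν (d, k)) * m (t.1, k) (d, t.2) =
      ∑ j, ∑ k, MB m (xv ν j k) (xv ν k j) := by
    simp only [MB_xv]
    rw [Fintype.sum_prod_type_right (α₁ := Bool)]
    refine Finset.sum_congr rfl fun j _ => ?_
    rw [Finset.sum_comm]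
    refine Finset.sum_congr rfl fun k _ => Finset.sum_congr rfl fun c _ => ?_
    rw [Finset.mul_sum]
    exact Finset.sum_congr rfl fun d _ => by ring
  have e3 : ∑ t : S, ∑ k, ν t * ∑ c, ν (c, k) * (sg t.1 c * b (k, t.2)) =
      2 * bi b (fun k => ν (true, k)) (fun k => ν (false, k)) := by
    rw [sumS]
    simp only [Fintype.sum_bool, sg, zero_mul, mul_zero, add_zero, zero_add, one_mul, neg_mul]
    have f1 : ∑ j, ∑ k, ν (false, j) * (ν (true, k) * b (k, j)) =
        bi b (fun k => ν (true, k)) (fun k => ν (false, k)) := by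
      unfold bi
      rw [Fintype.sum_prod_type (α₁ := K 2), Finset.sum_comm]
      exact Finset.sum_congr rfl fun k _ => Finset.sum_congr rfl fun l _ => by ring
    have f2 : ∑ j, ∑ k, ν (true, j) * (ν (false, k) * -b (k, j)) =
        bi b (fun k => ν (true, k)) (fun k => ν (false, k)) := by
      unfold bi
      rw [Fintype.sum_prod_type (α₁ := K 2)]
      refine Finset.sum_congr rfl fun k _ => Finset.sum_congr rfl fun l _ => ?_
      rw [hb k l]
      ring
    rw [f1, f2]
    ring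
  rw [e1, e2, e3]

lemma MM_MB (m : S → S → ℂ) (x : S → ℂ) : MM m x = (MB m x x).re := rfl

lemma xv_norm (ν : S → ℂ) : ∑ j, ∑ k, sq (fun s => xv ν j k s - xv ν k j s) = 6 * sq ν := by
  have h1 : ∀ j k, ((sq (fun s => xv ν j k s - xv ν k j s) : ℝ) : ℂ) =
      ∑ c, (ν (c, j) * conj (ν (c, j)) + ν (c, k) * conj (ν (c, k)) -
        (if k = j then 2 * (ν (c, j) * conj (ν (c, j))) else 0)) := by
    intro j k
    rw [sq_c, Fintype.sum_prod_type (α₁ := Bool)]
    refine Finset.sum_congr rfl fun c _ => ?_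
    have h2 : ∀ l : K 2, (xv ν j k (c, l) - xv ν k j (c, l)) *
        conj (xv ν j k (c, l) - xv ν k j (c, l)) =
        (if l = k then ν (c, j) * conj (ν (c, j)) else 0) +
        (if l = j then ν (c, k) * conj (ν (c, k)) else 0) -
        (if l = k then (if k = j then 2 * (ν (c, j) * conj (ν (c, j))) else 0) else 0) := by
      intro l
      unfold xv
      by_cases h3 : l = k
      · subst h3
        by_cases h4 : l = j
        · subst h4
          simp
          ring
        · simp [h4]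
      · by_cases h4 : l = j
        · subst h4
          simp [h3]
        · simp [h3, h4]
    simp only [h2, Finset.sum_sub_distrib, Finset.sum_add_distrib, Finset.sum_ite_eq',
      Finset.mem_univ, if_true]
  have h2 : ((∑ j, ∑ k, sq (fun s => xv ν j k s - xv ν k j s) : ℝ) : ℂ) =
      ((6 * sq ν : ℝ) : ℂ) := by
    rw [Complex.ofReal_sum]
    simp only [Complex.ofReal_sum, h1]
    simp only [Finset.sum_sub_distrib, Finset.sum_add_distrib]
    have e1 : ∑ j : K 2, ∑ k : K 2, ∑ c, ν (c, j) * conj (ν (c, j)) = 4 * ((sq ν : ℝ) : ℂ) := by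
      rw [sq_c, Fintype.sum_prod_type_right (α₁ := Bool), Finset.mul_sum]
      refine Finset.sum_congr rfl fun j _ => ?_
      rw [Finset.sum_const, Finset.card_univ, Fintype.card_prod, Fintype.card_fin,
        Fintype.card_bool]
      simp
      ring
    have e2 : ∑ j : K 2, ∑ k : K 2, ∑ c, ν (c, k) * conj (ν (c, k)) = 4 * ((sq ν : ℝ) : ℂ) := by
      rw [Finset.sum_comm]
      exact e1
    have e3 : ∑ j : K 2, ∑ k : K 2, ∑ c, (if k = j then 2 * (ν (c, j) * conj (ν (c, j))) else 0) =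
        2 * ((sq ν : ℝ) : ℂ) := by
      rw [sq_c, Fintype.sum_prod_type_right (α₁ := Bool), Finset.mul_sum]
      refine Finset.sum_congr rfl fun j _ => ?_
      rw [Finset.sum_eq_single j]
      · simp [Finset.mul_sum]
        ring
      · intro k _ hk
        simp [hk]
      · simp
    rw [e1, e2, e3]
    push_cast
    ring
  exact_mod_cast h2

lemma Lam_neg (m : S → S → ℂ) (b : T6 → ℂ)
    (hb : ∀ i j, b (j, i) = -b (i, j)) (μ1 r : ℝ) (hr : 0 ≤ r)
    (h1 : ∀ x : S → ℂ, μ1 * sq x ≤ MM m x)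
    (h : ∀ x y : K 2 → ℂ, ‖bi b x y‖ ^ 2 ≤ r ^ 2 * (sq x * sq y)) (ν : S → ℂ) :
    (∑ t, ν t * Lam m b ν t).re ≤ -((3 * μ1 - r) * sq ν) := by
  rw [Lam_pair m b hb ν]
  have e1 : ∀ j k, MM m (fun s => xv ν j k s - xv ν k j s) =
      (MB m (xv ν j k) (xv ν j k)).re + (MB m (xv ν k j) (xv ν k j)).re -
        (MB m (xv ν j k) (xv ν k j)).re - (MB m (xv ν k j) (xv ν j k)).re := by
    intro j k
    unfold MM MB
    simp only [← Complex.add_re, ← Complex.sub_re]
    congr 1
    simp only [← Finset.sum_add_distrib, ← Finset.sum_sub_distrib, map_sub]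
    exact Finset.sum_congr rfl fun s _ => Finset.sum_congr rfl fun t _ => by ring
  have e2 : ∑ j, ∑ k, MM m (fun s => xv ν j k s - xv ν k j s) =
      2 * (∑ j, ∑ k, MB m (xv ν j k) (xv ν j k)).re -
        2 * (∑ j, ∑ k, MB m (xv ν j k) (xv ν k j)).re := by
    simp only [e1, Finset.sum_add_distrib, Finset.sum_sub_distrib, Complex.re_sum]
    rw [Finset.sum_comm (f := fun j k => (MB m (xv ν k j) (xv ν k j)).re),
      Finset.sum_comm (f := fun j k => (MB m (xv ν k j) (xv ν j k)).re)]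
    ring
  have e3 : μ1 * (6 * sq ν) ≤ ∑ j, ∑ k, MM m (fun s => xv ν j k s - xv ν k j s) := by
    rw [← xv_norm, Finset.mul_sum]
    refine Finset.sum_le_sum fun j _ => ?_
    rw [Finset.mul_sum]
    exact Finset.sum_le_sum fun k _ => h1 _
  have e4 : (2 * bi b (fun k => ν (true, k)) (fun k => ν (false, k))).re ≤ r * sq ν := by
    have f1 : sq ν = sq (fun k => ν (false, k)) + sq (fun k => ν (true, k)) := by
      unfold sq
      exact sumSR _
    have f2 : ‖2 * bi b (fun k => ν (true, k)) (fun k => ν (false, k))‖ ^ 2 ≤ (r * sq ν) ^ 2 := by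
      rw [norm_mul, mul_pow]
      have := h (fun k => ν (true, k)) (fun k => ν (false, k))
      have h2 : ‖(2 : ℂ)‖ ^ 2 = 4 := by norm_num
      rw [h2, f1]
      have h3 := sq_nonneg (sq (fun k => ν (true, k)) - sq (fun k => ν (false, k)))
      have hr2 : 0 ≤ r ^ 2 := by positivity
      nlinarith [mul_nonneg hr2 h3]
    exact (Complex.re_le_norm _).trans (le_of_sq_le_sq f2 (mul_nonneg hr (sq_nonneg' ν)))
  rw [Complex.add_re, Complex.add_re, Complex.neg_re]
  linarith

/-- the mixed-complement block can be made trace free -/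
lemma gauge (hH : HS H) (hN : Null H) (μ1 r : ℝ) (hr : 0 ≤ r) (hr3 : r < 3 * μ1)
    (h1 : ∀ x : S → ℂ, μ1 * sq x ≤ MM (bm H) x)
    (h : ∀ x y : K 2 → ℂ, ‖bi (bc H) x y‖ ^ 2 ≤ r ^ 2 * (sq x * sq y)) :
    ∃ ν : S → ℂ, ∀ c j, ∑ i, bn (Hc (sh ν) H) (c, i) (i, j) = 0 := by
  have hb : ∀ i j, bc H (j, i) = -bc H (i, j) := fun i j => alt_r hH _ _ _ _
  have hinj : Function.Injective (Lam (bm H) (bc H)) := by
    rw [← LinearMap.ker_eq_bot, LinearMap.ker_eq_bot']
    intro ν hν
    have h2 := Lam_neg (bm H) (bc H) hb μ1 r hr h1 h ν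
    rw [hν] at h2
    simp only [Pi.zero_apply, mul_zero, Finset.sum_const_zero, Complex.zero_re] at h2
    have h3 : sq ν = 0 := by
      have h4 := sq_nonneg' ν
      have h5 : 0 < 3 * μ1 - r := by linarith
      by_contra hne
      have h6 : 0 < sq ν := lt_of_le_of_ne h4 (Ne.symm hne)
      have := mul_pos h5 h6
      linarith
    funext s
    have h4 : ‖ν s‖ ^ 2 = 0 := (Finset.sum_eq_zero_iff_of_nonneg
      (fun i _ => by positivity)).1 h3 s (Finset.mem_univ s)
    simpa using h4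
  have hsurj : Function.Surjective (Lam (bm H) (bc H)) :=
    LinearMap.surjective_of_injective hinj
  obtain ⟨ν, hν⟩ := hsurj fun t => -∑ i, bn H (t.1, i) (i, t.2)
  refine ⟨ν, fun c j => ?_⟩
  have h2 := congrFun hν (c, j)
  change ∑ k, (-∑ d, conj (ν (d, j)) * bm H (c, k) (d, k) +
    ∑ d, conj (ν (d, k)) * bm H (c, k) (d, j) +
      ∑ e, ν (e, k) * (sg c e * bc H (k, j))) = -∑ i, bn H (c, i) (i, j) at h2
  simp only [Hc_bn hH hN]
  have h3 : ∀ k, bn H (c, k) (k, j) - ∑ d, conj (ν (d, j)) * bm H (c, k) (d, k) +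
      ∑ d, conj (ν (d, k)) * bm H (c, k) (d, j) + ∑ e, ν (e, k) * (sg c e * bc H (k, j)) =
      bn H (c, k) (k, j) + (-∑ d, conj (ν (d, j)) * bm H (c, k) (d, k) +
    ∑ d, conj (ν (d, k)) * bm H (c, k) (d, j) +
      ∑ e, ν (e, k) * (sg c e * bc H (k, j))) := fun k => by ring
  simp only [h3]
  rw [Finset.sum_add_distrib, h2, add_neg_cancel]

/-- **Nonnegativity for a pinched mixed block.** -/
theorem pinned (hH : HS H)
    (hK : ∀ z w : Ix 2 → ℂ, 0 ≤ (qf H z w).re)
    (h0 : H (0, false) (0, true) (0, false) (0, true) = 0) (μ1 μ2 r : ℝ) (hr : 0 ≤ r)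
    (hμ : 0 < μ1)
    (h1 : ∀ x : S → ℂ, μ1 * sq x ≤ MM (bm H) x)
    (h2 : ∀ x : S → ℂ, MM (bm H) x ≤ μ2 * sq x)
    (hb : ∀ x y : K 2 → ℂ, ‖bi (bc H) x y‖ ^ 2 ≤ r ^ 2 * (sq x * sq y))
    (hp : 2 * r ≤ 5 * μ1 - 3 * μ2) : 0 ≤ (GG H).re := by
  have hN := null_of_bp hH hK h0
  have hμ12 : μ1 ≤ μ2 := by
    have e1 : sq (fun s : S => if s = (false, (0, false)) then (1 : ℂ) else 0) = 1 := by
      unfold sq
      rw [Finset.sum_eq_single (false, (0, false))]
      · simp
      · intro s _ hs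
        simp [hs]
      · simp
    have := (h1 (fun s : S => if s = (false, (0, false)) then (1 : ℂ) else 0)).trans (h2 _)
    rw [e1] at this
    linarith
  obtain ⟨ν, hν⟩ := gauge hH hN μ1 r hr (by linarith) h1 hb
  have hH' := Hc_HS (sh ν) hH
  have h3 := pin_tf (H := Hc (sh ν) H) hH' (fun z w => by rw [qf_Hc]; exact hK _ _)
    (Hc_0 hN ν) μ1 μ2 r hr (by rw [Hc_bm hN]; exact h1) (by rw [Hc_bm hN]; exact h2)
    (by rw [Hc_bc hN]; exact hb) hν hp
  rw [GG_trans (B := Fin (2 + 1)), Complex.mul_conj, Complex.re_ofReal_mul] at h3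
  exact nonneg_of_mul_nonneg_right h3 (Complex.normSq_pos.2 (sh_det ν))

/-- **Nonnegativity without mixed-complement block.** -/
theorem flat (hH : HS H)
    (hK : ∀ z w : Ix 2 → ℂ, 0 ≤ (qf H z w).re)
    (h0 : H (0, false) (0, true) (0, false) (0, true) = 0)
    (hn : ∀ s q, bn H s q = 0) : 0 ≤ (GG H).re := by
  have hN := null_of_bp hH hK h0
  have e1 := sep_nonneg hH hN hK
  have e2 : G3 H 1 3 3 = 0 := by
    rw [G3_133 hH]
    simp only [hn, mul_zero, zero_mul, Finset.sum_const_zero]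
  have e3 : G3 H 2 3 4 = 0 := by
    rw [G3_234 hH]
    simp only [hn, mul_zero, zero_mul, Finset.sum_const_zero]
  rw [G3_main hN, G3_044 hH, e2, e3, map_zero, mul_zero, mul_zero, add_zero, add_zero, add_zero]
  exact e1

end Pool.Agent.H85.FL
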