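import Pool.Agent.H85.Flat.Near
import Pool.Graph.R_pool_sql_team_seeded_63374d34.N256.UR.Geo

/-!
# Hopf sign in dimension six when the bound of the complex sectional curvatures is attained at a plane
# which is not an eigenbivector: Euclidean spaces
-/

set_option autoImplicit false
set_option linter.unusedSimpArgs false

namespace Pool.Agent.H85.FL

open Finset MeasureTheory Module
open Pool.Agent.W666.GB Pool.Agent.TH598.GV Pool.Agent.R735.HA Pool.Agent.N256.UR
open scoped ComplexConjugate ComplexOrder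

section

variable {V : Type} [NormedAddCommGroup V] [InnerProductSpace ℝ V]

/-- the position of the `k`-th index of the complement among the six indices -/
def cx (k : Fin 2 × Bool) : Fin 3 × Bool := (k.1.succ, k.2)

/-- The six complex vectors `(f i).1 + i (f i).2` are linearly independent over the complex
numbers. -/
def CxIndep (f : Fin 3 × Bool → V × V) : Prop :=
  ∀ c : Fin 3 × Bool → ℂ, ∑ i, ((c i).re • (f i).1 - (c i).im • (f i).2) = 0 →
    ∑ i, ((c i).re • (f i).2 + (c i).im • (f i).1) = 0 → c = 0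

/-- The value `T^ℂ (ω, conj ω)` for the mixed bivector `ω = ∑ x (c, k) f (0, c) ∧ f (cx k)` of the
plane of `f (0, false)`, `f (0, true)` and the span of the other four vectors of the frame. -/
noncomputable def mixForm (T : V → V → V → V → ℝ) (f : Fin 3 × Bool → V × V)
    (x : Bool × (Fin 2 × Bool) → ℂ) : ℝ :=
  (∑ s, ∑ t, cxR T (f (0, s.1)) (f (cx s.2)) (f (0, t.1)) (f (cx t.2)) *
    (x s * conj (x t))).re

/-- The value `T^ℂ (z ∧ w, conj (u ∧ v))` for the plane `z = f (0, false)`, `w = f (0, true)` and the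
vectors `u`, `v` with the coordinates `conj (x k)`, `conj (y k)` in the last four vectors. -/
noncomputable def offForm (T : V → V → V → V → ℝ) (f : Fin 3 × Bool → V × V)
    (x y : Fin 2 × Bool → ℂ) : ℂ :=
  ∑ k, ∑ l, cxR T (f (0, false)) (f (0, true)) (f (cx k)) (f (cx l)) * (x k * y l)

/-- `T^ℂ` vanishes at the complex plane of `f (0, false)`, `f (0, true)`. -/
def ZeroAt (T : V → V → V → V → ℝ) (f : Fin 3 × Bool → V × V) : Prop :=
  cxR T (f (0, false)) (f (0, true)) (f (0, false)) (f (0, true)) = 0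

/-- `T^ℂ` vanishes at the complex plane of `f (0, false)`, `f (0, true)`, and the span of the other
four vectors is a complement which is curvature-invariant in the direction of the plane:
`T^ℂ (z ∧ u, conj (v ∧ w)) = 0` for `z` in the plane and `u`, `v`, `w` in the complement. -/
structure FlatAt (T : V → V → V → V → ℝ) (f : Fin 3 × Bool → V × V) : Prop where
  indep : CxIndep f
  zero : ZeroAt T f
  inv : ∀ (c : Bool) (k i j : Fin 2 × Bool), cxR T (f (0, c)) (f (cx k)) (f (cx i)) (f (cx j)) = 0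

/-- `f` is a unitary frame. -/
def CxUnit (f : Fin 3 × Bool → V × V) : Prop := ∀ i j, hin (f i) (f j) = if i = j then 1 else 0

/-- `z ∧ w` is nearly orthogonal for `T^ℂ` to the bivectors of the complement:
`|T^ℂ (z ∧ w, conj (u ∧ v))| ≤ r |x| |y|` for the vectors `u`, `v` with coordinates `conj (x k)`,
`conj (y k)`. -/
def OffAt (T : V → V → V → V → ℝ) (f : Fin 3 × Bool → V × V) (r : ℝ) : Prop :=
  ∀ x y : Fin 2 × Bool → ℂ, ‖offForm T f x y‖ ^ 2 ≤
    r ^ 2 * ((∑ k, ‖x k‖ ^ 2) * ∑ k, ‖y k‖ ^ 2)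

/-- the coordinates of `-T` -/
noncomputable def Kc (e : OrthonormalBasis (Fin 3 × Bool) ℝ V) (T : V → V → V → V → ℝ) :
    Ix 2 → Ix 2 → Ix 2 → Ix 2 → ℂ := fun a b c d => ((-T (e a) (e b) (e c) (e d) : ℝ) : ℂ)

lemma Kc_HS (e : OrthonormalBasis (Fin 3 × Bool) ℝ V) {T : V → V → V → V → ℝ} (hT : AlgCurv T) :
    HS (Kc e T) := by
  constructor
  · intro i j k l
    unfold Kc
    rw [Complex.conj_ofReal, hT.pair]
  · intro i j k l
    unfold Kc
    rw [hT.anti]
    push_cast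
    ring

lemma Kc_Bp (e : OrthonormalBasis (Fin 3 × Bool) ℝ V) {T : V → V → V → V → ℝ} (hT : AlgCurv T)
    (hC : CxNonpos T) : Bp (Kc e T) := by
  intro z w
  obtain ⟨Rf, hRf⟩ : ∃ Rf : Fin 3 × Bool → Fin 3 × Bool → Fin 3 × Bool → Fin 3 × Bool → ℝ,
    Rf = fun i j k l => -T (e i) (e j) (e k) (e l) := ⟨_, rfl⟩
  have hpair : ∀ i j k l, Rf k l i j = Rf i j k l := fun i j k l => by
    simp only [hRf]; rw [hT.pair]
  have hK : Kc e T = fun a b c d => ((Rf a b c d : ℝ) : ℂ) := by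
    rw [hRf]
    rfl
  rw [hK, Pool.Agent.TH828.J3423.re_qf _ hpair]
  have hrq : ∀ a b c d : Fin 3 × Bool → ℝ, Pool.Agent.TH828.J3423.rq Rf a b c d =
        -T (vc e a) (vc e b) (vc e c) (vc e d) := by
    intro a b c d
    rw [← rq_eq hT, hRf]
    rfl
  have h1 := hrq (fun a => (z a).re) (fun a => (w a).re) (fun a => (z a).re) (fun a => (w a).re)
  have h2 := hrq (fun a => (z a).im) (fun a => (w a).im) (fun a => (z a).im) (fun a => (w a).im)
  have h3 := hrq (fun a => (z a).re) (fun a => (w a).im) (fun a => (z a).re) (fun a => (w a).im)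
  have h4 := hrq (fun a => (z a).im) (fun a => (w a).re) (fun a => (z a).im) (fun a => (w a).re)
  have h5 := hrq (fun a => (z a).re) (fun a => (w a).re) (fun a => (z a).im) (fun a => (w a).im)
  have h6 := hrq (fun a => (z a).re) (fun a => (w a).im) (fun a => (z a).im) (fun a => (w a).re)
  have h7 := hC (vc e fun a => (z a).re) (vc e fun a => (z a).im) (vc e fun a => (w a).re)
    (vc e fun a => (w a).im)
  linarith

lemma Kc_shift (e : OrthonormalBasis (Fin 3 × Bool) ℝ V) (R : V → V → V → V → ℝ) (κ : ℝ) :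
    (fun i j k l => Kc e (shiftT R κ) i j k l + (κ : ℂ) * UU i j k l) = Kc e R := by
  funext i j k l
  have hin : ∀ i j, inner ℝ (e i) (e j) = if i = j then (1 : ℝ) else 0 := fun i j => by
    rw [e.inner_eq_ite]
  have hUU : UU i j k l = ((unitCurv i j k l : ℝ) : ℂ) := by
    have e2 : ∀ (P : Prop) [Decidable P], (((if P then 1 else 0 : ℝ)) : ℂ) =
        if P then 1 else 0 := by
      intro P _
      split_ifs <;> simp
    simp only [UU, unitCurv]
    rw [Complex.ofReal_sub, Complex.ofReal_mul, Complex.ofReal_mul, e2, e2, e2, e2]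
  rw [hUU]
  simp only [Kc, shiftT, unitCurv, hin]
  push_cast
  ring

lemma toGB (e : OrthonormalBasis (Fin 3 × Bool) ℝ V) (R : V → V → V → V → ℝ) (δ : ℝ)
    (key : 2 ^ 3 * ((2 * 3).factorial : ℝ) * δ ^ 3 ≤ (GG (Kc e R)).re) :
    roundGB 3 δ ≤ (-1) ^ 3 * gbc e R := by
  obtain ⟨Rf, hRf⟩ : ∃ Rf : Fin 3 × Bool → Fin 3 × Bool → Fin 3 × Bool → Fin 3 × Bool → ℝ,
    Rf = fun i j k l => -R (e i) (e j) (e k) (e l) := ⟨_, rfl⟩
  have hK : Kc e R = fun a b c d => ((Rf a b c d : ℝ) : ℂ) := by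
    rw [hRf]
    rfl
  rw [hK, Pool.Agent.TH828.J3423.GG_re] at key
  have hsum : ∑ σ : Equiv.Perm (Fin 3 × Bool), ∑ τ : Equiv.Perm (Fin 3 × Bool),
        Pool.Agent.W666.GB.sn σ * Pool.Agent.W666.GB.sn τ *
          ∏ b : Fin 3, Rf (σ (b, false)) (σ (b, true)) (τ (b, false)) (τ (b, true)) =
      (-1) ^ 3 * ∑ σ : Equiv.Perm (Fin 3 × Bool),
        ∑ τ : Equiv.Perm (Fin 3 × Bool),
        ((Equiv.Perm.sign σ : ℤ) : ℝ) * ((Equiv.Perm.sign τ : ℤ) : ℝ) *
          ∏ b : Fin 3, R (e (σ (b, false))) (e (σ (b, true))) (e (τ (b, false)))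
            (e (τ (b, true))) := by
    simp only [hRf, Finset.prod_neg, Finset.mul_sum, Finset.card_univ, Fintype.card_fin,
      Pool.Agent.W666.GB.sn]
    refine Finset.sum_congr rfl fun σ _ => Finset.sum_congr rfl fun τ _ => by ring
  rw [hsum] at key
  have hπ := Real.pi_pos
  have hc : 0 < 1 / ((8 * Real.pi) ^ 3 * ((3 : ℕ).factorial : ℝ)) := by positivity
  have h1 := mul_le_mul_of_nonneg_left key hc.le
  have h2 : 1 / ((8 * Real.pi) ^ 3 * ((3 : ℕ).factorial : ℝ)) *
      (2 ^ 3 * ((2 * 3).factorial : ℝ) * δ ^ 3) = roundGB 3 δ := by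
    unfold roundGB
    have h8 : (8 * Real.pi) ^ 3 = 2 ^ 3 * (4 * Real.pi) ^ 3 := by
      rw [← mul_pow]; ring
    rw [h8]
    field_simp
  rw [h2] at h1
  refine h1.trans (le_of_eq ?_)
  unfold gbc
  ring

lemma Hc_Kc (e : OrthonormalBasis (Fin 3 × Bool) ℝ V) {T : V → V → V → V → ℝ} (hT : AlgCurv T)
    (f : Fin 3 × Bool → V × V) (i j k l : Fin 3 × Bool) :
    Hc (Mf e f) (Kc e T) i j k l = -cxR T (f i) (f j) (f k) (f l) := Hc_cx e hT f i j k l

lemma Mf_det (e : OrthonormalBasis (Fin 3 × Bool) ℝ V) {f : Fin 3 × Bool → V × V}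
    (hf : CxIndep f) : (Mf e f).det ≠ 0 := by
  intro h0
  obtain ⟨c, hc0, hc⟩ := Matrix.exists_mulVec_eq_zero_iff.2 h0
  apply hc0
  have h1 : ∀ a, ∑ i, c i * co e (f i) a = 0 := by
    intro a
    have := congrFun hc a
    unfold Matrix.mulVec dotProduct at this
    rw [Pi.zero_apply] at this
    rw [← this]
    exact Finset.sum_congr rfl fun i _ => by rw [mul_comm]; rfl
  have h2 : ∀ i, vc e (fun a => (c i * co e (f i) a).re) =
      (c i).re • (f i).1 - (c i).im • (f i).2 := by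
    intro i
    unfold vc co
    simp only [Complex.mul_re, sub_smul, Finset.sum_sub_distrib, mul_smul, ← Finset.smul_sum]
    have e1 : ∀ x : V, ∑ a, e.repr x a • e a = x := fun x => e.sum_repr x
    rw [e1, e1]
  have h3 : ∀ i, vc e (fun a => (c i * co e (f i) a).im) =
      (c i).re • (f i).2 + (c i).im • (f i).1 := by
    intro i
    unfold vc co
    simp only [Complex.mul_im, add_smul, Finset.sum_add_distrib, mul_smul, ← Finset.smul_sum]
    have e1 : ∀ x : V, ∑ a, e.repr x a • e a = x := fun x => e.sum_repr x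
    rw [e1, e1]
  refine hf c ?_ ?_
  · simp only [← h2]
    unfold vc
    rw [Finset.sum_comm]
    refine Finset.sum_eq_zero fun a _ => ?_
    rw [← Finset.sum_smul, ← Complex.re_sum, h1]
    simp
  · simp only [← h3]
    unfold vc
    rw [Finset.sum_comm]
    refine Finset.sum_eq_zero fun a _ => ?_
    rw [← Finset.sum_smul, ← Complex.im_sum, h1]
    simp

lemma MM_mix (e : OrthonormalBasis (Fin 3 × Bool) ℝ V) {T : V → V → V → V → ℝ} (hT : AlgCurv T)
    (f : Fin 3 × Bool → V × V) (x : S → ℂ) :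
    MM (bm (Hc (Mf e f) (Kc e T))) x = -mixForm T f x := by
  unfold MM mixForm bm
  rw [← Complex.neg_re]
  congr 1
  rw [← Finset.sum_neg_distrib]
  refine Finset.sum_congr rfl fun s _ => ?_
  rw [← Finset.sum_neg_distrib]
  refine Finset.sum_congr rfl fun t _ => ?_
  rw [Hc_Kc e hT]
  unfold cx Pool.Agent.TH598.GV.em
  ring

lemma bi_off (e : OrthonormalBasis (Fin 3 × Bool) ℝ V) {T : V → V → V → V → ℝ} (hT : AlgCurv T)
    (f : Fin 3 × Bool → V × V) (x y : K 2 → ℂ) :
    bi (bc (Hc (Mf e f) (Kc e T))) x y = -offForm T f x y := by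
  unfold bi offForm bc
  rw [Fintype.sum_prod_type (α₁ := K 2), ← Finset.sum_neg_distrib]
  refine Finset.sum_congr rfl fun s _ => ?_
  rw [← Finset.sum_neg_distrib]
  refine Finset.sum_congr rfl fun t _ => ?_
  rw [Hc_Kc e hT]
  unfold cx Pool.Agent.TH598.GV.em
  ring

lemma GG_Hc {M : Matrix (Ix 2) (Ix 2) ℂ} (hM : M.det ≠ 0) (H : Ix 2 → Ix 2 → Ix 2 → Ix 2 → ℂ)
    (h : 0 ≤ (GG (Hc M H)).re) : 0 ≤ (GG H).re := by
  rw [GG_trans (B := Fin (2 + 1)), Complex.mul_conj, Complex.re_ofReal_mul] at h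
  exact nonneg_of_mul_nonneg_right h (Complex.normSq_pos.2 hM)

lemma point_end (e : OrthonormalBasis (Fin 3 × Bool) ℝ V) {R : V → V → V → V → ℝ}
    (hR : AlgCurv R) {κ : ℝ} (hκ : 0 ≤ κ) (hC : CxNonpos (shiftT R κ))
    (h : 0 ≤ (GG (Kc e (shiftT R κ))).re) : roundGB 3 κ ≤ (-1) ^ 3 * gbc e R := by
  have hT := shift_curv hR κ
  have h1 := addU (Kc_HS e hT) (Kc_Bp e hT hC) κ hκ
  rw [Kc_shift] at h1
  exact toGB e R κ (by linarith)

/-- **Flat case, pointwise.** -/
theorem pointFlat (e : OrthonormalBasis (Fin 3 × Bool) ℝ V) {R : V → V → V → V → ℝ}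
    (hR : AlgCurv R) {κ : ℝ} (hκ : 0 ≤ κ) (hC : CxNonpos (shiftT R κ))
    {f : Fin 3 × Bool → V × V} (hf : FlatAt (shiftT R κ) f) :
    roundGB 3 κ ≤ (-1) ^ 3 * gbc e R := by
  have hT := shift_curv hR κ
  refine point_end e hR hκ hC (GG_Hc (Mf_det e hf.indep) _ ?_)
  refine flat (Hc_HS _ (Kc_HS e hT)) (fun z w => by rw [qf_Hc]; exact Kc_Bp e hT hC _ _) ?_ ?_
  · rw [Hc_Kc e hT, hf.zero, neg_zero]
  · intro s q
    unfold bn
    rw [Hc_Kc e hT]
    exact neg_eq_zero.2 (hf.inv _ _ _ _)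

/-- `f` is a unitary frame, the complex sectional curvature of the plane of `f (0, false)`,
`f (0, true)` is `-κ`, and the bivector of the plane is nearly orthogonal for `R^ℂ` to the bivectors
of the orthogonal complement. -/
structure NearAt (R : V → V → V → V → ℝ) (f : Fin 3 × Bool → V × V) (κ r : ℝ) : Prop where
  unit : CxUnit f
  att : cxR R (f (0, false)) (f (0, true)) (f (0, false)) (f (0, true)) = ((-κ : ℝ) : ℂ)
  rad : 0 ≤ r
  off : OffAt R f r
  num : 3 * r ≤ 2 * κ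

lemma Hc_shift (e : OrthonormalBasis (Fin 3 × Bool) ℝ V) (R : V → V → V → V → ℝ) (κ : ℝ)
    {f : Fin 3 × Bool → V × V} (hf : CxUnit f) (i j k l : Ix 2) :
    Hc (Mf e f) (Kc e (shiftT R κ)) i j k l =
      Hc (Mf e f) (Kc e R) i j k l - (κ : ℂ) * UU i j k l := by
  have h1 : Kc e (shiftT R κ) = fun a b c d => Kc e R a b c d - (κ : ℂ) * UU a b c d := by
    funext a b c d
    have := congrFun (congrFun (congrFun (congrFun (Kc_shift e R κ) a) b) c) d
    rw [← this]
    ring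
  rw [h1, Hc_add, Hc_UU (Mf e f) (Mf_unit e f hf)]

lemma UU_P : UU ((0, false) : Ix 2) (0, true) (0, false) (0, true) = (1 : ℂ) := by
  unfold UU
  simp

lemma off_shift (e : OrthonormalBasis (Fin 3 × Bool) ℝ V) {R : V → V → V → V → ℝ}
    (hR : AlgCurv R) (κ : ℝ) {f : Fin 3 × Bool → V × V} (hf : CxUnit f) {r : ℝ}
    (h : OffAt R f r) (x y : K 2 → ℂ) :
    ‖bi (bc (Hc (Mf e f) (Kc e (shiftT R κ)))) x y‖ ^ 2 ≤ r ^ 2 * (sq x * sq y) := by
  have h1 : bc (Hc (Mf e f) (Kc e (shiftT R κ))) = bc (Hc (Mf e f) (Kc e R)) := by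
    funext q
    unfold bc
    rw [Hc_shift e R κ hf]
    have h2 : UU (0, false) (0, true) (em q.1) (em q.2) = (0 : ℂ) := by
      unfold UU
      rw [if_neg (Pool.Agent.TH263.J4005.em_ne q.1 false).symm,
        if_neg (Pool.Agent.TH263.J4005.em_ne q.2 false).symm]
      ring
    rw [h2]
    ring
  rw [h1, bi_off e hR, norm_neg]
  exact h x y

/-- **Nearly an eigenbivector, pointwise.** -/
theorem pointNear (e : OrthonormalBasis (Fin 3 × Bool) ℝ V) {R : V → V → V → V → ℝ}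
    (hR : AlgCurv R) {κ : ℝ} (hC : CxNonpos (shiftT R κ))
    {f : Fin 3 × Bool → V × V} {r : ℝ} (hf : NearAt R f κ r) :
    roundGB 3 (κ - 3 / 2 * r) ≤ (-1) ^ 3 * gbc e R := by
  have hT := shift_curv hR κ
  have hM := Mf_unit e f hf.unit
  have key := near (H := Hc (Mf e f) (Kc e (shiftT R κ))) (Hc_HS _ (Kc_HS e hT))
    (fun z w => by rw [qf_Hc]; exact Kc_Bp e hT hC _ _) (by
      rw [Hc_shift e R κ hf.unit, Hc_Kc e hR, hf.att, UU_P]
      push_cast
      ring) r κ hf.rad (by have := hf.num; linarith) (off_shift e hR κ hf.unit hf.off)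
  have h1 : (fun i j i' j' => Hc (Mf e f) (Kc e (shiftT R κ)) i j i' j' +
      (κ : ℂ) * UU i j i' j') = Hc (Mf e f) (Kc e R) := by
    funext i j k l
    rw [Hc_shift e R κ hf.unit]
    ring
  rw [h1, GG_trans (B := Fin (2 + 1)), unit_det hM, one_mul] at key
  exact toGB e R _ key

end

end Pool.Agent.H85.FL
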