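import Pool.Agent.H85.Flat.Geo

/-!
# The pinched case: Euclidean spaces
-/

set_option autoImplicit false
set_option linter.unusedSimpArgs false
set_option maxHeartbeats 4000000

namespace Pool.Agent.H85.FL

open Finset MeasureTheory Module
open Pool.Agent.W666.GB Pool.Agent.TH598.GV Pool.Agent.R735.HA Pool.Agent.N256.UR
open scoped ComplexConjugate ComplexOrder

/-- the bound for the plane-complement block is automatic -/
lemma off_auto {H : Ix 2 → Ix 2 → Ix 2 → Ix 2 → ℂ} (hH : HS H) (hN : Null H) (hK : Bp H)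
    (μ : ℝ) (hμ : 0 < μ) (h : ∀ x : S → ℂ, MM (bm H) x ≤ μ * sq x) (x y : K 2 → ℂ) :
    ‖bi (bc H) x y‖ ^ 2 ≤ μ ^ 2 * (sq x * sq y) := by
  by_cases hy : sq y = 0
  · have h0 : ∀ i, y i = 0 := by
      intro i
      have := (Finset.sum_eq_zero_iff_of_nonneg (fun i _ => by positivity)).1 hy i
        (Finset.mem_univ i)
      simpa using this
    have h1 : bi (bc H) x y = 0 := by
      unfold bi
      simp [h0]
    rw [h1, hy]
    simp
  · have hy' : 0 < sq y := lt_of_le_of_ne (sq_nonneg' y) (Ne.symm hy)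
    obtain ⟨B, hB⟩ : ∃ B : ℂ, B = ∑ q : T6, conj (bc H q) * (conj (x q.1) * conj (y q.2)) :=
      ⟨_, rfl⟩
    have hBn : ‖bi (bc H) x y‖ = ‖B‖ := by
      have : B = conj (bi (bc H) x y) := by
        rw [hB]
        unfold bi
        simp only [map_sum, map_mul]
      rw [this, RCLike.norm_conj]
    obtain ⟨t, ht⟩ : ∃ t : ℝ, t = 1 / (μ * sq y) := ⟨_, rfl⟩
    obtain ⟨X, hX⟩ : ∃ X : S → ℂ, X = fun s => if s.1 then -((t : ℂ) * conj B) * conj (y s.2)
      else conj (x s.2) := ⟨_, rfl⟩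
    have h1 := second' hH hN hK X
    have h2 : ∑ q : T6, conj (bc H q) * (X (false, q.1) * X (true, q.2)) =
        ((-(t * ‖B‖ ^ 2) : ℝ) : ℂ) := by
      have e1 : ∀ q : T6, conj (bc H q) * (X (false, q.1) * X (true, q.2)) =
          -((t : ℂ) * conj B) * (conj (bc H q) * (conj (x q.1) * conj (y q.2))) := by
        intro q
        rw [hX]
        simp only [Bool.false_eq_true, if_false, if_true]
        ring
      rw [Finset.sum_congr rfl fun q _ => e1 q, ← Finset.mul_sum, ← hB]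
      push_cast
      have := nsq B
      push_cast at this
      rw [this]
      ring
    have h3 : sq X = sq x + t ^ 2 * ‖B‖ ^ 2 * sq y := by
      unfold sq
      rw [sumSR, hX, Finset.mul_sum]
      simp only [Bool.false_eq_true, if_false, if_true, RCLike.norm_conj, norm_mul, norm_neg,
        Complex.norm_real, mul_pow, Real.norm_eq_abs, sq_abs]
    have h4 := h X
    rw [h2, Complex.ofReal_re] at h1
    rw [h3] at h4
    rw [hBn]
    have h5 : t * (μ * sq y) = 1 := by
      rw [ht]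
      field_simp
    have h6 : 0 ≤ μ * sq x - t * ‖B‖ ^ 2 := by
      have : μ * (sq x + t ^ 2 * ‖B‖ ^ 2 * sq y) = μ * sq x + (t * (μ * sq y)) * (t * ‖B‖ ^ 2) := by
        ring
      rw [this, h5] at h4
      linarith
    have h7 : 0 ≤ (μ * sq x - t * ‖B‖ ^ 2) * (μ * sq y) := mul_nonneg h6 (by positivity)
    have h8 : (μ * sq x - t * ‖B‖ ^ 2) * (μ * sq y) = μ ^ 2 * (sq x * sq y) -
        (t * (μ * sq y)) * ‖B‖ ^ 2 := by ring
    rw [h8, h5] at h7
    linarith

/-- the pinched case, with the alternative that the mixed block is a multiple of the identity -/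
theorem pinned' {H : Ix 2 → Ix 2 → Ix 2 → Ix 2 → ℂ} (hH : HS H) (hK : Bp H)
    (h0 : H (0, false) (0, true) (0, false) (0, true) = 0) (μ1 μ2 : ℝ) (hμ : 0 < μ1)
    (h1 : ∀ x : S → ℂ, μ1 * sq x ≤ MM (bm H) x)
    (h2 : ∀ x : S → ℂ, MM (bm H) x ≤ μ2 * sq x)
    (h3 : μ2 ≤ μ1 ∨ ∃ r : ℝ, 0 ≤ r ∧ 2 * r ≤ 5 * μ1 - 3 * μ2 ∧
      ∀ x y : K 2 → ℂ, ‖bi (bc H) x y‖ ^ 2 ≤ r ^ 2 * (sq x * sq y)) : 0 ≤ (GG H).re := by
  have hN := null_of_bp hH hK h0
  rcases h3 with h3 | ⟨r, hr, hp, hb⟩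
  · have hμ2 : ∀ x : S → ℂ, MM (bm H) x ≤ μ1 * sq x := fun x =>
      (h2 x).trans (mul_le_mul_of_nonneg_right h3 (sq_nonneg' x))
    exact pinned hH hK h0 μ1 μ1 μ1 hμ.le hμ h1 hμ2 (off_auto hH hN hK μ1 hμ hμ2) (by linarith)
  · exact pinned hH hK h0 μ1 μ2 r hr hμ h1 h2 hb hp

/-- the Gram determinant -/
lemma gram_re (z w : Ix 2 → ℂ) :
    (qf UU z w).re = sq z * sq w - ‖∑ k, z k * conj (w k)‖ ^ 2 := by
  have h1 := Pool.Agent.TH367.J4006.qf_UU z w
  have h2 := lagrange z w
  have h3 : (∑ k, z k * conj (w k)) * (∑ k, w k * conj (z k)) =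
      ((‖∑ k, z k * conj (w k)‖ ^ 2 : ℝ) : ℂ) := by
    rw [nsq, map_sum]
    congr 1
    exact Finset.sum_congr rfl fun l _ => by rw [map_mul, Complex.conj_conj, mul_comm]
  rw [h3] at h2
  have h4 : sq z * sq w = (1 / 2) * ∑ k, ∑ l, ‖z k * w l - z l * w k‖ ^ 2 +
      ‖∑ k, z k * conj (w k)‖ ^ 2 := by
    have h5 : (((1 / 2) * ∑ k, ∑ l, ‖z k * w l - z l * w k‖ ^ 2 +
        ‖∑ k, z k * conj (w k)‖ ^ 2 : ℝ) : ℂ) =
        (1 / 2) * ∑ k, ∑ l, ((‖z k * w l - z l * w k‖ ^ 2 : ℝ) : ℂ) +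
          ((‖∑ k, z k * conj (w k)‖ ^ 2 : ℝ) : ℂ) := by
      push_cast
      rfl
    rw [← h5] at h2
    exact_mod_cast h2
  linarith

/-- orthogonal projection decreases the Gram determinant -/
lemma gram_proj (p q p' q' : Ix 2 → ℂ) (h1 : ∑ k, p k * conj (p' k) = 0)
    (h2 : ∑ k, q k * conj (q' k) = 0) (h3 : ∑ k, p k * conj (q' k) = 0)
    (h4 : ∑ k, p' k * conj (q k) = 0) :
    (qf UU p q).re ≤ (qf UU (fun k => p k + p' k) (fun k => q k + q' k)).re := by
  rw [gram_re, gram_re]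
  have cs2 : ∀ z w : Ix 2 → ℂ, ‖∑ k, z k * conj (w k)‖ ^ 2 ≤ sq z * sq w := by
    intro z w
    have h5 := gram_re z w
    have h6 : 0 ≤ (qf UU z w).re := Pool.Agent.TH541.J3422.qf_II z w
    linarith
  have hsq : ∀ u v : Ix 2 → ℂ, ∑ k, u k * conj (v k) = 0 →
      sq (fun k => u k + v k) = sq u + sq v := by
    intro u v huv
    have huv' : ∑ k, v k * conj (u k) = 0 := by
      have := congrArg conj huv
      rw [map_sum, map_zero] at this
      rw [← this]
      exact Finset.sum_congr rfl fun k _ => by rw [map_mul, Complex.conj_conj, mul_comm]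
    have h5 : ((sq (fun k => u k + v k) : ℝ) : ℂ) = ((sq u + sq v : ℝ) : ℂ) := by
      push_cast
      rw [sq_c, sq_c, sq_c]
      have h6 : ∀ k, (u k + v k) * conj (u k + v k) = u k * conj (u k) + v k * conj (v k) +
          u k * conj (v k) + v k * conj (u k) := by
        intro k
        rw [map_add]
        ring
      simp only [h6, Finset.sum_add_distrib]
      rw [huv, huv']
      ring
    exact_mod_cast h5
  have h5 : ∑ k, (p k + p' k) * conj (q k + q' k) = ∑ k, p k * conj (q k) +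
      ∑ k, p' k * conj (q' k) := by
    have h6 : ∀ k, (p k + p' k) * conj (q k + q' k) = p k * conj (q k) + p' k * conj (q' k) +
        p k * conj (q' k) + p' k * conj (q k) := by
      intro k
      rw [map_add]
      ring
    simp only [h6, Finset.sum_add_distrib]
    rw [h3, h4]
    ring
  rw [h5, hsq p p' h1, hsq q q' h2]
  obtain ⟨s, hs⟩ : ∃ s, s = ∑ k, p k * conj (q k) := ⟨_, rfl⟩
  obtain ⟨s', hs'⟩ : ∃ s', s' = ∑ k, p' k * conj (q' k) := ⟨_, rfl⟩
  have c1 := cs2 p q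
  have c2 := cs2 p' q'
  rw [← hs] at c1
  rw [← hs'] at c2
  rw [← hs, ← hs']
  have n1 := sq_nonneg' p
  have n2 := sq_nonneg' q
  have n3 := sq_nonneg' p'
  have n4 := sq_nonneg' q'
  have h6 : ‖s + s'‖ ^ 2 ≤ (‖s‖ + ‖s'‖) ^ 2 := pow_le_pow_left₀ (norm_nonneg _) (norm_add_le _ _) 2
  have h7 : (2 * (‖s‖ * ‖s'‖)) ≤ sq p * sq q' + sq p' * sq q := by
    have h8 : (2 * (‖s‖ * ‖s'‖)) ^ 2 ≤ (sq p * sq q' + sq p' * sq q) ^ 2 := by
      have h9 : ‖s‖ ^ 2 * ‖s'‖ ^ 2 ≤ (sq p * sq q) * (sq p' * sq q') :=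
        mul_le_mul c1 c2 (by positivity) (mul_nonneg n1 n2)
      have h10 := sq_nonneg (sq p * sq q' - sq p' * sq q)
      nlinarith
    exact le_of_sq_le_sq h8 (add_nonneg (mul_nonneg n1 n4) (mul_nonneg n3 n2))
  nlinarith

section

variable {V : Type} [NormedAddCommGroup V] [InnerProductSpace ℝ V]

/-- The complex sectional curvatures are at most `-κ`, this bound is attained at the complex plane of
`f (0, false)`, `f (0, true)`; the frame `f` is a complex basis, and if `δ < κ` the last four vectors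
are orthogonal to the first two; the Hermitian form of `R + δ` on the mixed bivectors is between
`-μ₂` and `-μ₁` times the sum of the squares of the coordinates; and either `μ₂ = μ₁`, or `z ∧ w` is
nearly orthogonal to the bivectors of the complement. -/
structure PinAt (R : V → V → V → V → ℝ) (f : Fin 3 × Bool → V × V) (κ δ μ₁ μ₂ : ℝ) : Prop where
  nonneg : 0 ≤ δ
  le : δ ≤ κ
  indep : CxIndep f
  zero : ZeroAt (shiftT R κ) f
  orth : δ = κ ∨ ∀ c k, hin (f (0, c)) (f (cx k)) = 0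
  pos : 0 < μ₁
  low : ∀ x : Bool × (Fin 2 × Bool) → ℂ, μ₁ * ∑ s, ‖x s‖ ^ 2 ≤ -mixForm (shiftT R δ) f x
  upp : ∀ x : Bool × (Fin 2 × Bool) → ℂ, -mixForm (shiftT R δ) f x ≤ μ₂ * ∑ s, ‖x s‖ ^ 2
  off : μ₂ ≤ μ₁ ∨ ∃ r : ℝ, 0 ≤ r ∧ 2 * r ≤ 5 * μ₁ - 3 * μ₂ ∧ OffAt (shiftT R δ) f r

lemma hin_Mf (e : OrthonormalBasis (Fin 3 × Bool) ℝ V) (f : Fin 3 × Bool → V × V)
    (i k : Fin 3 × Bool) : ∑ a, Mf e f a i * conj (Mf e f a k) = hin (f i) (f k) := by
  have hin' : ∀ x y : V, inner ℝ x y = ∑ a, e.repr x a * e.repr y a := by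
    intro x y
    rw [← e.repr.inner_map_map x y, PiLp.inner_apply]
    refine Finset.sum_congr rfl fun a _ => ?_
    simp [mul_comm]
  apply Complex.ext
  · simp only [Complex.re_sum, hin, hin', ← Finset.sum_add_distrib]
    refine Finset.sum_congr rfl fun a _ => ?_
    simp only [Mf, Matrix.of_apply, co, Complex.mul_re, Complex.conj_re, Complex.conj_im]
    ring
  · simp only [Complex.im_sum, hin, hin', ← Finset.sum_sub_distrib]
    refine Finset.sum_congr rfl fun a _ => ?_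
    simp only [Mf, Matrix.of_apply, co, Complex.mul_im, Complex.conj_re, Complex.conj_im]
    ring

lemma sumIxC (F : Ix 2 → ℂ) : ∑ i, F i = F (0, false) + F (0, true) + ∑ k : K 2, F (em k) := by
  rw [Fintype.sum_prod_type (α₁ := Fin 3), Fin.sum_univ_succ, Fintype.sum_bool,
    add_comm (F (0, true))]
  congr 1
  rw [Fintype.sum_prod_type (α₁ := Fin 2)]
  rfl

/-- the unit tensor minus the square of the form of the plane -/
lemma block_orth (M : Matrix (Ix 2) (Ix 2) ℂ)
    (hM : ∀ c k, ∑ a, M a (0, c) * conj (M a (em k)) = 0) (z w : Ix 2 → ℂ) :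
    (qf UU (fun a => M a (0, false)) (fun a => M a (0, true))).re * ‖bl P0 z w‖ ^ 2 ≤
      (qf UU (M.mulVec z) (M.mulVec w)).re := by
  obtain ⟨pz, hpz⟩ : ∃ pz : (Ix 2 → ℂ) → Ix 2 → ℂ, ∀ z a, pz z a = z (0, false) * M a (0, false) +
    z (0, true) * M a (0, true) := ⟨fun z a => z (0, false) * M a (0, false) +
    z (0, true) * M a (0, true), fun _ _ => rfl⟩
  obtain ⟨cz, hcz⟩ : ∃ cz : (Ix 2 → ℂ) → Ix 2 → ℂ, ∀ z a, cz z a = ∑ k : K 2,
    z (em k) * M a (em k) := ⟨fun z a => ∑ k : K 2, z (em k) * M a (em k), fun _ _ => rfl⟩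
  have hsplit : ∀ z, M.mulVec z = fun a => pz z a + cz z a := by
    intro z
    funext a
    unfold Matrix.mulVec dotProduct
    rw [sumIxC, hpz, hcz]
    congr 1
    · ring
    · exact Finset.sum_congr rfl fun k _ => by ring
  have horth : ∀ z w, ∑ a, pz z a * conj (cz w a) = 0 := by
    intro z w
    have h1 : ∀ a, pz z a * conj (cz w a) = ∑ k : K 2, (z (0, false) * conj (w (em k)) *
        (M a (0, false) * conj (M a (em k))) + z (0, true) * conj (w (em k)) *
        (M a (0, true) * conj (M a (em k)))) := by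
      intro a
      rw [hpz, hcz, map_sum, Finset.mul_sum]
      refine Finset.sum_congr rfl fun k _ => ?_
      rw [map_mul]
      ring
    simp only [h1]
    rw [Finset.sum_comm]
    refine Finset.sum_eq_zero fun k _ => ?_
    rw [Finset.sum_add_distrib, ← Finset.mul_sum, ← Finset.mul_sum, hM, hM]
    ring
  have horth' : ∀ z w, ∑ a, cz z a * conj (pz w a) = 0 := by
    intro z w
    have := congrArg conj (horth w z)
    rw [map_sum, map_zero] at this
    rw [← this]
    exact Finset.sum_congr rfl fun k _ => by rw [map_mul, Complex.conj_conj, mul_comm]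
  rw [hsplit z, hsplit w]
  refine le_trans (le_of_eq ?_) (gram_proj (pz z) (pz w) (cz z) (cz w) (horth z z) (horth w w)
    (horth z w) (horth' z w))
  have h1 := Pool.Agent.TH367.J4006.qf_UU (pz z) (pz w)
  have h2 := Pool.Agent.TH367.J4006.qf_UU (fun a => M a (0, false)) (fun a => M a (0, true))
  have h3 : ∀ i j, ‖pz z i * pz w j - pz z j * pz w i‖ ^ 2 = ‖bl P0 z w‖ ^ 2 *
      ‖M i (0, false) * M j (0, true) - M j (0, false) * M i (0, true)‖ ^ 2 := by
    intro i j
    rw [← mul_pow, ← norm_mul, bl_P0, hpz, hpz, hpz, hpz]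
    congr 2
    ring
  simp only [h3, ← Finset.mul_sum] at h1
  rw [← h2] at h1
  linarith

/-- **Pinched case, pointwise.** -/
theorem pointPin (e : OrthonormalBasis (Fin 3 × Bool) ℝ V) {R : V → V → V → V → ℝ}
    (hR : AlgCurv R) {κ : ℝ} (hC : CxNonpos (shiftT R κ))
    {f : Fin 3 × Bool → V × V} {δ μ₁ μ₂ : ℝ} (hf : PinAt R f κ δ μ₁ μ₂) :
    roundGB 3 δ ≤ (-1) ^ 3 * gbc e R := by
  have hT := shift_curv hR κ
  have hD := shift_curv hR δ
  have hUHS : HS (UU (I := Ix 2)) := Pool.Agent.TH541.J3422.II_HS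
  have hUBp : Bp UU := fun z w => Pool.Agent.TH541.J3422.qf_II z w
  obtain ⟨M, hM⟩ : ∃ M, M = Mf e f := ⟨_, rfl⟩
  have hdet : M.det ≠ 0 := by rw [hM]; exact Mf_det e hf.indep
  have hκδ : 0 ≤ κ - δ := by linarith [hf.le]
  -- the shifted tensors
  have hGδ : Kc e (shiftT R δ) = fun i j k l => Kc e (shiftT R κ) i j k l +
      ((κ - δ : ℝ) : ℂ) * UU i j k l := by
    funext i j k l
    have h1 := congrFun (congrFun (congrFun (congrFun (Kc_shift e R κ) i) j) k) l
    have h2 := congrFun (congrFun (congrFun (congrFun (Kc_shift e R δ) i) j) k) l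
    rw [← h2] at h1
    push_cast
    linear_combination -h1
  have hGδBp : Bp (Kc e (shiftT R δ)) := by
    rw [hGδ]
    exact Bp_add (Kc_Bp e hT hC) hUBp (κ - δ) hκδ
  have hGδHS : HS (Kc e (shiftT R δ)) := Kc_HS e hD
  obtain ⟨g, hg⟩ : ∃ g : ℝ, g = (qf UU (fun a => M a (0, false)) (fun a => M a (0, true))).re :=
    ⟨_, rfl⟩
  have hg0 : 0 ≤ g := by rw [hg]; exact hUBp _ _
  have hgc : Hc M UU (0, false) (0, true) (0, false) (0, true) = ((g : ℝ) : ℂ) := by
    have h1 : Hc M UU (0, false) (0, true) (0, false) (0, true) =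
        qf UU (fun a => M a (0, false)) (fun a => M a (0, true)) := by
      unfold Hc qf
      refine Finset.sum_congr rfl fun a _ => Finset.sum_congr rfl fun b _ =>
        Finset.sum_congr rfl fun c _ => Finset.sum_congr rfl fun d _ => by ring
    have h2 := (Hc_HS M hUHS).herm (0, false) (0, true) (0, false) (0, true)
    have h3 := Complex.conj_eq_iff_real.1 h2.symm
    obtain ⟨x, hx⟩ := h3
    rw [hx]
    rw [hx] at h1
    rw [hg, ← h1, Complex.ofReal_re]
  obtain ⟨H, hH⟩ : ∃ H : Ix 2 → Ix 2 → Ix 2 → Ix 2 → ℂ, ∀ i j k l, H i j k l =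
    Hc M (Kc e (shiftT R δ)) i j k l - (((κ - δ) * g : ℝ) : ℂ) * (P0 i j * P0 k l) :=
    ⟨_, fun _ _ _ _ => rfl⟩
  have hP0P : P0 (0, false) (0, true) = 1 := by
    unfold P0 ot
    simp [ev_0]
  have hP0m : ∀ (c : Bool) (k : K 2), P0 (0, c) (em k) = 0 := by
    intro c k
    unfold P0 ot
    simp [ev_em]
  have hP0c : ∀ k l : K 2, P0 (em k) (em l) = 0 := by
    intro k l
    unfold P0 ot
    simp [ev_em]
  have hHs : ∀ i j k l, Hc M (Kc e (shiftT R δ)) i j k l =
      Hc M (Kc e (shiftT R κ)) i j k l + ((κ - δ : ℝ) : ℂ) * Hc M UU i j k l := by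
    intro i j k l
    rw [hGδ]
    have h3 := Hc_add M (Kc e (shiftT R κ)) UU (-((κ - δ : ℝ) : ℂ)) i j k l
    simp only [neg_mul, sub_neg_eq_add] at h3
    exact h3
  have hHS : HS H := by
    have h1 := Hc_HS M hGδHS
    constructor
    · intro i j k l
      rw [hH, hH, map_sub, map_mul, map_mul, Complex.conj_ofReal, P0_conj, P0_conj, h1.herm]
      ring
    · intro i j k l
      rw [hH, hH, h1.alt]
      unfold P0 ot
      ring
  have hHBp : Bp H := by
    intro z w
    have h1 : qf H z w = qf (Hc M (Kc e (shiftT R δ))) z w -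
        (((κ - δ) * g : ℝ) : ℂ) * (bl P0 z w * conj (bl P0 z w)) := by
      rw [← qf_sqf P0 z w]
      unfold qf sqf
      simp only [hH, P0_conj, sub_mul, Finset.sum_sub_distrib, Finset.mul_sum]
      congr 1
      refine Finset.sum_congr rfl fun a _ => Finset.sum_congr rfl fun b _ =>
        Finset.sum_congr rfl fun c _ => Finset.sum_congr rfl fun d _ => by ring
    rw [h1, Complex.sub_re, Complex.re_ofReal_mul, Complex.mul_conj, Complex.ofReal_re,
      Complex.normSq_eq_norm_sq, qf_Hc]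
    rcases hf.orth with h2 | h2
    · have h3 := hGδBp (M.mulVec z) (M.mulVec w)
      rw [← h2, sub_self, zero_mul, zero_mul, sub_zero]
      exact h3
    · have h20 : ∀ (c : Bool) (k : K 2), ∑ a, M a (0, c) * conj (M a (em k)) = 0 := by
        intro c k
        rw [hM]
        have h21 := hin_Mf e f (0, c) (em k)
        rw [h21]
        exact h2 c k
      have h3 := block_orth M h20 z w
      rw [← hg] at h3
      have h4 := Kc_Bp e hT hC (M.mulVec z) (M.mulVec w)
      have h5 : (qf (Kc e (shiftT R δ)) (M.mulVec z) (M.mulVec w)).re =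
          (qf (Kc e (shiftT R κ)) (M.mulVec z) (M.mulVec w)).re +
          (κ - δ) * (qf UU (M.mulVec z) (M.mulVec w)).re := by
        rw [hGδ, qf_lin, Complex.add_re, Complex.re_ofReal_mul]
      rw [h5]
      have h6 := mul_le_mul_of_nonneg_left h3 hκδ
      nlinarith
  have hH0 : H (0, false) (0, true) (0, false) (0, true) = 0 := by
    have h1 : Hc M (Kc e (shiftT R κ)) (0, false) (0, true) (0, false) (0, true) = 0 := by
      rw [hM, Hc_Kc e hT, hf.zero, neg_zero]
    rw [hH, hHs, h1, hgc, hP0P]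
    push_cast
    ring
  have hbm : ∀ x : S → ℂ, MM (bm H) x = -mixForm (shiftT R δ) f x := by
    intro x
    rw [← MM_mix e hD]
    unfold MM
    congr 1
    refine Finset.sum_congr rfl fun s _ => Finset.sum_congr rfl fun t _ => ?_
    unfold bm
    rw [hH, hP0m, hM]
    ring
  have hbc : ∀ x y : K 2 → ℂ, bi (bc H) x y = -offForm (shiftT R δ) f x y := by
    intro x y
    rw [← bi_off e hD]
    unfold bi
    refine Finset.sum_congr rfl fun q _ => ?_
    unfold bc
    rw [hH, hP0c, hM]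
    ring
  have key := pinned' hHS hHBp hH0 μ₁ μ₂ hf.pos (fun x => by rw [hbm]; exact hf.low x)
    (fun x => by rw [hbm]; exact hf.upp x) (by
      rcases hf.off with h1 | ⟨r, h1, h2, h3⟩
      · exact Or.inl h1
      · refine Or.inr ⟨r, h1, h2, fun x y => ?_⟩
        rw [hbc, norm_neg]
        exact h3 x y)
  have k1 := mono_P0 hHS hHBp ((κ - δ) * g) (mul_nonneg hκδ hg0)
  have k2 : (fun i j k l => H i j k l + (((κ - δ) * g : ℝ) : ℂ) * (P0 i j * P0 k l)) =
      Hc M (Kc e (shiftT R δ)) := by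
    funext i j k l
    rw [hH]
    ring
  rw [k2] at k1
  have k3 := GG_Hc hdet _ (key.trans k1)
  have k4 := addU hGδHS hGδBp δ hf.nonneg
  rw [Kc_shift] at k4
  exact toGB e R δ (by linarith)

end

end Pool.Agent.H85.FL
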