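import Pool.Agent.H85.Flat.Geo2

/-!
# The integrated forms
-/

set_option autoImplicit false
set_option linter.unusedSimpArgs false

namespace Pool.Agent.H85.FL

open Finset MeasureTheory Module
open Pool.Agent.W666.GB Pool.Agent.TH598.GV Pool.Agent.R735.HA Pool.Agent.N256.UR
open scoped ComplexConjugate ComplexOrder

variable {M : Type} [MeasurableSpace M]

/-- the integrated form of a pointwise bound -/
theorem fieldBd (μ : Measure M) (K : CurvField 3 M) (δ : M → ℝ)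
    (h : ∀ p, 0 ≤ δ p ∧ roundGB 3 (δ p) ≤ (-1) ^ 3 * K.gb p) :
    0 ≤ (-1) ^ 3 * ∫ p, K.gb p ∂μ ∧
    (Integrable K.gb μ → Integrable (fun p => roundGB 3 (δ p)) μ →
      ∫ p, roundGB 3 (δ p) ∂μ ≤ (-1) ^ 3 * ∫ p, K.gb p ∂μ) ∧
    (Integrable K.gb μ → μ {p | 0 < δ p} ≠ 0 → 0 < (-1) ^ 3 * ∫ p, K.gb p ∂μ) := by
  have h1 : ∀ p, 0 ≤ (-1) ^ 3 * K.gb p := fun p =>
    (roundGB_nonneg' 3 (h p).1).trans (h p).2
  refine ⟨?_, fun hi hi' => ?_, fun hi hμ => ?_⟩
  · rw [← integral_const_mul]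
    exact integral_nonneg h1
  · rw [← integral_const_mul]
    exact integral_mono hi' (hi.const_mul _) fun p => (h p).2
  · rw [← integral_const_mul, integral_pos_iff_support_of_nonneg h1 (hi.const_mul _)]
    refine lt_of_lt_of_le (pos_iff_ne_zero.2 hμ) (measure_mono ?_)
    intro p hp
    exact ((roundGB_pos' 3 hp).trans_le (h p).2).ne'

end Pool.Agent.H85.FL
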