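import Pool.Agent.H85.Flat.Gauge

/-!
# Adding squares of decomposable two-forms
-/

set_option autoImplicit false
set_option linter.unusedSimpArgs false

namespace Pool.Agent.H85.FL

open Finset MeasureTheory Pool.Agent.TH598.GV Pool.Agent.R735.HA
open scoped ComplexConjugate ComplexOrder
open Pool.Agent.TH263.J4005 (sl W_sl prod_add_unique prod_slot GM_slot slot0 e1_ne)

/-- the expansion in the slots -/
lemma expand1 {k : ℕ} (H : Ix k → Ix k → Ix k → Ix k → ℂ) (t : ℂ) :
    GG (fun i j i' j' => H i j i' j' + t * (W e1 i j * W e1 i' j')) = GG H + t * (k + 1) *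
      Pool.Agent.TH263.J4005.GM (B := Fin (k + 1))
        (Fin.cons (fun i j i' j' => W e1 i j * W e1 i' j') (fun _ => H)) := by
  obtain ⟨G, hG⟩ : ∃ G : Ix k → Ix k → Ix k → Ix k → ℂ, G = fun i j i' j' =>
    W e1 i j * W e1 i' j' := ⟨_, rfl⟩
  have hGe : ∀ i j i' j', W e1 i j * W e1 i' j' = G i j i' j' := fun i j i' j' => by rw [hG]
  rw [← hG]
  simp only [hGe]
  have hGsl : ∀ {σ : Equiv.Perm (Ix k)} {b : Fin (k + 1)}, b ≠ sl σ → ∀ i' j',
      G (σ (b, false)) (σ (b, true)) i' j' = 0 := by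
    intro σ b h i' j'
    rw [hG]
    simp only [W_sl h, zero_mul]
  have h1 : GG (fun i j i' j' => H i j i' j' + t * G i j i' j') = GG H + t *
      ∑ b : Fin (k + 1),
        Pool.Agent.TH263.J4005.GM (B := Fin (k + 1)) (fun b' => if b' = b then G else H) := by
    have h3 : ∑ b : Fin (k + 1),
        Pool.Agent.TH263.J4005.GM (B := Fin (k + 1)) (fun b' => if b' = b then G else H) =
        ∑ σ : Equiv.Perm (Ix k), ∑ τ : Equiv.Perm (Ix k), ∑ b : Fin (k + 1), cs σ * cs τ *
          ∏ b' : Fin (k + 1), (if b' = b then G else H)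
            (σ (b', false)) (σ (b', true)) (τ (b', false)) (τ (b', true)) := by
      unfold Pool.Agent.TH263.J4005.GM
      rw [Finset.sum_comm]
      refine Finset.sum_congr rfl fun σ _ => ?_
      rw [Finset.sum_comm]
    rw [h3]
    unfold GG
    rw [Finset.mul_sum, ← Finset.sum_add_distrib]
    refine Finset.sum_congr rfl fun σ _ => ?_
    rw [Finset.mul_sum, ← Finset.sum_add_distrib]
    refine Finset.sum_congr rfl fun τ _ => ?_
    rw [prod_add_unique (fun b : Fin (k + 1) =>
        H (σ (b, false)) (σ (b, true)) (τ (b, false)) (τ (b, true)))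
      (fun b : Fin (k + 1) =>
        t * G (σ (b, false)) (σ (b, true)) (τ (b, false)) (τ (b, true))) (sl σ)
      (fun b hb => by rw [hGsl hb, mul_zero]), mul_add, Finset.mul_sum, Finset.mul_sum]
    congr 1
    refine Finset.sum_congr rfl fun b _ => ?_
    have h4 : ∏ b' : Fin (k + 1), (if b' = b then G else H)
            (σ (b', false)) (σ (b', true)) (τ (b', false)) (τ (b', true)) =
        G (σ (b, false)) (σ (b, true)) (τ (b, false)) (τ (b, true)) *
          ∏ b' ∈ univ.erase b,
            H (σ (b', false)) (σ (b', true)) (τ (b', false)) (τ (b', true)) := by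
      rw [← prod_slot (fun b => G (σ (b, false)) (σ (b, true)) (τ (b, false)) (τ (b, true)))
        (fun b => H (σ (b, false)) (σ (b, true)) (τ (b, false)) (τ (b, true)))]
      refine Finset.prod_congr rfl fun b' _ => ?_
      split_ifs <;> rfl
    rw [h4]
    ring
  rw [h1, Finset.sum_congr rfl fun b _ => GM_slot G H b, Finset.sum_const,
    Finset.card_univ, Fintype.card_fin, nsmul_eq_mul]
  push_cast
  ring

/-- the square of the form of the plane -/
lemma add_P0 (H : Ix 2 → Ix 2 → Ix 2 → Ix 2 → ℂ) (t : ℂ) :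
    GG (fun i j i' j' => H i j i' j' + t * (W e1 i j * W e1 i' j')) = GG H + t * 12 *
      GG (fun a b a' b' : K 2 => H (em a) (em b) (em a') (em b')) := by
  rw [expand1]
  have h : Pool.Agent.TH263.J4005.GM (B := Fin (2 + 1))
      (Fin.cons (fun i j i' j' => W e1 i j * W e1 i' j') (fun _ => H)) =
      4 * GG (fun a b a' b' : K 2 => H (em a) (em b) (em a') (em b')) := by
    have h1 := slot0 H (e1_ne (k := 2))
    have h2 : ∀ a : K 2, cp (e1 : Ix 2) a = em a := by
      intro a
      unfold cp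
      rw [Equiv.swap_self]
      rfl
    simp only [h2] at h1
    rw [← h1]
    unfold Pool.Agent.TH263.J4005.GM
    refine Finset.sum_congr rfl fun σ _ => Finset.sum_congr rfl fun τ _ => ?_
    rw [Fin.prod_univ_succ]
    simp only [Fin.cons_zero, Fin.cons_succ]
    rfl
  rw [h]
  push_cast
  ring

lemma W_P0 (i j : Ix 2) : W e1 i j = P0 i j := by
  unfold W P0 ot ev e0 e1
  ring

/-- bp: nonnegative on decomposable bivectors -/
def Bp (H : Ix 2 → Ix 2 → Ix 2 → Ix 2 → ℂ) : Prop := ∀ z w : Ix 2 → ℂ, 0 ≤ (qf H z w).re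

lemma mono_P0 {H : Ix 2 → Ix 2 → Ix 2 → Ix 2 → ℂ} (hH : HS H) (hK : Bp H) (t : ℝ)
    (ht : 0 ≤ t) : (GG H).re ≤
      (GG (fun i j i' j' => H i j i' j' + (t : ℂ) * (P0 i j * P0 i' j'))).re := by
  have h1 := add_P0 H (t : ℂ)
  simp only [W_P0] at h1
  rw [h1]
  have h2 : HS (fun a b a' b' : K 2 => H (em a) (em b) (em a') (em b')) :=
    ⟨fun _ _ _ _ => hH.herm _ _ _ _, fun _ _ _ _ => hH.alt _ _ _ _⟩
  have h3 := four _ h2 0 (le_refl 0) (fun z w => by
    have h4 := hK (Pool.Agent.TH367.J4006.xt em z) (Pool.Agent.TH367.J4006.xt em w)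
    rw [Pool.Agent.TH367.J4006.qf_xt] at h4
    rw [zero_mul]
    exact h4)
  have h5 : (t : ℂ) * 12 = ((t * 12 : ℝ) : ℂ) := by push_cast; ring
  rw [h5, Complex.add_re, Complex.re_ofReal_mul]
  have h6 : 0 ≤ (GG (fun a b a' b' : K 2 => H (em a) (em b) (em a') (em b'))).re := by
    simpa using h3
  have := mul_nonneg (mul_nonneg ht (by norm_num : (0 : ℝ) ≤ 12)) h6
  linarith

/-- the square of a two-form -/
noncomputable def sqf (α : Ix 2 → Ix 2 → ℂ) : Ix 2 → Ix 2 → Ix 2 → Ix 2 → ℂ :=
  fun i j i' j' => α i j * conj (α i' j')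

lemma sqf_HS (f g : Ix 2 → ℂ) (c : ℝ) : HS (fun i j i' j' => (c : ℂ) * sqf (ot f g) i j i' j') := by
  constructor
  · intro i j k l
    unfold sqf
    simp only [map_mul, Complex.conj_ofReal, Complex.conj_conj]
    ring
  · intro i j k l
    unfold sqf ot
    ring

lemma qf_sqf (α : Ix 2 → Ix 2 → ℂ) (z w : Ix 2 → ℂ) :
    qf (sqf α) z w = bl α z w * conj (bl α z w) := by
  have h := qf_rank (A := Unit) (fun _ => (1 : ℂ)) (fun _ => α) (fun _ => α) z w
  simp only [Finset.univ_unique, Finset.sum_singleton, one_mul] at h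
  exact h

lemma sqf_Bp (α : Ix 2 → Ix 2 → ℂ) : Bp (sqf α) := by
  intro z w
  rw [qf_sqf, Complex.mul_conj, Complex.ofReal_re]
  exact Complex.normSq_nonneg _

lemma qf_lin {I : Type} [Fintype I] (H G : I → I → I → I → ℂ) (c : ℂ) (z w : I → ℂ) :
    qf (fun i j k l => H i j k l + c * G i j k l) z w = qf H z w + c * qf G z w := by
  unfold qf
  simp only [add_mul, Finset.sum_add_distrib, Finset.mul_sum]
  congr 1
  refine Finset.sum_congr rfl fun i _ => Finset.sum_congr rfl fun j _ =>
    Finset.sum_congr rfl fun k _ => Finset.sum_congr rfl fun l _ => by ring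

lemma Bp_add {H G : Ix 2 → Ix 2 → Ix 2 → Ix 2 → ℂ} (hH : Bp H) (hG : Bp G) (c : ℝ)
    (hc : 0 ≤ c) : Bp (fun i j k l => H i j k l + (c : ℂ) * G i j k l) := by
  intro z w
  rw [qf_lin, Complex.add_re, Complex.re_ofReal_mul]
  exact add_nonneg (hH z w) (mul_nonneg hc (hG z w))

lemma HS_add {H G : Ix 2 → Ix 2 → Ix 2 → Ix 2 → ℂ} (hH : HS H) (hG : HS G) (c : ℝ) :
    HS (fun i j k l => H i j k l + (c : ℂ) * G i j k l) := by
  constructor
  · intro i j k l
    simp only [map_add, map_mul, Complex.conj_ofReal]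
    rw [hH.herm, hG.herm]
  · intro i j k l
    rw [hH.alt, hG.alt]
    ring

lemma sqf_HS' (f g : Ix 2 → ℂ) : HS (sqf (ot f g)) := by
  constructor
  · intro i j k l
    unfold sqf
    simp only [map_mul, Complex.conj_conj]
    ring
  · intro i j k l
    unfold sqf ot
    ring

lemma unit_det {M : Matrix (Ix 2) (Ix 2) ℂ}
    (hM : ∀ i k, ∑ a, M a i * conj (M a k) = if i = k then 1 else 0) :
    M.det * conj M.det = 1 := by
  have h1 : M.transpose * M.map conj = 1 := by
    ext i k
    rw [Matrix.mul_apply, Matrix.one_apply, ← hM i k]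
    rfl
  have h2 := congrArg Matrix.det h1
  rw [Matrix.det_mul, Matrix.det_transpose, Matrix.det_one] at h2
  have h5 : (M.map conj).det = conj M.det := by
    rw [RingHom.map_det]
    rfl
  rw [h5] at h2
  exact h2

/-- **Adding the square of a decomposable two-form.** -/
theorem mono {H : Ix 2 → Ix 2 → Ix 2 → Ix 2 → ℂ} (hH : HS H) (hK : Bp H) (f g : Ix 2 → ℂ)
    (t : ℝ) (ht : 0 ≤ t) : (GG H).re ≤
      (GG (fun i j i' j' => H i j i' j' + (t : ℂ) * sqf (ot f g) i j i' j')).re := by
  by_cases hfg : ∃ i j, f i * g j - f j * g i ≠ 0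
  · obtain ⟨U, hU, c, hc⟩ := frame f g hfg
    have hc0 : c ≠ 0 := by
      rintro rfl
      have h1 : ∑ a, ∑ b, (U a (0, false) * U b (0, true) - U b (0, false) * U a (0, true)) *
          (conj (U a (0, false)) * conj (U b (0, true))) = 0 := by
        refine Finset.sum_eq_zero fun a _ => Finset.sum_eq_zero fun b _ => ?_
        rw [hc]
        ring
      have h2 : ∑ a, ∑ b, (U a (0, false) * U b (0, true) - U b (0, false) * U a (0, true)) *
          (conj (U a (0, false)) * conj (U b (0, true))) =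
          (∑ a, U a (0, false) * conj (U a (0, false))) *
            (∑ b, U b (0, true) * conj (U b (0, true))) -
          (∑ a, U a (0, true) * conj (U a (0, false))) *
            (∑ b, U b (0, false) * conj (U b (0, true))) := by
        rw [Finset.sum_mul_sum, Finset.sum_mul_sum, ← Finset.sum_sub_distrib]
        refine Finset.sum_congr rfl fun a _ => ?_
        rw [← Finset.sum_sub_distrib]
        exact Finset.sum_congr rfl fun b _ => by ring
      rw [h1, hU, hU, hU, hU] at h2
      simp at h2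
    -- the matrix
    obtain ⟨M, hM⟩ : ∃ M : Matrix (Ix 2) (Ix 2) ℂ, ∀ a i, M a i = conj (U a i) :=
      ⟨fun a i => conj (U a i), fun _ _ => rfl⟩
    have hM1 : ∀ i k, ∑ a, M a i * conj (M a k) = if i = k then 1 else 0 := by
      intro i k
      have h1 := congrArg conj (hU i k)
      rw [map_sum] at h1
      simp only [map_mul, Complex.conj_conj] at h1
      simp only [hM, Complex.conj_conj]
      rw [h1]
      split_ifs <;> simp
    have hsq : ∀ i j k l, Hc M (sqf (ot f g)) i j k l =
        ((‖c⁻¹‖ ^ 2 : ℝ) : ℂ) * (P0 i j * P0 k l) := by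
      intro i j k l
      have h1 : ∀ i j, ∑ a, ∑ b, ot f g a b * (M a i * M b j) = c⁻¹ * P0 i j := by
        intro i j
        have h2 : ∀ a b, ot f g a b = c⁻¹ * (U a (0, false) * U b (0, true) -
            U b (0, false) * U a (0, true)) := by
          intro a b
          rw [hc, ← mul_assoc, inv_mul_cancel₀ hc0, one_mul]
          rfl
        have h3 : ∀ k, ∑ a, U a k * M a i = if k = i then 1 else 0 := by
          intro k
          rw [← hU k i]
          exact Finset.sum_congr rfl fun a _ => by rw [hM]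
        have h4 : ∀ k, ∑ a, U a k * M a j = if k = j then 1 else 0 := by
          intro k
          rw [← hU k j]
          exact Finset.sum_congr rfl fun a _ => by rw [hM]
        have h5 : ∑ a, ∑ b, ot f g a b * (M a i * M b j) =
            c⁻¹ * ((∑ a, U a (0, false) * M a i) * (∑ b, U b (0, true) * M b j) -
              (∑ a, U a (0, true) * M a i) * (∑ b, U b (0, false) * M b j)) := by
          rw [Finset.sum_mul_sum, Finset.sum_mul_sum, ← Finset.sum_sub_distrib, Finset.mul_sum]
          refine Finset.sum_congr rfl fun a _ => ?_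
          rw [← Finset.sum_sub_distrib, Finset.mul_sum]
          refine Finset.sum_congr rfl fun b _ => ?_
          rw [h2]
          ring
        rw [h5, h3, h3, h4, h4]
        unfold P0 ot ev
        simp only [eq_comm (b := i), eq_comm (b := j)]
        ring
      have h2 : Hc M (sqf (ot f g)) i j k l = (∑ a, ∑ b, ot f g a b * (M a i * M b j)) *
          conj (∑ a, ∑ b, ot f g a b * (M a k * M b l)) := by
        simp only [map_sum, map_mul]
        rw [← Pool.Agent.TH367.J4006.mul4]
        unfold Hc sqf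
        refine Finset.sum_congr rfl fun a _ => Finset.sum_congr rfl fun b _ =>
          Finset.sum_congr rfl fun c _ => Finset.sum_congr rfl fun d _ => by ring
      rw [h2, h1, h1, map_mul, P0_conj, nsq]
      ring
    have hdet := unit_det hM1
    have h1 := mono_P0 (Hc_HS M hH) (fun z w => by rw [qf_Hc]; exact hK _ _) (t * ‖c⁻¹‖ ^ 2)
      (by positivity)
    have h2 : (fun i j i' j' => Hc M H i j i' j' + ((t * ‖c⁻¹‖ ^ 2 : ℝ) : ℂ) *
        (P0 i j * P0 i' j')) = Hc M (fun i j i' j' => H i j i' j' + (t : ℂ) *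
          sqf (ot f g) i j i' j') := by
      funext i j k l
      have h3 := Hc_add M H (sqf (ot f g)) (-(t : ℂ)) i j k l
      simp only [neg_mul, sub_neg_eq_add] at h3
      rw [h3, hsq]
      push_cast
      ring
    rw [h2, GG_trans (B := Fin (2 + 1)), GG_trans (B := Fin (2 + 1)), hdet, one_mul, one_mul] at h1
    exact h1
  · push Not at hfg
    have h1 : (fun i j i' j' => H i j i' j' + (t : ℂ) * sqf (ot f g) i j i' j') = H := by
      funext i j k l
      unfold sqf
      rw [show ot f g i j = 0 from hfg i j]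
      ring
    rw [h1]

/-- adding a finite sum of squares of decomposable two-forms -/
theorem mono_sum {A : Type} [DecidableEq A] (f g : A → Ix 2 → ℂ) (c : A → ℝ) (T : Finset A)
    (hc : ∀ a ∈ T, 0 ≤ c a) : ∀ {H : Ix 2 → Ix 2 → Ix 2 → Ix 2 → ℂ}, HS H → Bp H →
      (GG H).re ≤ (GG (fun i j i' j' => H i j i' j' +
        ∑ a ∈ T, (c a : ℂ) * sqf (ot (f a) (g a)) i j i' j')).re := by
  induction T using Finset.induction_on with
  | empty =>
    intro H _ _
    simp only [Finset.sum_empty, add_zero, le_refl]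
  | insert a T ha ih =>
    intro H hH hK
    have h1 := mono hH hK (f a) (g a) (c a) (hc a (Finset.mem_insert_self a T))
    have h2 := ih (fun b hb => hc b (Finset.mem_insert_of_mem hb))
      (HS_add hH (sqf_HS' (f a) (g a)) (c a))
      (Bp_add hK (sqf_Bp (ot (f a) (g a))) (c a) (hc a (Finset.mem_insert_self a T)))
    refine h1.trans (h2.trans (le_of_eq ?_))
    congr 2
    funext i j k l
    rw [Finset.sum_insert ha]
    ring

/-- the indicator of an index -/
noncomputable def di (a : Ix 2) : Ix 2 → ℂ := fun i => if i = a then 1 else 0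

lemma di_conj (a i : Ix 2) : conj (di a i) = di a i := by
  unfold di
  split_ifs <;> simp

lemma ot_conj {f g : Ix 2 → ℂ} (hf : ∀ i, conj (f i) = f i) (hg : ∀ i, conj (g i) = g i)
    (i j : Ix 2) : conj (ot f g i j) = ot f g i j := by
  unfold ot
  rw [map_sub, map_mul, map_mul, hf, hf, hg, hg]

lemma UU_U0 (i j i' j' : Ix 2) : UU i j i' j' = U0 i j i' j' +
    ∑ x ∈ (univ.filter fun x : Ix 2 × Ix 2 => x.1 ≠ e0 ∧ x.2 ≠ e0),
      ((1 / 2 : ℝ) : ℂ) * sqf (ot (di x.1) (di x.2)) i j i' j' := by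
  have hW : ∀ p, W p = ot (di e0) (di p) := by
    intro p
    funext i j
    unfold W ot di
    ring
  have h0 : ∀ x : Ix 2 × Ix 2, sqf (ot (di x.1) (di x.2)) i j i' j' =
      (if i = x.1 then 1 else 0) * (if j = x.2 then 1 else 0) * (if i' = x.1 then 1 else 0) *
        (if j' = x.2 then 1 else 0) -
      (if i = x.1 then 1 else 0) * (if j = x.2 then 1 else 0) * (if j' = x.1 then 1 else 0) *
        (if i' = x.2 then 1 else 0) -
      (if j = x.1 then 1 else 0) * (if i = x.2 then 1 else 0) * (if i' = x.1 then 1 else 0) *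
        (if j' = x.2 then 1 else 0) +
      (if j = x.1 then 1 else 0) * (if i = x.2 then 1 else 0) * (if j' = x.1 then 1 else 0) *
        (if i' = x.2 then 1 else 0) := by
    intro x
    unfold sqf
    rw [ot_conj (di_conj _) (di_conj _)]
    unfold ot di
    ring
  have hU0 : U0 i j i' j' = ∑ p, (if p = e0 then 0 else
      sqf (ot (di e0) (di p)) i j i' j') := by
    unfold U0
    refine Finset.sum_congr rfl fun p _ => ?_
    unfold sqf
    rw [ot_conj (di_conj _) (di_conj _), ← hW]
  -- the full sum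
  have hfull : ∑ x : Ix 2 × Ix 2, sqf (ot (di x.1) (di x.2)) i j i' j' = 2 * UU i j i' j' := by
    simp only [h0, Finset.sum_add_distrib, Finset.sum_sub_distrib]
    have hs : ∀ a b c d : Ix 2, ∑ x : Ix 2 × Ix 2, (if a = x.1 then (1 : ℂ) else 0) *
        (if b = x.2 then 1 else 0) * (if c = x.1 then 1 else 0) * (if d = x.2 then 1 else 0) =
        (if a = c then 1 else 0) * (if b = d then 1 else 0) := by
      intro a b c d
      rw [Fintype.sum_prod_type (α₁ := Ix 2), Finset.sum_eq_single a, Finset.sum_eq_single b]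
      · simp only [if_true, one_mul, eq_comm (a := c), eq_comm (a := d)]
      · intro y _ hy
        rw [if_neg (Ne.symm hy)]
        ring
      · simp
      · intro x _ hx
        refine Finset.sum_eq_zero fun y _ => ?_
        simp only [if_neg (Ne.symm hx)]
        ring
      · simp
    rw [hs, hs, hs, hs]
    unfold UU
    ring
  -- splitting the full sum
  have hsplit : ∑ x : Ix 2 × Ix 2, sqf (ot (di x.1) (di x.2)) i j i' j' =
      2 * U0 i j i' j' +
      ∑ x ∈ (univ.filter fun x : Ix 2 × Ix 2 => x.1 ≠ e0 ∧ x.2 ≠ e0),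
        sqf (ot (di x.1) (di x.2)) i j i' j' := by
    rw [Finset.sum_filter, hU0, Finset.mul_sum, Fintype.sum_prod_type (α₁ := Ix 2),
      Fintype.sum_prod_type (α₁ := Ix 2)]
    have hsym : ∀ p q, sqf (ot (di p) (di q)) i j i' j' = sqf (ot (di q) (di p)) i j i' j' := by
      intro p q
      have e : ∀ k l, ot (di p) (di q) k l = -ot (di q) (di p) k l := by
        intro k l
        unfold ot
        ring
      unfold sqf
      rw [e, e, map_neg]
      ring
    have hdiag : ∀ p, sqf (ot (di p) (di p)) i j i' j' = 0 := by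
      intro p
      unfold sqf ot
      ring
    have e1 : ∀ p q : Ix 2, sqf (ot (di p) (di q)) i j i' j' =
        (if p = e0 then (if q = e0 then 0 else sqf (ot (di e0) (di q)) i j i' j') else 0) +
        (if q = e0 then (if p = e0 then 0 else sqf (ot (di e0) (di p)) i j i' j') else 0) +
        (if p ≠ e0 ∧ q ≠ e0 then sqf (ot (di p) (di q)) i j i' j' else 0) := by
      intro p q
      by_cases hp : p = e0
      · by_cases hq : q = e0
        · rw [hp, hq, hdiag]
          simp
        · rw [hp]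
          simp [hq]
      · by_cases hq : q = e0
        · rw [hq, hsym]
          simp [hp]
        · simp [hp, hq]
    rw [Finset.sum_congr rfl fun p _ => Finset.sum_congr rfl fun q _ => e1 p q]
    simp only [Finset.sum_add_distrib]
    have e2 : ∑ p : Ix 2, ∑ q : Ix 2, (if p = e0 then (if q = e0 then 0 else
        sqf (ot (di e0) (di q)) i j i' j') else 0) = ∑ q : Ix 2, (if q = e0 then 0 else
          sqf (ot (di e0) (di q)) i j i' j') := by
      rw [Finset.sum_eq_single e0]
      · simp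
      · intro p _ hp
        simp [hp]
      · simp
    have e3 : ∑ p : Ix 2, ∑ q : Ix 2, (if q = e0 then (if p = e0 then 0 else
        sqf (ot (di e0) (di p)) i j i' j') else 0) = ∑ q : Ix 2, (if q = e0 then 0 else
          sqf (ot (di e0) (di q)) i j i' j') := by
      rw [Finset.sum_comm, e2]
    rw [e2, e3, ← Finset.sum_add_distrib, ← Finset.mul_sum]
    congr 1
    rw [Finset.mul_sum]
    refine Finset.sum_congr rfl fun q _ => ?_
    split_ifs <;> ring
  rw [← Finset.mul_sum]
  have h2 : (((1 / 2 : ℝ)) : ℂ) = 1 / 2 := by push_cast; ring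
  rw [h2]
  rw [hfull] at hsplit
  linear_combination (1 / 2 : ℂ) * hsplit

/-- **Adding a multiple of the unit tensor.** -/
theorem addU {H : Ix 2 → Ix 2 → Ix 2 → Ix 2 → ℂ} (hH : HS H) (hK : Bp H) (δ : ℝ) (hδ : 0 ≤ δ) :
    (GG H).re + 2 ^ 3 * ((2 * 3).factorial : ℝ) * δ ^ 3 ≤
      (GG (fun i j i' j' => H i j i' j' + (δ : ℂ) * UU i j i' j')).re := by
  obtain ⟨G, hG⟩ : ∃ G : Ix 2 → Ix 2 → Ix 2 → Ix 2 → ℂ, G = fun i j i' j' =>
    H i j i' j' + (δ : ℂ) * UU i j i' j' := ⟨_, rfl⟩
  rw [← hG]
  obtain ⟨T, hT⟩ : ∃ T : Finset (Ix 2 × Ix 2), T = univ.filter fun x : Ix 2 × Ix 2 =>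
    x.1 ≠ e0 ∧ x.2 ≠ e0 := ⟨_, rfl⟩
  obtain ⟨H1, hH1⟩ : ∃ H1 : Ix 2 → Ix 2 → Ix 2 → Ix 2 → ℂ, H1 = fun i j i' j' =>
    H i j i' j' + ∑ x ∈ T, ((δ * (1 / 2) : ℝ) : ℂ) * sqf (ot (di x.1) (di x.2)) i j i' j' :=
    ⟨_, rfl⟩
  have hUHS : HS (UU (I := Ix 2)) := Pool.Agent.TH541.J3422.II_HS
  have hGHS : HS G := by
    rw [hG]
    exact HS_add hH hUHS δ
  have hGH1 : ∀ i j i' j', G i j i' j' = H1 i j i' j' + (δ : ℂ) * U0 i j i' j' := by
    intro i j i' j'
    rw [hG, hH1]
    simp only []
    rw [UU_U0, ← hT, ← Finset.mul_sum, ← Finset.mul_sum]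
    push_cast
    ring
  have hHS1 : HS H1 := by
    constructor
    · intro i j i' j'
      have h1 := hGH1 i j i' j'
      have h2 := hGH1 i' j' i j
      have h3 := hGHS.herm i j i' j'
      have h4 := (Pool.Agent.TH367.J4006.U0_HS (k := 2)).herm i j i' j'
      rw [h1, h2, h4, map_add, map_mul, Complex.conj_ofReal] at h3
      exact add_right_cancel h3
    · intro i j i' j'
      have h1 := hGH1 i j i' j'
      have h2 := hGH1 j i i' j'
      have h3 := hGHS.alt i j i' j'
      have h4 := (Pool.Agent.TH367.J4006.U0_HS (k := 2)).alt i j i' j'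
      rw [h1, h2, h4] at h3
      linear_combination h3
  have hm : (GG H).re ≤ (GG H1).re := by
    rw [hH1]
    exact mono_sum (fun x : Ix 2 × Ix 2 => di x.1) (fun x => di x.2) (fun _ => δ * (1 / 2)) T
      (fun _ _ => by positivity) hH hK
  have hlap := Pool.Agent.TH263.J4005.laplace H1 hHS1 (δ : ℂ)
  have hback : (fun i j i' j' => H1 i j i' j' + (δ : ℂ) * U0 i j i' j') = G := by
    funext i j i' j'
    rw [hGH1]
  rw [hback] at hlap
  have hterm : ∀ p : Ix 2, p ≠ e0 → 2 ^ 2 * ((2 * 2).factorial : ℝ) * δ ^ 2 ≤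
      (GG (fun a b a' b' : K 2 => H1 (cp p a) (cp p b) (cp p a') (cp p b'))).re := by
    intro p hp
    have h0 : (fun a b a' b' : K 2 => H1 (cp p a) (cp p b) (cp p a') (cp p b')) =
        fun a b a' b' : K 2 => G (cp p a) (cp p b) (cp p a') (cp p b') := by
      funext a b a' b'
      rw [hGH1, Pool.Agent.TH367.J4006.U0_ne _ _ _ _ (Pool.Agent.TH367.J4006.cp_ne p hp a)
        (Pool.Agent.TH367.J4006.cp_ne p hp b)]
      ring
    rw [h0]
    have hHS2 : HS (fun a b a' b' : K 2 => G (cp p a) (cp p b) (cp p a') (cp p b')) :=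
      ⟨fun _ _ _ _ => hGHS.herm _ _ _ _, fun _ _ _ _ => hGHS.alt _ _ _ _⟩
    refine four _ hHS2 δ hδ ?_
    intro z w
    have h1 : δ * (qf UU (Pool.Agent.TH367.J4006.xt (cp p) z)
        (Pool.Agent.TH367.J4006.xt (cp p) w)).re ≤ (qf G (Pool.Agent.TH367.J4006.xt (cp p) z)
          (Pool.Agent.TH367.J4006.xt (cp p) w)).re := by
      rw [hG, qf_lin, Complex.add_re, Complex.re_ofReal_mul]
      have := hK (Pool.Agent.TH367.J4006.xt (cp p) z) (Pool.Agent.TH367.J4006.xt (cp p) w)
      linarith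
    rw [Pool.Agent.TH367.J4006.qf_xt, Pool.Agent.TH367.J4006.qf_xt,
      Pool.Agent.TH367.J4006.UU_inj (cp p) (fun a b h => Pool.Agent.TH367.J4006.cp_inj p h)] at h1
    exact h1
  have hcard : (univ.erase (e0 : Ix 2)).card = 5 := by
    rw [Finset.card_erase_of_mem (Finset.mem_univ _), Finset.card_univ, Fintype.card_prod,
      Fintype.card_fin, Fintype.card_bool]
  have hsum : (5 : ℝ) * (2 ^ 2 * ((2 * 2).factorial : ℝ) * δ ^ 2) ≤
      (∑ p : Ix 2, (if p = e0 then 0 else
        GG (fun a b a' b' : K 2 => H1 (cp p a) (cp p b) (cp p a') (cp p b')))).re := by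
    rw [Complex.re_sum, ← Finset.add_sum_erase _ _ (Finset.mem_univ (e0 : Ix 2)), if_pos rfl,
      Complex.zero_re, zero_add]
    have h5 : (5 : ℝ) = ((univ.erase (e0 : Ix 2)).card : ℝ) := by rw [hcard]; norm_num
    rw [h5, ← nsmul_eq_mul]
    refine Finset.card_nsmul_le_sum _ _ _ fun p hp => ?_
    have hp0 : p ≠ e0 := Finset.ne_of_mem_erase hp
    rw [if_neg hp0]
    exact hterm p hp0
  have hre : (GG G).re = (GG H1).re + δ * 12 *
      (∑ p : Ix 2, (if p = e0 then 0 else
        GG (fun a b a' b' : K 2 => H1 (cp p a) (cp p b) (cp p a') (cp p b')))).re := by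
    rw [hlap, Complex.add_re]
    congr 1
    have h1 : (δ : ℂ) * (4 * (((2 : ℕ) : ℂ) + 1)) = ((δ * 12 : ℝ) : ℂ) := by
      push_cast
      ring
    rw [h1, Complex.re_ofReal_mul]
  rw [hre]
  have hpos : 0 ≤ δ * 12 := by positivity
  have h5 := mul_le_mul_of_nonneg_left hsum hpos
  have h6 : 2 ^ 3 * ((2 * 3).factorial : ℝ) * δ ^ 3 =
      δ * 12 * (5 * (2 ^ 2 * ((2 * 2).factorial : ℝ) * δ ^ 2)) := by
    have e1 : ((2 * 3).factorial : ℝ) = 720 := by norm_num [Nat.factorial]
    have e2 : ((2 * 2).factorial : ℝ) = 24 := by norm_num [Nat.factorial]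
    rw [e1, e2]
    ring
  rw [h6]
  linarith

end Pool.Agent.H85.FL
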