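import Pool.Agent.H85.Flat.Mono

/-!
# Removing the plane-complement block
-/

set_option autoImplicit false
set_option linter.unusedSimpArgs false

namespace Pool.Agent.H85.FL

open Finset MeasureTheory Pool.Agent.TH598.GV Pool.Agent.R735.HA
open scoped ComplexConjugate ComplexOrder

/-- the operator norm -/
lemma op_bound {b : T6 → ℂ} (r : ℝ)
    (h : ∀ x y : K 2 → ℂ, ‖bi b x y‖ ^ 2 ≤ r ^ 2 * (sq x * sq y)) (x : K 2 → ℂ) :
    sq (fun m => ∑ l, conj (b (m, l)) * x l) ≤ r ^ 2 * sq x := by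
  obtain ⟨y, hy⟩ : ∃ y : K 2 → ℂ, y = fun m => ∑ l, conj (b (m, l)) * x l := ⟨_, rfl⟩
  rw [← hy]
  have h1 : bi b y (fun l => conj (x l)) = ((sq y : ℝ) : ℂ) := by
    rw [sq_c]
    unfold bi
    rw [Fintype.sum_prod_type (α₁ := K 2)]
    refine Finset.sum_congr rfl fun m _ => ?_
    have h2 : conj (y m) = ∑ l, b (m, l) * conj (x l) := by
      rw [hy]
      simp only [map_sum, map_mul, Complex.conj_conj]
    rw [h2, Finset.mul_sum]
    exact Finset.sum_congr rfl fun l _ => by ring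
  have h2 := h y (fun l => conj (x l))
  have e1 : sq (fun k => conj (x k)) = sq x := by
    unfold sq
    simp only [RCLike.norm_conj]
  rw [h1, e1, Complex.norm_real, Real.norm_eq_abs, sq_abs] at h2
  by_cases hy0 : sq y = 0
  · rw [hy0]
    exact mul_nonneg (by positivity) (sq_nonneg' x)
  · have h3 : 0 < sq y := lt_of_le_of_ne (sq_nonneg' y) (Ne.symm hy0)
    have h4 : sq y * sq y ≤ sq y * (r ^ 2 * sq x) := by
      calc sq y * sq y = sq y ^ 2 := by ring
        _ ≤ r ^ 2 * (sq y * sq x) := h2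
        _ = _ := by ring
    exact le_of_mul_le_mul_left h4 h3

/-- Bessel's inequality for two orthogonal vectors -/
lemma bessel {I : Type} [Fintype I] (z w : I → ℂ) (hz : 0 < sq z) (hw : 0 < sq w)
    (h : ∑ k, w k * conj (z k) = 0) (m : I) :
    ‖z m‖ ^ 2 / sq z + ‖w m‖ ^ 2 / sq w ≤ 1 := by
  obtain ⟨s, hs⟩ : ∃ s : ℝ, s = ‖z m‖ ^ 2 / sq z + ‖w m‖ ^ 2 / sq w := ⟨_, rfl⟩
  obtain ⟨p, hp⟩ : ∃ p : I → ℂ, p = fun k => conj (z m) / ((sq z : ℝ) : ℂ) * z k +
    conj (w m) / ((sq w : ℝ) : ℂ) * w k := ⟨_, rfl⟩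
  have hz0 : ((sq z : ℝ) : ℂ) ≠ 0 := by exact_mod_cast hz.ne'
  have hw0 : ((sq w : ℝ) : ℂ) ≠ 0 := by exact_mod_cast hw.ne'
  have hsc : ((s : ℝ) : ℂ) = z m * conj (z m) / ((sq z : ℝ) : ℂ) +
      w m * conj (w m) / ((sq w : ℝ) : ℂ) := by
    rw [hs]
    push_cast
    have e : ∀ z : ℂ, ((‖z‖ : ℝ) : ℂ) ^ 2 = z * conj z := by
      intro z
      rw [← nsq]
      push_cast
      rfl
    rw [e, e]
  have h1 : p m = ((s : ℝ) : ℂ) := by
    rw [hsc, hp]
    ring
  have h' : ∑ k, z k * conj (w k) = 0 := by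
    have := congrArg conj h
    rw [map_sum, map_zero] at this
    rw [← this]
    exact Finset.sum_congr rfl fun k _ => by rw [map_mul, Complex.conj_conj, mul_comm]
  have h2 : sq p = s := by
    have h3 : ((sq p : ℝ) : ℂ) = ((s : ℝ) : ℂ) := by
      rw [sq_c, hsc]
      have h4 : ∀ k, p k * conj (p k) =
          (conj (z m) / ((sq z : ℝ) : ℂ)) * (z m / ((sq z : ℝ) : ℂ)) * (z k * conj (z k)) +
          (conj (w m) / ((sq w : ℝ) : ℂ)) * (w m / ((sq w : ℝ) : ℂ)) * (w k * conj (w k)) +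
          (conj (z m) / ((sq z : ℝ) : ℂ)) * (w m / ((sq w : ℝ) : ℂ)) * (z k * conj (w k)) +
          (conj (w m) / ((sq w : ℝ) : ℂ)) * (z m / ((sq z : ℝ) : ℂ)) * (w k * conj (z k)) := by
        intro k
        rw [hp]
        simp only [map_add, map_mul, map_div₀, Complex.conj_conj, Complex.conj_ofReal]
        ring
      simp only [h4, Finset.sum_add_distrib, ← Finset.mul_sum]
      rw [h, h', ← sq_c, ← sq_c]
      field_simp
      ring
    exact_mod_cast h3
  have h3 : ‖p m‖ ^ 2 ≤ sq p := Finset.single_le_sum (f := fun i => ‖p i‖ ^ 2)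
    (fun i _ => by positivity) (Finset.mem_univ m)
  rw [h1, h2, Complex.norm_real, Real.norm_eq_abs, sq_abs] at h3
  have h4 : 0 ≤ s := by rw [hs]; positivity
  rw [← hs]
  by_contra hc
  push Not at hc
  nlinarith

/-- the bound for the complement block -/
lemma D_bound (β : K 2 → K 2 → ℂ) (r : ℝ)
    (h : ∀ x : K 2 → ℂ, sq (fun m => ∑ l, β m l * x l) ≤ r ^ 2 * sq x) (z w : K 2 → ℂ) :
    sq (fun m => z m * (∑ l, β m l * w l) - w m * (∑ l, β m l * z l)) ≤
      2 * r ^ 2 * ((1 / 2) * ∑ k, ∑ l, ‖z k * w l - z l * w k‖ ^ 2) := by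
  have hr2 : 0 ≤ r ^ 2 := by positivity
  have hpos : ∀ z w : K 2 → ℂ, 0 ≤ 2 * r ^ 2 * ((1 / 2) * ∑ k, ∑ l,
      ‖z k * w l - z l * w k‖ ^ 2) := by
    intro z w
    have : 0 ≤ ∑ k, ∑ l, ‖z k * w l - z l * w k‖ ^ 2 :=
      Finset.sum_nonneg fun _ _ => Finset.sum_nonneg fun _ _ => by positivity
    positivity
  -- the orthogonal case
  have orth : ∀ w : K 2 → ℂ, ∑ k, w k * conj (z k) = 0 →
      sq (fun m => z m * (∑ l, β m l * w l) - w m * (∑ l, β m l * z l)) ≤
      2 * r ^ 2 * (sq z * sq w) := by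
    intro w hw
    by_cases hz0 : sq z = 0
    · have h0 : ∀ i, z i = 0 := by
        intro i
        have := (Finset.sum_eq_zero_iff_of_nonneg (fun i _ => by positivity)).1 hz0 i
          (Finset.mem_univ i)
        simpa using this
      have h1 : sq (fun m => z m * (∑ l, β m l * w l) - w m * (∑ l, β m l * z l)) = 0 := by
        unfold sq
        simp [h0]
      rw [h1, hz0]
      simp
    by_cases hw0 : sq w = 0
    · have h0 : ∀ i, w i = 0 := by
        intro i
        have := (Finset.sum_eq_zero_iff_of_nonneg (fun i _ => by positivity)).1 hw0 i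
          (Finset.mem_univ i)
        simpa using this
      have h1 : sq (fun m => z m * (∑ l, β m l * w l) - w m * (∑ l, β m l * z l)) = 0 := by
        unfold sq
        simp [h0]
      rw [h1, hw0]
      simp
    have hzp : 0 < sq z := lt_of_le_of_ne (sq_nonneg' z) (Ne.symm hz0)
    have hwp : 0 < sq w := lt_of_le_of_ne (sq_nonneg' w) (Ne.symm hw0)
    have h1 : ∀ m, ‖z m * (∑ l, β m l * w l) - w m * (∑ l, β m l * z l)‖ ^ 2 ≤
        sq z * ‖∑ l, β m l * w l‖ ^ 2 + sq w * ‖∑ l, β m l * z l‖ ^ 2 := by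
      intro m
      have hb := bessel z w hzp hwp hw m
      have h2 : ‖z m * (∑ l, β m l * w l) - w m * (∑ l, β m l * z l)‖ ≤
          ‖z m‖ * ‖∑ l, β m l * w l‖ + ‖w m‖ * ‖∑ l, β m l * z l‖ := by
        refine (norm_sub_le _ _).trans ?_
        rw [norm_mul, norm_mul]
      obtain ⟨A, hA⟩ : ∃ A, A = ‖z m‖ := ⟨_, rfl⟩
      obtain ⟨B, hB⟩ : ∃ B, B = ‖w m‖ := ⟨_, rfl⟩
      obtain ⟨u, hu⟩ : ∃ u, u = ‖∑ l, β m l * w l‖ := ⟨_, rfl⟩
      obtain ⟨v, hv⟩ : ∃ v, v = ‖∑ l, β m l * z l‖ := ⟨_, rfl⟩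
      rw [← hA, ← hB] at hb
      rw [← hA, ← hB, ← hu, ← hv] at h2
      rw [← hu, ← hv]
      have h3 : (A * u + B * v) ^ 2 ≤ (A ^ 2 / sq z + B ^ 2 / sq w) *
          (sq z * u ^ 2 + sq w * v ^ 2) := by
        have h4 : (A ^ 2 / sq z + B ^ 2 / sq w) * (sq z * u ^ 2 + sq w * v ^ 2) -
            (A * u + B * v) ^ 2 = (A * v * sq w - B * u * sq z) ^ 2 / (sq z * sq w) := by
          field_simp
          ring
        have h5 : 0 ≤ (A * v * sq w - B * u * sq z) ^ 2 / (sq z * sq w) := by positivity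
        linarith
      have h4 : 0 ≤ sq z * u ^ 2 + sq w * v ^ 2 := by positivity
      have h5 := mul_le_mul_of_nonneg_right hb h4
      have h6 : ‖z m * (∑ l, β m l * w l) - w m * (∑ l, β m l * z l)‖ ^ 2 ≤
          (A * u + B * v) ^ 2 := pow_le_pow_left₀ (norm_nonneg _) h2 2
      linarith
    have h2 : sq (fun m => z m * (∑ l, β m l * w l) - w m * (∑ l, β m l * z l)) ≤
        sq z * sq (fun m => ∑ l, β m l * w l) + sq w * sq (fun m => ∑ l, β m l * z l) := by
      unfold sq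
      rw [Finset.mul_sum, Finset.mul_sum, ← Finset.sum_add_distrib]
      exact Finset.sum_le_sum fun m _ => h1 m
    have h3 := mul_le_mul_of_nonneg_left (h w) hzp.le
    have h4 := mul_le_mul_of_nonneg_left (h z) hwp.le
    nlinarith
  by_cases hz0 : sq z = 0
  · have h0 : ∀ i, z i = 0 := by
      intro i
      have := (Finset.sum_eq_zero_iff_of_nonneg (fun i _ => by positivity)).1 hz0 i
        (Finset.mem_univ i)
      simpa using this
    have h1 : sq (fun m => z m * (∑ l, β m l * w l) - w m * (∑ l, β m l * z l)) = 0 := by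
      unfold sq
      simp [h0]
    rw [h1]
    exact hpos z w
  obtain ⟨c, hc⟩ : ∃ c : ℂ, c = (∑ k, w k * conj (z k)) / ((sq z : ℝ) : ℂ) := ⟨_, rfl⟩
  have hz' : ((sq z : ℝ) : ℂ) ≠ 0 := by exact_mod_cast hz0
  have h4 : ∑ k, (w k - c * z k) * conj (z k) = 0 := by
    simp only [sub_mul, Finset.sum_sub_distrib]
    have : ∑ k, c * z k * conj (z k) = c * ((sq z : ℝ) : ℂ) := by
      rw [sq_c, Finset.mul_sum]
      exact Finset.sum_congr rfl fun k _ => by ring
    rw [this, hc, div_mul_cancel₀ _ hz', sub_self]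
  have h5 := orth (fun k => w k - c * z k) h4
  have h6 : (fun m => z m * (∑ l, β m l * (w l - c * z l)) - (w m - c * z m) *
      (∑ l, β m l * z l)) =
      fun m => z m * (∑ l, β m l * w l) - w m * (∑ l, β m l * z l) := by
    funext m
    have : ∑ l, β m l * (w l - c * z l) = ∑ l, β m l * w l - c * ∑ l, β m l * z l := by
      rw [Finset.mul_sum, ← Finset.sum_sub_distrib]
      exact Finset.sum_congr rfl fun l _ => by ring
    rw [this]
    ring
  rw [h6] at h5
  have h3 := lagrange z (fun k => w k - c * z k)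
  rw [h4, mul_zero, add_zero] at h3
  have h7 : ∀ k l, z k * (w l - c * z l) - z l * (w k - c * z k) = z k * w l - z l * w k := by
    intro k l
    ring
  simp only [h7] at h3
  have h8 : sq z * sq (fun k => w k - c * z k) =
      (1 / 2) * ∑ k, ∑ l, ‖z k * w l - z l * w k‖ ^ 2 := by
    have h9 : (((1 / 2) * ∑ k, ∑ l, ‖z k * w l - z l * w k‖ ^ 2 : ℝ) : ℂ) =
        (1 / 2) * ∑ k, ∑ l, ((‖z k * w l - z l * w k‖ ^ 2 : ℝ) : ℂ) := by
      push_cast
      rfl
    rw [← h9] at h3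
    exact_mod_cast h3
  rw [h8] at h5
  exact h5

lemma fourier (A B C A' B' C' : ℂ) : ∑ q : Fin 4, (A + (-Complex.I) ^ (q : ℕ) * B +
    Complex.I ^ (q : ℕ) * C) * conj (A' + (-Complex.I) ^ (q : ℕ) * B' +
      Complex.I ^ (q : ℕ) * C') = 4 * (A * conj A' + B * conj B' + C * conj C') := by
  have h2 : Complex.I ^ 2 = -1 := Complex.I_sq
  have h3 : Complex.I ^ 3 = -Complex.I := by
    rw [pow_succ, h2]
    ring
  have g2 : (-Complex.I) ^ 2 = -1 := by
    rw [neg_sq, h2]
  have g3 : (-Complex.I) ^ 3 = Complex.I := by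
    rw [pow_succ, g2]
    ring
  rw [Fin.sum_univ_four]
  simp only [Fin.val_zero, Fin.val_one, Fin.val_two, pow_zero, pow_one,
    show ((3 : Fin 4) : ℕ) = 3 from rfl, h2, h3, g2, g3, map_add, map_mul, map_neg,
    Complex.conj_I, map_one, neg_neg]
  linear_combination (-2 * B * conj B' - 2 * C * conj C' + 2 * B * conj C' +
    2 * C * conj B') * h2

lemma sumIx (F : Ix 2 → ℝ) : ∑ i, F i = F (0, false) + F (0, true) + ∑ k : K 2, F (em k) := by
  rw [Fintype.sum_prod_type (α₁ := Fin 3), Fin.sum_univ_succ, Fintype.sum_bool,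
    add_comm (F (0, true))]
  congr 1
  rw [Fintype.sum_prod_type (α₁ := Fin 2)]
  rfl

/-- the dual covectors -/
noncomputable def yf (b : T6 → ℂ) (m : K 2) : Ix 2 → ℂ := fun i => ∑ l, conj (b (m, l)) * dl l i

lemma sum_yf (b : T6 → ℂ) (m : K 2) (w : Ix 2 → ℂ) :
    ∑ i, yf b m i * w i = ∑ l, conj (b (m, l)) * w (em l) := by
  unfold yf
  simp only [Finset.sum_mul]
  rw [Finset.sum_comm]
  refine Finset.sum_congr rfl fun l _ => ?_
  rw [← sum_dl l w, Finset.mul_sum]
  exact Finset.sum_congr rfl fun i _ => by ring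

lemma yf_0 (b : T6 → ℂ) (m : K 2) (c : Bool) : yf b m (0, c) = 0 := by
  unfold yf
  simp only [dl_0, mul_zero, Finset.sum_const_zero]

lemma yf_em (b : T6 → ℂ) (m k : K 2) : yf b m (em k) = conj (b (m, k)) := by
  unfold yf
  simp only [dl_em]
  simp

/-- the first factor -/
noncomputable def ff (a c : ℝ) (x : K 2 × Fin 4) : Ix 2 → ℂ := fun i =>
  (a : ℂ) * ev false i + Complex.I ^ (x.2 : ℕ) * (c : ℂ) * dl x.1 i

/-- the second factor -/
noncomputable def gg (b : T6 → ℂ) (a c' : ℝ) (x : K 2 × Fin 4) : Ix 2 → ℂ := fun i =>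
  (a : ℂ) * ev true i + (-Complex.I) ^ (x.2 : ℕ) * (c' : ℂ) * yf b x.1 i

/-- the three parts -/
noncomputable def fA (b : T6 → ℂ) (a c c' : ℝ) (m : K 2) : Ix 2 → Ix 2 → ℂ := fun i j =>
  ((a ^ 2 : ℝ) : ℂ) * P0 i j + ((c * c' : ℝ) : ℂ) * ot (dl m) (yf b m) i j

noncomputable def fB (b : T6 → ℂ) (a c' : ℝ) (m : K 2) : Ix 2 → Ix 2 → ℂ := fun i j =>
  ((a * c' : ℝ) : ℂ) * ot (ev false) (yf b m) i j

noncomputable def fC (a c : ℝ) (m : K 2) : Ix 2 → Ix 2 → ℂ := fun i j =>
  ((a * c : ℝ) : ℂ) * ot (dl m) (ev true) i j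

lemma ot_parts (b : T6 → ℂ) (a c c' : ℝ) (m : K 2) (q : Fin 4) (i j : Ix 2) :
    ot (ff a c (m, q)) (gg b a c' (m, q)) i j = fA b a c c' m i j +
      (-Complex.I) ^ (q : ℕ) * fB b a c' m i j + Complex.I ^ (q : ℕ) * fC a c m i j := by
  have h : Complex.I ^ (q : ℕ) * (-Complex.I) ^ (q : ℕ) = 1 := by
    rw [← mul_pow]
    have : Complex.I * -Complex.I = 1 := by
      rw [mul_neg, Complex.I_mul_I, neg_neg]
    rw [this, one_pow]
  unfold ot ff gg fA fB fC P0 ot
  push_cast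
  linear_combination ((c : ℂ) * (c' : ℂ) * (dl m i * yf b m j - dl m j * yf b m i)) * h

/-- the sum of squares -/
noncomputable def SS (b : T6 → ℂ) (a c c' : ℝ) (i j k l : Ix 2) : ℂ :=
  ∑ x : K 2 × Fin 4, ((1 / 4 : ℝ) : ℂ) * sqf (ot (ff a c x) (gg b a c' x)) i j k l

lemma SS_HS (b : T6 → ℂ) (a c c' : ℝ) : HS (SS b a c c') := by
  constructor
  · intro i j k l
    unfold SS
    rw [map_sum]
    refine Finset.sum_congr rfl fun x _ => ?_
    rw [map_mul, Complex.conj_ofReal, (sqf_HS' _ _).herm]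
  · intro i j k l
    unfold SS
    rw [← Finset.sum_neg_distrib]
    refine Finset.sum_congr rfl fun x _ => ?_
    rw [(sqf_HS' _ _).alt]
    ring

lemma SS_parts (b : T6 → ℂ) (a c c' : ℝ) (i j k l : Ix 2) : SS b a c c' i j k l =
    ∑ m, (sqf (fA b a c c' m) i j k l + sqf (fB b a c' m) i j k l + sqf (fC a c m) i j k l) := by
  unfold SS
  rw [Fintype.sum_prod_type (α₁ := K 2)]
  refine Finset.sum_congr rfl fun m _ => ?_
  rw [← Finset.mul_sum]
  have h : ∀ q : Fin 4, sqf (ot (ff a c (m, q)) (gg b a c' (m, q))) i j k l =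
      (fA b a c c' m i j + (-Complex.I) ^ (q : ℕ) * fB b a c' m i j +
        Complex.I ^ (q : ℕ) * fC a c m i j) *
      conj (fA b a c c' m k l + (-Complex.I) ^ (q : ℕ) * fB b a c' m k l +
        Complex.I ^ (q : ℕ) * fC a c m k l) := by
    intro q
    unfold sqf
    rw [ot_parts, ot_parts]
  rw [Finset.sum_congr rfl fun q _ => h q, fourier]
  unfold sqf
  push_cast
  ring

/-- the kernel condition -/
lemma SS_ker {H : Ix 2 → Ix 2 → Ix 2 → Ix 2 → ℂ} (hH : HS H) (hN : Null H) (κ₁ a c c' : ℝ)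
    (h1 : 4 * a ^ 4 = κ₁) (h2 : 2 * (a ^ 2 * (c * c')) = 1) (k l : Ix 2) :
    H (0, false) (0, true) k l + (κ₁ : ℂ) * UU (0, false) (0, true) k l -
      SS (bc H) a c c' (0, false) (0, true) k l = 0 := by
  rw [SS_parts]
  have e1 : ∀ m, fA (bc H) a c c' m (0, false) (0, true) = ((a ^ 2 : ℝ) : ℂ) := by
    intro m
    unfold fA P0 ot
    simp only [dl_0, ev_0]
    simp
  have e2 : ∀ m, fB (bc H) a c' m (0, false) (0, true) = 0 := by
    intro m
    unfold fB ot
    simp only [yf_0]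
    ring
  have e3 : ∀ m, fC a c m (0, false) (0, true) = 0 := by
    intro m
    unfold fC ot
    simp only [dl_0]
    ring
  have e4 : ∀ m, sqf (fA (bc H) a c c' m) (0, false) (0, true) k l +
      sqf (fB (bc H) a c' m) (0, false) (0, true) k l +
      sqf (fC a c m) (0, false) (0, true) k l =
      ((a ^ 4 : ℝ) : ℂ) * P0 k l + ((a ^ 2 * (c * c') : ℝ) : ℂ) *
        (dl m k * conj (yf (bc H) m l) - dl m l * conj (yf (bc H) m k)) := by
    intro m
    unfold sqf
    rw [e1, e2, e3]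
    have hd : ∀ i, conj (dl m i) = dl m i := by
      intro i
      unfold dl
      split_ifs <;> simp
    unfold fA ot
    simp only [map_add, map_sub, map_mul, Complex.conj_ofReal, P0_conj, hd]
    push_cast
    ring
  rw [Finset.sum_congr rfl fun m _ => e4 m, Finset.sum_add_distrib, ← Finset.mul_sum,
    Finset.sum_const, Finset.card_univ, Fintype.card_prod, Fintype.card_fin, Fintype.card_bool]
  have e5 : ((a ^ 2 * (c * c') : ℝ) : ℂ) = 1 / 2 := by
    have : a ^ 2 * (c * c') = 1 / 2 := by linarith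
    rw [this]
    push_cast
    ring
  have e6 : (κ₁ : ℂ) = 4 * ((a ^ 4 : ℝ) : ℂ) := by
    rw [← h1]
    push_cast
    ring
  have e7 : ∑ m, dl m k * conj (yf (bc H) m l) - ∑ m, dl m l * conj (yf (bc H) m k) =
      2 * (H (0, false) (0, true) k l - (if (dg k + dg l = 0) then 0 else
        H (0, false) (0, true) k l)) := by
    refine two_cases (C := fun k l => ∑ m, dl m k * conj (yf (bc H) m l) -
      ∑ m, dl m l * conj (yf (bc H) m k) =
      2 * (H (0, false) (0, true) k l - (if (dg k + dg l = 0) then 0 else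
        H (0, false) (0, true) k l))) ?_ ?_ ?_ ?_ k l
    · intro c c'
      simp [dl_0, dg_0]
    · intro c p
      simp [dl_0, dg_0, yf_0]
    · intro p c
      simp [dl_0, dg_0, yf_0]
    · intro p q
      simp only [dl_em, yf_em, dg_em, Complex.conj_conj]
      have : bc H (q, p) = -bc H (p, q) := alt_r hH _ _ _ _
      simp [this]
      unfold bc
      ring
  have e8 : (if (dg k + dg l = 0) then 0 else H (0, false) (0, true) k l) = 0 := by
    split_ifs with h
    · rfl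
    · exact hN.left _ _ _ _ (by rw [dg_0, dg_0]) (Nat.one_le_iff_ne_zero.2 h)
  have e9 : UU (0, false) (0, true) k l = P0 k l := by
    unfold UU P0 ot ev
    simp only [eq_comm (b := k), eq_comm (b := l)]
  rw [e8, sub_zero] at e7
  rw [← Finset.mul_sum, Finset.sum_sub_distrib, e7, e5, e6, e9]
  simp
  ring

lemma bl_A (b : T6 → ℂ) (a c c' : ℝ) (m : K 2) (z w : Ix 2 → ℂ) :
    bl (fA b a c c' m) z w = ((a ^ 2 : ℝ) : ℂ) *
      (z (0, false) * w (0, true) - w (0, false) * z (0, true)) + ((c * c' : ℝ) : ℂ) *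
      (z (em m) * (∑ l, conj (b (m, l)) * w (em l)) -
        w (em m) * (∑ l, conj (b (m, l)) * z (em l))) := by
  have h : bl (fA b a c c' m) z w = ((a ^ 2 : ℝ) : ℂ) * bl P0 z w + ((c * c' : ℝ) : ℂ) *
      bl (ot (dl m) (yf b m)) z w := by
    unfold bl fA
    simp only [add_mul, Finset.sum_add_distrib, Finset.mul_sum, mul_assoc]
  rw [h, bl_P0, bl_ot, sum_dl, sum_dl, sum_yf, sum_yf]

lemma bl_smul (A : Ix 2 → Ix 2 → ℂ) (t : ℂ) (z w : Ix 2 → ℂ) :
    bl (fun i j => t * A i j) z w = t * bl A z w := by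
  unfold bl
  simp only [Finset.mul_sum, mul_assoc]

lemma bl_B (b : T6 → ℂ) (a c' : ℝ) (m : K 2) (z w : Ix 2 → ℂ) :
    bl (fB b a c' m) z w = ((a * c' : ℝ) : ℂ) *
      ∑ l, conj (b (m, l)) * (z (0, false) * w (em l) - w (0, false) * z (em l)) := by
  unfold fB
  rw [bl_smul, bl_ot, sum_ev, sum_ev, sum_yf, sum_yf, Finset.mul_sum, Finset.mul_sum,
    ← Finset.sum_sub_distrib]
  congr 1
  exact Finset.sum_congr rfl fun l _ => by ring

lemma bl_C (a c : ℝ) (m : K 2) (z w : Ix 2 → ℂ) :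
    bl (fC a c m) z w = -(((a * c : ℝ) : ℂ) *
      (z (0, true) * w (em m) - w (0, true) * z (em m))) := by
  unfold fC
  rw [bl_smul, bl_ot, sum_ev, sum_ev, sum_dl, sum_dl]
  ring

lemma qf_SS (b : T6 → ℂ) (a c c' : ℝ) (z w : Ix 2 → ℂ) :
    (qf (SS b a c c') z w).re = ∑ m, (‖bl (fA b a c c' m) z w‖ ^ 2 +
      ‖bl (fB b a c' m) z w‖ ^ 2 + ‖bl (fC a c m) z w‖ ^ 2) := by
  have h1 : SS b a c c' = fun i j k l => ∑ x : K 2 × Fin 3, (1 : ℂ) *
      (![fA b a c c' x.1, fB b a c' x.1, fC a c x.1] x.2 i j) *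
      conj (![fA b a c c' x.1, fB b a c' x.1, fC a c x.1] x.2 k l) := by
    funext i j k l
    rw [SS_parts, Fintype.sum_prod_type (α₁ := K 2)]
    refine Finset.sum_congr rfl fun m _ => ?_
    rw [Fin.sum_univ_three]
    unfold sqf
    simp
  rw [h1]
  have h2 := qf_rank (A := K 2 × Fin 3) (fun _ => (1 : ℂ))
    (fun x => ![fA b a c c' x.1, fB b a c' x.1, fC a c x.1] x.2)
    (fun x => ![fA b a c c' x.1, fB b a c' x.1, fC a c x.1] x.2) z w
  rw [h2, Complex.re_sum, Fintype.sum_prod_type (α₁ := K 2)]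
  refine Finset.sum_congr rfl fun m _ => ?_
  rw [Fin.sum_univ_three]
  simp only [one_mul, Complex.mul_conj, Complex.ofReal_re, Complex.normSq_eq_norm_sq]
  simp

/-- the form is nonnegative on decomposable bivectors after the correction -/
lemma SS_bp {H : Ix 2 → Ix 2 → Ix 2 → Ix 2 → ℂ} (hH : HS H) (hK : Bp H) (r a c c' : ℝ)
    (hr : 0 < r) (h1 : 4 * a ^ 4 = 3 / 2 * r) (h2 : 2 * (a ^ 2 * (c * c')) = 1)
    (h3 : a ^ 2 * c ^ 2 = r / 2) (h4 : 2 * r * (a ^ 2 * c' ^ 2) = 1)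
    (h : ∀ x y : K 2 → ℂ, ‖bi (bc H) x y‖ ^ 2 ≤ r ^ 2 * (sq x * sq y)) (z w : Ix 2 → ℂ) :
    0 ≤ (qf (fun i j k l => H i j k l + ((3 / 2 * r : ℝ) : ℂ) * UU i j k l -
      SS (bc H) a c c' i j k l) z w).re := by
  obtain ⟨b, hb⟩ : ∃ b, b = bc H := ⟨_, rfl⟩
  have hbs : ∀ i j, b (j, i) = -b (i, j) := fun i j => by rw [hb]; exact alt_r hH _ _ _ _
  obtain ⟨β, hβ⟩ : ∃ β : K 2 → K 2 → ℂ, ∀ m l, β m l = conj (b (m, l)) := ⟨_, fun _ _ => rfl⟩
  have hβs : ∀ m l, β l m = -β m l := fun m l => by rw [hβ, hβ, hbs m l, map_neg]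
  rw [← hb] at h ⊢
  obtain ⟨ζ, hζ⟩ : ∃ ζ, ζ = z (0, false) * w (0, true) - w (0, false) * z (0, true) := ⟨_, rfl⟩
  obtain ⟨X0, hX0⟩ : ∃ X0 : K 2 → ℂ, ∀ k, X0 k = z (0, false) * w (em k) -
    w (0, false) * z (em k) := ⟨_, fun _ => rfl⟩
  obtain ⟨X1, hX1⟩ : ∃ X1 : K 2 → ℂ, ∀ k, X1 k = z (0, true) * w (em k) -
    w (0, true) * z (em k) := ⟨_, fun _ => rfl⟩
  obtain ⟨Ω, hΩ⟩ : ∃ Ω : ℝ, Ω = (1 / 2) * ∑ k : K 2, ∑ l : K 2,
    ‖z (em k) * w (em l) - z (em l) * w (em k)‖ ^ 2 := ⟨_, rfl⟩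
  obtain ⟨D, hD⟩ : ∃ D : K 2 → ℂ, ∀ m, D m = z (em m) * (∑ l, β m l * w (em l)) -
    w (em m) * (∑ l, β m l * z (em l)) := ⟨_, fun _ => rfl⟩
  have hΩ0 : 0 ≤ Ω := by
    rw [hΩ]
    have : 0 ≤ ∑ k : K 2, ∑ l : K 2, ‖z (em k) * w (em l) - z (em l) * w (em k)‖ ^ 2 :=
      Finset.sum_nonneg fun _ _ => Finset.sum_nonneg fun _ _ => by positivity
    linarith
  -- the pieces
  have eU : (qf UU z w).re = ‖ζ‖ ^ 2 + sq X0 + sq X1 + Ω := by
    have e1 := Pool.Agent.TH367.J4006.qf_UU z w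
    rw [sumIx] at e1
    simp only [sumIx] at e1
    have g1 : ‖z (0, false) * w (0, true) - z (0, true) * w (0, false)‖ ^ 2 = ‖ζ‖ ^ 2 := by
      rw [hζ, mul_comm (z (0, true))]
    have g2 : ‖z (0, true) * w (0, false) - z (0, false) * w (0, true)‖ ^ 2 = ‖ζ‖ ^ 2 := by
      rw [hζ, mul_comm (z (0, true)), norm_sub_rev]
    have g3 : ∀ k, ‖z (0, false) * w (em k) - z (em k) * w (0, false)‖ ^ 2 = ‖X0 k‖ ^ 2 := by
      intro k
      rw [hX0, mul_comm (z (em k))]
    have g4 : ∀ k, ‖z (0, true) * w (em k) - z (em k) * w (0, true)‖ ^ 2 = ‖X1 k‖ ^ 2 := by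
      intro k
      rw [hX1, mul_comm (z (em k))]
    have g5 : ∀ k, ‖z (em k) * w (0, false) - z (0, false) * w (em k)‖ ^ 2 = ‖X0 k‖ ^ 2 := by
      intro k
      rw [norm_sub_rev, g3]
    have g6 : ∀ k, ‖z (em k) * w (0, true) - z (0, true) * w (em k)‖ ^ 2 = ‖X1 k‖ ^ 2 := by
      intro k
      rw [norm_sub_rev, g4]
    simp only [g1, g2, g3, g4, g5, g6, sub_self, norm_zero, Finset.sum_add_distrib] at e1
    rw [hΩ]
    unfold sq
    have z2 : (0 : ℝ) ^ 2 = 0 := by norm_num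
    rw [z2] at e1
    linarith
  have eA : ∀ m, bl (fA b a c c' m) z w = ((a ^ 2 : ℝ) : ℂ) * ζ + ((c * c' : ℝ) : ℂ) * D m := by
    intro m
    rw [bl_A, hζ, hD]
    simp only [hβ]
  have eB : ∀ m, bl (fB b a c' m) z w = ((a * c' : ℝ) : ℂ) * ∑ l, β m l * X0 l := by
    intro m
    rw [bl_B]
    simp only [hβ, hX0]
  have eC : ∀ m, bl (fC a c m) z w = -(((a * c : ℝ) : ℂ) * X1 m) := by
    intro m
    rw [bl_C, hX1]
  have hop := op_bound r h
  have hop' : ∀ x : K 2 → ℂ, sq (fun m => ∑ l, β m l * x l) ≤ r ^ 2 * sq x := by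
    intro x
    simp only [hβ]
    exact hop x
  have hDb := D_bound β r hop' (fun k => z (em k)) (fun k => w (em k))
  have hDb' : sq D ≤ 2 * r ^ 2 * Ω := by
    rw [hΩ]
    refine le_of_eq_of_le ?_ hDb
    unfold sq
    exact Finset.sum_congr rfl fun m _ => by rw [hD]
  -- the cross term
  have hcross : -(2 * (a ^ 2 * (c * c')) * (conj ζ * ∑ m, D m).re) ≥ -(r * (sq X0 + sq X1)) := by
    have p1 : ζ * ∑ m, D m = 2 * ∑ m, ∑ l, β m l * (X0 m * X1 l) := by
      have q1 : ∑ m, D m = ∑ m, ∑ l, β m l * (z (em m) * w (em l) - z (em l) * w (em m)) := by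
        refine Finset.sum_congr rfl fun m _ => ?_
        rw [hD, Finset.mul_sum, Finset.mul_sum, ← Finset.sum_sub_distrib]
        exact Finset.sum_congr rfl fun l _ => by ring
      have q2 : ∀ m l, ζ * (z (em m) * w (em l) - z (em l) * w (em m)) =
          X0 m * X1 l - X0 l * X1 m := by
        intro m l
        rw [hζ, hX0, hX0, hX1, hX1]
        ring
      have q3 : ζ * ∑ m, D m = ∑ m, ∑ l, (β m l * (X0 m * X1 l) - β m l * (X0 l * X1 m)) := by
        rw [q1, Finset.mul_sum]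
        refine Finset.sum_congr rfl fun m _ => ?_
        rw [Finset.mul_sum]
        refine Finset.sum_congr rfl fun l _ => ?_
        rw [mul_left_comm, q2]
        ring
      rw [q3]
      simp only [Finset.sum_sub_distrib]
      have q4 : ∑ m, ∑ l, β m l * (X0 l * X1 m) = -∑ m, ∑ l, β m l * (X0 m * X1 l) := by
        rw [Finset.sum_comm, ← Finset.sum_neg_distrib]
        refine Finset.sum_congr rfl fun m _ => ?_
        rw [← Finset.sum_neg_distrib]
        refine Finset.sum_congr rfl fun l _ => ?_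
        rw [hβs m l]
        ring
      rw [q4]
      ring
    have p2 : ‖∑ m, ∑ l, β m l * (X0 m * X1 l)‖ ^ 2 ≤ r ^ 2 * (sq X0 * sq X1) := by
      have q1 := h (fun k => conj (X0 k)) (fun k => conj (X1 k))
      have e1 : ∀ x : K 2 → ℂ, sq (fun k => conj (x k)) = sq x := by
        intro x
        unfold sq
        simp only [RCLike.norm_conj]
      rw [e1, e1] at q1
      have q2 : ∑ m, ∑ l, β m l * (X0 m * X1 l) =
          conj (bi b (fun k => conj (X0 k)) (fun k => conj (X1 k))) := by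
        unfold bi
        rw [map_sum, Fintype.sum_prod_type (α₁ := K 2)]
        refine Finset.sum_congr rfl fun m _ => Finset.sum_congr rfl fun l _ => ?_
        simp only [map_mul, Complex.conj_conj, hβ]
      rw [q2, RCLike.norm_conj]
      exact q1
    have p3 : ‖conj ζ * ∑ m, D m‖ ≤ r * (sq X0 + sq X1) := by
      have q1 : ‖conj ζ * ∑ m, D m‖ = ‖ζ * ∑ m, D m‖ := by
        rw [norm_mul, norm_mul, RCLike.norm_conj]
      have q2 : ‖ζ * ∑ m, D m‖ ^ 2 ≤ (r * (sq X0 + sq X1)) ^ 2 := by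
        rw [p1, norm_mul, mul_pow]
        have t2 : ‖(2 : ℂ)‖ ^ 2 = 4 := by norm_num
        rw [t2]
        have t3 := sq_nonneg (sq X0 - sq X1)
        have hr2 : 0 ≤ r ^ 2 := by positivity
        nlinarith [mul_nonneg hr2 t3]
      rw [q1]
      exact le_of_sq_le_sq q2 (mul_nonneg hr.le (add_nonneg (sq_nonneg' X0) (sq_nonneg' X1)))
    have p4 := (Complex.re_le_norm (conj ζ * ∑ m, D m)).trans p3
    rw [h2]
    linarith
  -- the sums
  have sA : ∑ m, ‖bl (fA b a c c' m) z w‖ ^ 2 = 3 / 2 * r * ‖ζ‖ ^ 2 +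
      2 * (a ^ 2 * (c * c')) * (conj ζ * ∑ m, D m).re + (c * c') ^ 2 * sq D := by
    have q1 : ∀ m, ‖bl (fA b a c c' m) z w‖ ^ 2 = a ^ 4 * ‖ζ‖ ^ 2 +
        2 * (a ^ 2 * (c * c')) * (conj ζ * D m).re + (c * c') ^ 2 * ‖D m‖ ^ 2 := by
      intro m
      rw [eA]
      have : ∀ (s t : ℝ) (x y : ℂ), ‖(s : ℂ) * x + (t : ℂ) * y‖ ^ 2 = s ^ 2 * ‖x‖ ^ 2 +
          2 * (s * t) * (conj x * y).re + t ^ 2 * ‖y‖ ^ 2 := by
        intro s t x y
        rw [← Complex.normSq_eq_norm_sq, ← Complex.normSq_eq_norm_sq, ← Complex.normSq_eq_norm_sq]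
        simp only [Complex.normSq_apply, Complex.add_re, Complex.add_im, Complex.re_ofReal_mul,
          Complex.im_ofReal_mul, Complex.mul_re, Complex.conj_re, Complex.conj_im,
          Complex.ofReal_re, Complex.ofReal_im]
        ring
      rw [this]
      ring
    simp only [q1, Finset.sum_add_distrib]
    rw [Finset.sum_const, Finset.card_univ, Fintype.card_prod, Fintype.card_fin,
      Fintype.card_bool, ← Finset.mul_sum, ← Finset.mul_sum, ← Complex.re_sum, ← Finset.mul_sum]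
    unfold sq
    rw [← h1]
    simp
    ring
  have sB : ∑ m, ‖bl (fB b a c' m) z w‖ ^ 2 ≤ r / 2 * sq X0 := by
    have q1 : ∑ m, ‖bl (fB b a c' m) z w‖ ^ 2 = (a ^ 2 * c' ^ 2) *
        sq (fun m => ∑ l, β m l * X0 l) := by
      unfold sq
      rw [Finset.mul_sum]
      refine Finset.sum_congr rfl fun m _ => ?_
      rw [eB, norm_mul, mul_pow, Complex.norm_real, Real.norm_eq_abs, sq_abs]
      ring
    rw [q1]
    have q2 := mul_le_mul_of_nonneg_left (hop' X0) (show 0 ≤ a ^ 2 * c' ^ 2 by positivity)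
    refine q2.trans (le_of_eq ?_)
    have : a ^ 2 * c' ^ 2 * r = 1 / 2 := by linarith
    calc a ^ 2 * c' ^ 2 * (r ^ 2 * sq X0) = (a ^ 2 * c' ^ 2 * r) * (r * sq X0) := by ring
      _ = r / 2 * sq X0 := by rw [this]; ring
  have sC : ∑ m, ‖bl (fC a c m) z w‖ ^ 2 = r / 2 * sq X1 := by
    unfold sq
    rw [← h3, Finset.mul_sum]
    refine Finset.sum_congr rfl fun m _ => ?_
    rw [eC, norm_neg, norm_mul, mul_pow, Complex.norm_real, Real.norm_eq_abs, sq_abs]
    ring
  have hcc : (c * c') ^ 2 * (3 / 2 * r) = 1 := by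
    rw [← h1]
    have : (c * c') ^ 2 * (4 * a ^ 4) = (2 * (a ^ 2 * (c * c'))) ^ 2 := by ring
    rw [this, h2]
    norm_num
  have hq : (qf (fun i j k l => H i j k l + ((3 / 2 * r : ℝ) : ℂ) * UU i j k l -
      SS b a c c' i j k l) z w).re = (qf H z w).re + 3 / 2 * r * (qf UU z w).re -
      (qf (SS b a c c') z w).re := by
    have q1 : qf (fun i j k l => H i j k l + ((3 / 2 * r : ℝ) : ℂ) * UU i j k l -
      SS b a c c' i j k l) z w = qf H z w + ((3 / 2 * r : ℝ) : ℂ) * qf UU z w -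
        qf (SS b a c c') z w := by
      rw [← qf_lin]
      unfold qf
      simp only [sub_mul, Finset.sum_sub_distrib]
    rw [q1, Complex.sub_re, Complex.add_re, Complex.re_ofReal_mul]
  rw [hq, qf_SS, eU]
  simp only [Finset.sum_add_distrib]
  rw [sA, sC]
  have hk := hK z w
  have hD2 : (c * c') ^ 2 * sq D ≤ 4 / 3 * r * Ω := by
    have q1 := mul_le_mul_of_nonneg_left hDb' (show 0 ≤ (c * c') ^ 2 by positivity)
    refine q1.trans (le_of_eq ?_)
    have : (c * c') ^ 2 * r = 2 / 3 := by linarith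
    calc (c * c') ^ 2 * (2 * r ^ 2 * Ω) = ((c * c') ^ 2 * r) * (2 * r * Ω) := by ring
      _ = 4 / 3 * r * Ω := by rw [this]; ring
  have hrΩ : 0 ≤ r * Ω := mul_nonneg hr.le hΩ0
  nlinarith [hk, hcross, sB, hD2, hrΩ]

/-- **Nonnegativity for an almost eigenbivector.** -/
theorem near {H : Ix 2 → Ix 2 → Ix 2 → Ix 2 → ℂ} (hH : HS H) (hK : Bp H)
    (h0 : H (0, false) (0, true) (0, false) (0, true) = 0) (r δ : ℝ) (hr : 0 ≤ r)
    (hδ : 3 / 2 * r ≤ δ)
    (h : ∀ x y : K 2 → ℂ, ‖bi (bc H) x y‖ ^ 2 ≤ r ^ 2 * (sq x * sq y)) :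
    2 ^ 3 * ((2 * 3).factorial : ℝ) * (δ - 3 / 2 * r) ^ 3 ≤
      (GG (fun i j i' j' => H i j i' j' + (δ : ℂ) * UU i j i' j')).re := by
  have hN := null_of_bp hH hK h0
  have hUHS : HS (UU (I := Ix 2)) := Pool.Agent.TH541.J3422.II_HS
  -- the tensor with the bivector in its kernel
  obtain ⟨K', S', hK'1, hK'2, hK'3, hS, hG⟩ : ∃ K' S' : Ix 2 → Ix 2 → Ix 2 → Ix 2 → ℂ,
      HS K' ∧ Bp K' ∧ (∀ k l, K' (0, false) (0, true) k l = 0) ∧
      (Bp (fun i j k l => K' i j k l + S' i j k l) ∧ HS (fun i j k l => K' i j k l + S' i j k l) ∧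
        (GG K').re ≤ (GG (fun i j k l => K' i j k l + S' i j k l)).re) ∧
      (∀ i j k l, K' i j k l + S' i j k l = H i j k l +
        ((3 / 2 * r : ℝ) : ℂ) * UU i j k l) := by
    rcases eq_or_lt_of_le hr with hr0 | hr0
    · refine ⟨H, fun _ _ _ _ => 0, hH, hK, ?_, ⟨?_, ?_, ?_⟩, ?_⟩
      · intro k l
        have hb0 : ∀ q, bc H q = 0 := by
          rintro ⟨i, j⟩
          have h1 := h (fun k => if k = i then 1 else 0) (fun k => if k = j then 1 else 0)
          rw [← hr0] at h1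
          have h2 : bi (bc H) (fun k => if k = i then 1 else 0)
              (fun k => if k = j then 1 else 0) = bc H (i, j) := by
            unfold bi
            rw [Finset.sum_eq_single (i, j)]
            · simp
            · rintro ⟨p, q⟩ _ hpq
              by_cases h3 : p = i
              · by_cases h4 : q = j
                · exact absurd (Prod.ext h3 h4) hpq
                · simp [h4]
              · simp [h3]
            · simp
          rw [h2] at h1
          have h3 : ‖bc H (i, j)‖ ^ 2 ≤ 0 := by simpa using h1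
          have h4 : ‖bc H (i, j)‖ = 0 := by
            have := norm_nonneg (bc H (i, j))
            nlinarith
          exact norm_eq_zero.1 h4
        refine two_cases (C := fun k l => H (0, false) (0, true) k l = 0) ?_ ?_ ?_ ?_ k l
        · intro c c'
          exact null1 hN _ _ _ _
        · intro c p
          exact null1 hN _ _ _ _
        · intro p c
          exact null2 hN _ _ _ _
        · intro p q
          exact hb0 (p, q)
      · simpa only [add_zero] using hK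
      · simpa only [add_zero] using hH
      · simp only [add_zero, le_refl]
      · intro i j k l
        rw [← hr0]
        simp
    · obtain ⟨s, hs0, hs⟩ : ∃ s : ℝ, 0 < s ∧ s ^ 2 = 3 / 8 * r :=
        ⟨Real.sqrt (3 / 8 * r), Real.sqrt_pos.2 (by positivity), Real.sq_sqrt (by positivity)⟩
      obtain ⟨a, ha0, ha⟩ : ∃ a : ℝ, 0 < a ∧ a ^ 2 = s :=
        ⟨Real.sqrt s, Real.sqrt_pos.2 hs0, Real.sq_sqrt hs0.le⟩
      obtain ⟨t, ht0, ht⟩ : ∃ t : ℝ, 0 < t ∧ t ^ 2 = r / 2 :=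
        ⟨Real.sqrt (r / 2), Real.sqrt_pos.2 (by positivity), Real.sq_sqrt (by positivity)⟩
      obtain ⟨c, hc⟩ : ∃ c : ℝ, c = t / a := ⟨_, rfl⟩
      obtain ⟨c', hc'⟩ : ∃ c' : ℝ, c' = 1 / (2 * t * a) := ⟨_, rfl⟩
      have p1 : 4 * a ^ 4 = 3 / 2 * r := by
        have : a ^ 4 = s ^ 2 := by rw [← ha]; ring
        rw [this, hs]; ring
      have p2 : 2 * (a ^ 2 * (c * c')) = 1 := by
        rw [hc, hc']
        field_simp
      have p3 : a ^ 2 * c ^ 2 = r / 2 := by
        rw [hc, ← ht]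
        field_simp
      have p4 : 2 * r * (a ^ 2 * c' ^ 2) = 1 := by
        have hrt : r = 2 * t ^ 2 := by linarith
        rw [hc', hrt]
        field_simp
      refine ⟨fun i j k l => H i j k l + ((3 / 2 * r : ℝ) : ℂ) * UU i j k l -
        SS (bc H) a c c' i j k l, SS (bc H) a c c', ?_, ?_, ?_, ⟨?_, ?_, ?_⟩, ?_⟩
      · constructor
        · intro i j k l
          simp only [map_add, map_sub, map_mul, Complex.conj_ofReal]
          rw [hH.herm, hUHS.herm, (SS_HS (bc H) a c c').herm]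
        · intro i j k l
          rw [hH.alt, hUHS.alt, (SS_HS (bc H) a c c').alt]
          ring
      · exact SS_bp hH hK r a c c' hr0 p1 p2 p3 p4 h
      · intro k l
        exact SS_ker hH hN (3 / 2 * r) a c c' p1 p2 k l
      · have e : (fun i j k l => (H i j k l + ((3 / 2 * r : ℝ) : ℂ) * UU i j k l -
          SS (bc H) a c c' i j k l) + SS (bc H) a c c' i j k l) = fun i j k l =>
            H i j k l + ((3 / 2 * r : ℝ) : ℂ) * UU i j k l := by
          funext i j k l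
          ring
        rw [e]
        refine Bp_add hK (fun z w => ?_) _ (by positivity)
        exact Pool.Agent.TH541.J3422.qf_II z w
      · have e : (fun i j k l => (H i j k l + ((3 / 2 * r : ℝ) : ℂ) * UU i j k l -
          SS (bc H) a c c' i j k l) + SS (bc H) a c c' i j k l) = fun i j k l =>
            H i j k l + ((3 / 2 * r : ℝ) : ℂ) * UU i j k l := by
          funext i j k l
          ring
        rw [e]
        exact HS_add hH hUHS _
      · refine mono_sum (ff a c) (gg (bc H) a c') (fun _ => 1 / 4) univ (fun _ _ => by norm_num)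
          ?_ (SS_bp hH hK r a c c' hr0 p1 p2 p3 p4 h)
        constructor
        · intro i j k l
          simp only [map_add, map_sub, map_mul, Complex.conj_ofReal]
          rw [hH.herm, hUHS.herm, (SS_HS (bc H) a c c').herm]
        · intro i j k l
          rw [hH.alt, hUHS.alt, (SS_HS (bc H) a c c').alt]
          ring
      · intro i j k l
        ring
  have h1 := semiZ K' hK'1 hK'3 hK'2
  have h2 := addU hS.2.1 hS.1 (δ - 3 / 2 * r) (by linarith)
  have h3 : (fun i j i' j' => K' i j i' j' + S' i j i' j' +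
      ((δ - 3 / 2 * r : ℝ) : ℂ) * UU i j i' j') =
      fun i j i' j' => H i j i' j' + (δ : ℂ) * UU i j i' j' := by
    funext i j k l
    rw [hG]
    push_cast
    ring
  rw [h3] at h2
  linarith [hS.2.2]

end Pool.Agent.H85.FL
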