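import Pool.Agent.H85.Flat.Sep2

/-!
# The terms with the mixed-complement block, for a pinched mixed block
-/

set_option autoImplicit false
set_option linter.unusedSimpArgs false

namespace Pool.Agent.H85.FL

open Finset MeasureTheory Pool.Agent.TH598.GV Pool.Agent.R735.HA
open scoped ComplexConjugate ComplexOrder

/-- the dual array of a row of the mixed-complement block -/
noncomputable def na (n : S → T6 → ℂ) (s : S) (k l : K 2) : ℂ :=
  (1 / 2) * ∑ p : T6, n s p * E4 p.1 p.2 k l

lemma na_swap (n : S → T6 → ℂ) (s : S) (k l : K 2) : na n s l k = -na n s k l := by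
  unfold na
  simp only [E4_s23 _ _ k l, mul_neg, Finset.sum_neg_distrib]

lemma na_sum (n : S → T6 → ℂ) (s : S) (k l : K 2) : ∑ p : T6, n s p * E4 p.1 p.2 k l =
    2 * na n s k l := by
  unfold na
  ring

/-- the dual of the dual -/
lemma na_inv (n : S → T6 → ℂ) (hn : ∀ s i j, n s (j, i) = -n s (i, j)) (s : S) (i j : K 2) :
    ∑ k, ∑ l, na n s k l * E4 k l i j = 2 * n s (i, j) := by
  have h1 : ∀ k l, na n s k l * E4 k l i j =
      ∑ p : T6, (1 / 2) * (n s p * (E4 k l p.1 p.2 * E4 k l i j)) := by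
    intro k l
    unfold na
    rw [Finset.mul_sum, Finset.sum_mul]
    refine Finset.sum_congr rfl fun p _ => ?_
    rw [E4_pair k l p.1 p.2]
    ring
  simp only [h1]
  have h2 : ∑ k, ∑ l, ∑ p : T6, (1 / 2) * (n s p * (E4 k l p.1 p.2 * E4 k l i j)) =
      ∑ p : T6, (1 / 2) * (n s p * ∑ q : T6, E4 q.1 q.2 p.1 p.2 * E4 q.1 q.2 i j) := by
    rw [sw3]
    refine Finset.sum_congr rfl fun p _ => ?_
    rw [Fintype.sum_prod_type (α₁ := K 2), Finset.mul_sum, Finset.mul_sum]
    refine Finset.sum_congr rfl fun k _ => ?_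
    rw [Finset.mul_sum, Finset.mul_sum]
  rw [h2]
  simp only [E4_ss]
  rw [Fintype.sum_prod_type (α₁ := K 2)]
  have h3 : ∀ a b : K 2, (1 / 2 : ℂ) * (n s (a, b) * (2 * ((if a = i then 1 else 0) *
      (if b = j then 1 else 0) - (if a = j then 1 else 0) * (if b = i then 1 else 0)))) =
      (if a = i then (if b = j then n s (a, b) else 0) else 0) -
        (if a = j then (if b = i then n s (a, b) else 0) else 0) := by
    intro a b
    split_ifs <;> ring
  simp only [h3, Finset.sum_sub_distrib]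
  simp only [Finset.sum_ite_irrel, Finset.sum_const_zero, Finset.sum_ite_eq', Finset.mem_univ,
    if_true]
  rw [hn s i j]
  ring

lemma e4_cyc : ∀ a b c a' b' c' : K 2, ∑ j : K 2, e4 a' b' c' j * e4 a b c j =
    (if a = a' then 1 else 0) * (if b = b' then 1 else 0) * (if c = c' then 1 else 0) +
    (if a = b' then 1 else 0) * (if b = c' then 1 else 0) * (if c = a' then 1 else 0) +
    (if a = c' then 1 else 0) * (if b = a' then 1 else 0) * (if c = b' then 1 else 0) -
    (if a = b' then 1 else 0) * (if b = a' then 1 else 0) * (if c = c' then 1 else 0) -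
    (if a = a' then 1 else 0) * (if b = c' then 1 else 0) * (if c = b' then 1 else 0) -
    (if a = c' then 1 else 0) * (if b = b' then 1 else 0) * (if c = a' then 1 else 0) := by
  decide +kernel

lemma E4_cyc (a b c a' b' c' : K 2) : ∑ j : K 2, E4 a' b' c' j * E4 a b c j =
    (if a = a' then 1 else 0) * (if b = b' then 1 else 0) * (if c = c' then 1 else 0) +
    (if a = b' then 1 else 0) * (if b = c' then 1 else 0) * (if c = a' then 1 else 0) +
    (if a = c' then 1 else 0) * (if b = a' then 1 else 0) * (if c = b' then 1 else 0) -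
    (if a = b' then 1 else 0) * (if b = a' then 1 else 0) * (if c = c' then 1 else 0) -
    (if a = a' then 1 else 0) * (if b = c' then 1 else 0) * (if c = b' then 1 else 0) -
    (if a = c' then 1 else 0) * (if b = b' then 1 else 0) * (if c = a' then 1 else 0) := by
  simp only [E4_val]
  have h := congrArg (fun x : ℤ => (x : ℂ)) (e4_cyc a b c a' b' c')
  push_cast at h
  rw [← h]
  exact Finset.sum_congr rfl fun j _ => by ring

lemma sum3_ite (T : K 2 → K 2 → K 2 → ℂ) (a b c : K 2) :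
    ∑ i, ∑ k, ∑ l, T i k l * ((if k = a then 1 else 0) * (if l = b then 1 else 0) *
      (if i = c then 1 else 0)) = T c a b := by
  rw [Finset.sum_eq_single c, Finset.sum_eq_single a, Finset.sum_eq_single b]
  · simp
  · intro l _ hl
    simp [hl]
  · simp
  · intro k _ hk
    simp [hk]
  · simp
  · intro i _ hi
    simp [hi]
  · simp

/-- the cyclic identity -/
lemma cyc (n : S → T6 → ℂ) (hn : ∀ s i j, n s (j, i) = -n s (i, j))
    (ht : ∀ c j, ∑ i, n (c, i) (i, j) = 0) (c : Bool) (x y z : K 2) :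
    na n (c, z) x y + na n (c, x) y z + na n (c, y) z x = 0 := by
  have h1 : ∀ j, ∑ i, ∑ k, ∑ l, na n (c, i) k l * E4 k l i j = 0 := by
    intro j
    simp only [na_inv n hn, ← Finset.mul_sum, ht, mul_zero]
  have h2 : ∑ j, E4 x y z j * ∑ i, ∑ k, ∑ l, na n (c, i) k l * E4 k l i j = 0 := by
    simp only [h1, mul_zero, Finset.sum_const_zero]
  have h3 : ∑ j, E4 x y z j * ∑ i, ∑ k, ∑ l, na n (c, i) k l * E4 k l i j =
      ∑ i, ∑ k, ∑ l, na n (c, i) k l * ∑ j, E4 x y z j * E4 k l i j := by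
    simp only [Finset.mul_sum]
    rw [Finset.sum_comm]
    refine Finset.sum_congr rfl fun i _ => ?_
    rw [Finset.sum_comm]
    refine Finset.sum_congr rfl fun k _ => ?_
    rw [Finset.sum_comm]
    exact Finset.sum_congr rfl fun l _ => Finset.sum_congr rfl fun j _ => by ring
  rw [h3] at h2
  have h4 : ∀ i k l : K 2, na n (c, i) k l * ∑ j, E4 x y z j * E4 k l i j =
      na n (c, i) k l * ((if k = x then 1 else 0) * (if l = y then 1 else 0) *
        (if i = z then 1 else 0)) +
      na n (c, i) k l * ((if k = y then 1 else 0) * (if l = z then 1 else 0) *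
        (if i = x then 1 else 0)) +
      na n (c, i) k l * ((if k = z then 1 else 0) * (if l = x then 1 else 0) *
        (if i = y then 1 else 0)) -
      na n (c, i) k l * ((if k = y then 1 else 0) * (if l = x then 1 else 0) *
        (if i = z then 1 else 0)) -
      na n (c, i) k l * ((if k = x then 1 else 0) * (if l = z then 1 else 0) *
        (if i = y then 1 else 0)) -
      na n (c, i) k l * ((if k = z then 1 else 0) * (if l = y then 1 else 0) *
        (if i = x then 1 else 0)) := by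
    intro i k l
    rw [E4_cyc]
    ring
  simp only [h4, Finset.sum_add_distrib, Finset.sum_sub_distrib] at h2
  rw [sum3_ite (fun i k l => na n (c, i) k l), sum3_ite (fun i k l => na n (c, i) k l),
    sum3_ite (fun i k l => na n (c, i) k l), sum3_ite (fun i k l => na n (c, i) k l),
    sum3_ite (fun i k l => na n (c, i) k l), sum3_ite (fun i k l => na n (c, i) k l),
    na_swap n (c, z) x y, na_swap n (c, y) z x, na_swap n (c, x) y z] at h2
  linear_combination (1 / 2 : ℂ) * h2

/-- the Hermitian form of the mixed block, polarised -/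
noncomputable def MB (m : S → S → ℂ) (x y : S → ℂ) : ℂ := ∑ s, ∑ t, m s t * (x s * conj (y t))

lemma MM_pol (m : S → S → ℂ) (x y : S → ℂ) :
    MM m (fun s => x s + y s) - MM m (fun s => x s - y s) = 2 * (MB m x y + MB m y x).re := by
  have h2 : (2 : ℝ) * (MB m x y + MB m y x).re = (2 * (MB m x y + MB m y x)).re := by
    have : (2 : ℂ) = ((2 : ℝ) : ℂ) := by norm_num
    rw [this, Complex.re_ofReal_mul]
  rw [h2]
  unfold MM MB
  rw [← Complex.sub_re]
  congr 1
  simp only [← Finset.sum_sub_distrib, ← Finset.sum_add_distrib, Finset.mul_sum, map_add, map_sub]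
  exact Finset.sum_congr rfl fun s _ => Finset.sum_congr rfl fun t _ => by ring

/-- the vectors `Y` -/
noncomputable def Yv (N : S → K 2 → K 2 → ℂ) (a b t : S) : ℂ := sg t.1 a.1 * N b t.2 a.2

lemma G3_234' {H : Ix 2 → Ix 2 → Ix 2 → Ix 2 → ℂ} (hH : HS H) :
    G3 H 2 3 4 = 64 * ∑ a, ∑ b, MB (bm H) (fun s => conj (Yv (na (bn H)) a b s))
      (fun s => conj (Yv (na (bn H)) b a s)) := by
  rw [G3_234 hH]
  have h1 : ∀ (x : S × S) (a b : S), ∑ q : T6, ∑ p : T6, bm H x.1 x.2 * bn H a q *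
      conj (bn H b p) * (se x.1 a p * se x.2 b q) =
      4 * (bm H x.1 x.2 * (conj (Yv (na (bn H)) a b x.1) * Yv (na (bn H)) b a x.2)) := by
    intro x a b
    have e1 : ∑ q : T6, bn H a q * se x.2 b q = 2 * Yv (na (bn H)) b a x.2 := by
      unfold Yv se
      rw [mul_left_comm, ← na_sum, Finset.mul_sum]
      exact Finset.sum_congr rfl fun q _ => by ring
    have e2 : ∑ p : T6, conj (bn H b p) * se x.1 a p = 2 * conj (Yv (na (bn H)) a b x.1) := by
      unfold Yv se
      rw [map_mul, mul_left_comm]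
      have := congrArg conj (na_sum (bn H) b x.1.2 a.2)
      rw [map_mul, map_sum] at this
      simp only [map_mul, E4_conj, Complex.conj_ofNat] at this
      rw [← this, Finset.mul_sum, sg_conj]
      exact Finset.sum_congr rfl fun q _ => by ring
    have e3 : 4 * (bm H x.1 x.2 * (conj (Yv (na (bn H)) a b x.1) * Yv (na (bn H)) b a x.2)) =
        bm H x.1 x.2 * ((2 * Yv (na (bn H)) b a x.2) * (2 * conj (Yv (na (bn H)) a b x.1))) := by
      ring
    rw [e3, ← e1, ← e2, Finset.sum_mul_sum, Finset.mul_sum]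
    refine Finset.sum_congr rfl fun q _ => ?_
    rw [Finset.mul_sum]
    exact Finset.sum_congr rfl fun p _ => by ring
  have h2 : ∑ x : S × S, ∑ y : S × T6, ∑ z : S × T6, bm H x.1 x.2 * bn H y.1 y.2 *
      conj (bn H z.1 z.2) * (se x.1 y.1 z.2 * se x.2 z.1 y.2) =
      ∑ x : S × S, ∑ a, ∑ b, 4 * (bm H x.1 x.2 * (conj (Yv (na (bn H)) a b x.1) *
        Yv (na (bn H)) b a x.2)) := by
    refine Finset.sum_congr rfl fun x _ => ?_
    simp only [Fintype.sum_prod_type (α₁ := S)]
    refine Finset.sum_congr rfl fun a _ => ?_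
    rw [Finset.sum_comm]
    exact Finset.sum_congr rfl fun b _ => h1 x a b
  rw [h2]
  have h3 : ∑ x : S × S, ∑ a, ∑ b, 4 * (bm H x.1 x.2 * (conj (Yv (na (bn H)) a b x.1) *
        Yv (na (bn H)) b a x.2)) = 4 * ∑ a, ∑ b, ∑ x : S × S, (bm H x.1 x.2 *
          (conj (Yv (na (bn H)) a b x.1) * Yv (na (bn H)) b a x.2)) := by
    rw [Finset.mul_sum, Finset.sum_comm]
    refine Finset.sum_congr rfl fun a _ => ?_
    rw [Finset.mul_sum, Finset.sum_comm]
    refine Finset.sum_congr rfl fun b _ => ?_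
    rw [Finset.mul_sum]
  rw [h3, ← mul_assoc]
  have h4 : (16 : ℂ) * 4 = 64 := by norm_num
  rw [h4]
  congr 1
  refine Finset.sum_congr rfl fun a _ => Finset.sum_congr rfl fun b _ => ?_
  unfold MB
  rw [Fintype.sum_prod_type (α₁ := S)]
  exact Finset.sum_congr rfl fun s _ => Finset.sum_congr rfl fun t _ => by
    rw [Complex.conj_conj]

lemma cyc_norm (T : K 2 → K 2 → K 2 → ℂ) (ha : ∀ m k l, T m l k = -T m k l)
    (hc : ∀ x y z, T z x y + T x y z + T y z x = 0) :
    2 * ∑ m, ∑ k, ∑ l, T m k l * conj (T l k m) = ∑ m, ∑ k, ∑ l, T m k l * conj (T m k l) := by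
  have h1 : ∑ m, ∑ k, ∑ l, T m k l * conj (T l k m) =
      ∑ m, ∑ k, ∑ l, T m k l * conj (T m k l) - ∑ m, ∑ k, ∑ l, T m k l * conj (T k m l) := by
    simp only [← Finset.sum_sub_distrib]
    refine Finset.sum_congr rfl fun m _ => Finset.sum_congr rfl fun k _ =>
      Finset.sum_congr rfl fun l _ => ?_
    have e1 : T l k m = T m k l - T k m l := by
      have := hc k m l
      rw [ha m k l] at this
      linear_combination this
    rw [e1, map_sub]
    ring
  have h2 : ∑ m, ∑ k, ∑ l, T m k l * conj (T l k m) =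
      ∑ m, ∑ k, ∑ l, T m k l * conj (T k m l) := by
    refine Finset.sum_congr rfl fun m _ => ?_
    rw [Finset.sum_comm]
    refine Finset.sum_congr rfl fun k _ => Finset.sum_congr rfl fun l _ => ?_
    rw [ha m k l, ha k m l, map_neg]
    ring
  rw [← h2] at h1
  linear_combination h1

/-- the squared norm of the arrays -/
noncomputable def n2 (N : S → K 2 → K 2 → ℂ) : ℝ := ∑ s, ∑ k, ∑ l, ‖N s k l‖ ^ 2

lemma n2_nonneg (N : S → K 2 → K 2 → ℂ) : 0 ≤ n2 N :=
  Finset.sum_nonneg fun _ _ => Finset.sum_nonneg fun _ _ => Finset.sum_nonneg fun _ _ =>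
    by positivity

lemma n2_c (N : S → K 2 → K 2 → ℂ) : ((n2 N : ℝ) : ℂ) =
    ∑ s, ∑ k, ∑ l, N s k l * conj (N s k l) := by
  unfold n2
  push_cast
  refine Finset.sum_congr rfl fun s _ => Finset.sum_congr rfl fun k _ =>
    Finset.sum_congr rfl fun l _ => ?_
  rw [Complex.mul_conj, Complex.normSq_eq_norm_sq]
  push_cast
  rfl

lemma Yv_norm (N : S → K 2 → K 2 → ℂ) :
    ∑ a, ∑ b, ∑ t, Yv N a b t * conj (Yv N a b t) = 2 * ((n2 N : ℝ) : ℂ) := by
  rw [n2_c]
  have h1 : ∀ b, ∑ a, ∑ t, Yv N a b t * conj (Yv N a b t) =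
      2 * ∑ k, ∑ l, N b k l * conj (N b k l) := by
    intro b
    simp only [sumS, Yv, sg, zero_mul, map_zero, mul_zero, Finset.sum_const_zero, zero_add,
      add_zero, one_mul, neg_mul, mul_neg, map_neg, neg_neg]
    rw [Finset.sum_comm]
    ring
  rw [Finset.sum_comm, Finset.mul_sum]
  exact Finset.sum_congr rfl fun b _ => h1 b

lemma Yv_inner (N : S → K 2 → K 2 → ℂ) (ha : ∀ s k l, N s l k = -N s k l)
    (hc : ∀ c x y z, N (c, z) x y + N (c, x) y z + N (c, y) z x = 0) :
    2 * ∑ a, ∑ b, ∑ t, Yv N a b t * conj (Yv N b a t) = ((n2 N : ℝ) : ℂ) := by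
  rw [n2_c, sumS (fun s => ∑ k, ∑ l, N s k l * conj (N s k l)),
    ← cyc_norm (fun m k l => N (false, m) k l) (fun m k l => ha _ k l) (fun x y z => hc false x y z),
    ← cyc_norm (fun m k l => N (true, m) k l) (fun m k l => ha _ k l) (fun x y z => hc true x y z),
    ← mul_add]
  congr 1
  simp only [sumS, Yv, sg, zero_mul, map_zero, mul_zero, Finset.sum_const_zero, zero_add,
      add_zero, one_mul, neg_mul, mul_neg, map_neg, neg_neg, neg_zero]
  have e : ∀ F : K 2 → K 2 → K 2 → ℂ, ∑ a, ∑ b, ∑ t, F a b t = ∑ m, ∑ k, ∑ l, F l m k := by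
    intro F
    rw [Finset.sum_comm]
    refine Finset.sum_congr rfl fun m _ => ?_
    rw [Finset.sum_comm]
  rw [e (fun a b t => N (false, b) t a * conj (N (false, a) t b)),
    e (fun a b t => N (true, b) t a * conj (N (true, a) t b))]

/-- **The quadratic term with a pinched mixed block.** -/
lemma mix_bound {H : Ix 2 → Ix 2 → Ix 2 → Ix 2 → ℂ} (hH : HS H) (μ1 μ2 : ℝ)
    (h1 : ∀ x : S → ℂ, μ1 * ∑ s, ‖x s‖ ^ 2 ≤ MM (bm H) x)
    (h2 : ∀ x : S → ℂ, MM (bm H) x ≤ μ2 * ∑ s, ‖x s‖ ^ 2)
    (ht : ∀ c j, ∑ i, bn H (c, i) (i, j) = 0) :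
    16 * (5 * μ1 - 3 * μ2) * n2 (na (bn H)) ≤ (G3 H 2 3 4).re := by
  obtain ⟨N, hN⟩ : ∃ N, N = na (bn H) := ⟨_, rfl⟩
  have hn : ∀ s i j, bn H s (j, i) = -bn H s (i, j) := fun s i j => alt_r hH _ _ _ _
  have ha : ∀ s k l, N s l k = -N s k l := fun s k l => by rw [hN]; exact na_swap _ _ _ _
  have hc : ∀ c x y z, N (c, z) x y + N (c, x) y z + N (c, y) z x = 0 := by
    intro c x y z
    rw [hN]
    exact cyc (bn H) hn ht c x y z
  have e1 := Yv_norm N
  have e2 := Yv_inner N ha hc
  have e3 : ∀ a b, μ1 * ∑ s, ‖conj (Yv N a b s) + conj (Yv N b a s)‖ ^ 2 -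
      μ2 * ∑ s, ‖conj (Yv N a b s) - conj (Yv N b a s)‖ ^ 2 ≤
      2 * (MB (bm H) (fun s => conj (Yv N a b s)) (fun s => conj (Yv N b a s)) +
        MB (bm H) (fun s => conj (Yv N b a s)) (fun s => conj (Yv N a b s))).re := by
    intro a b
    rw [← MM_pol]
    have := h1 (fun s => conj (Yv N a b s) + conj (Yv N b a s))
    have := h2 (fun s => conj (Yv N a b s) - conj (Yv N b a s))
    linarith
  have e4 : ∑ a, ∑ b, (MB (bm H) (fun s => conj (Yv N a b s)) (fun s => conj (Yv N b a s)) +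
        MB (bm H) (fun s => conj (Yv N b a s)) (fun s => conj (Yv N a b s))).re =
      2 * (∑ a, ∑ b, MB (bm H) (fun s => conj (Yv N a b s)) (fun s => conj (Yv N b a s))).re := by
    simp only [Complex.add_re, Finset.sum_add_distrib, Complex.re_sum]
    rw [Finset.sum_comm (f := fun a b => (MB (bm H) (fun s => conj (Yv N b a s))
      (fun s => conj (Yv N a b s))).re)]
    ring
  have e5 := Finset.sum_le_sum fun a (_ : a ∈ (univ : Finset S)) =>
    Finset.sum_le_sum fun b (_ : b ∈ (univ : Finset S)) => e3 a b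
  rw [show (∑ a, ∑ b, 2 * (MB (bm H) (fun s => conj (Yv N a b s)) (fun s => conj (Yv N b a s)) +
        MB (bm H) (fun s => conj (Yv N b a s)) (fun s => conj (Yv N a b s))).re) =
        2 * ∑ a, ∑ b, (MB (bm H) (fun s => conj (Yv N a b s)) (fun s => conj (Yv N b a s)) +
        MB (bm H) (fun s => conj (Yv N b a s)) (fun s => conj (Yv N a b s))).re by
          simp only [Finset.mul_sum], e4] at e5
  have e6 : ∀ ε : ℝ, ε ^ 2 = 1 → ∑ a, ∑ b, ∑ s, ‖conj (Yv N a b s) + ε * conj (Yv N b a s)‖ ^ 2 =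
      (4 + ε) * n2 N := by
    intro ε hε
    have f1 : (((∑ a, ∑ b, ∑ s, ‖conj (Yv N a b s) + ε * conj (Yv N b a s)‖ ^ 2 : ℝ)) : ℂ) =
        (((4 + ε) * n2 N : ℝ) : ℂ) := by
      push_cast
      have f2 : ∀ a b s, ((‖conj (Yv N a b s) + ε * conj (Yv N b a s)‖ : ℝ) : ℂ) ^ 2 =
          Yv N a b s * conj (Yv N a b s) + ε ^ 2 * (Yv N b a s * conj (Yv N b a s)) +
          ε * (Yv N a b s * conj (Yv N b a s)) + ε * (Yv N b a s * conj (Yv N a b s)) := by
        intro a b s
        have g : ∀ z : ℂ, ((‖z‖ : ℝ) : ℂ) ^ 2 = z * conj z := by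
          intro z
          rw [Complex.mul_conj, Complex.normSq_eq_norm_sq]
          push_cast
          rfl
        rw [g, map_add, map_mul, Complex.conj_conj, Complex.conj_conj, Complex.conj_ofReal]
        ring
      simp only [f2, Finset.sum_add_distrib, ← Finset.mul_sum]
      rw [Finset.sum_comm (f := fun a b => ∑ s, Yv N b a s * conj (Yv N b a s)),
        Finset.sum_comm (f := fun a b => ∑ s, Yv N b a s * conj (Yv N a b s)), e1]
      have hε' : (ε : ℂ) ^ 2 = 1 := by
        rw [← Complex.ofReal_pow, hε, Complex.ofReal_one]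
      rw [hε']
      linear_combination (ε : ℂ) * e2
    exact_mod_cast f1
  have e7 := e6 1 (by norm_num)
  have e8 := e6 (-1) (by norm_num)
  simp only [Complex.ofReal_one, one_mul, Complex.ofReal_neg, neg_mul, ← sub_eq_add_neg] at e7 e8
  have e9 : ∑ a, ∑ b, (μ1 * ∑ s, ‖conj (Yv N a b s) + conj (Yv N b a s)‖ ^ 2 -
      μ2 * ∑ s, ‖conj (Yv N a b s) - conj (Yv N b a s)‖ ^ 2) = (5 * μ1 - 3 * μ2) * n2 N := by
    simp only [Finset.sum_sub_distrib, ← Finset.mul_sum]
    rw [e7, e8]
    ring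
  rw [e9] at e5
  rw [G3_234' hH, ← hN]
  have h64 : (64 : ℂ) = ((64 : ℝ) : ℂ) := by norm_num
  rw [h64, Complex.re_ofReal_mul]
  linarith

end Pool.Agent.H85.FL
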