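import Pool.Agent.H85.Flat.Pin

/-!
# The cubic terms containing the plane-complement block
-/

set_option autoImplicit false
set_option linter.unusedSimpArgs false

namespace Pool.Agent.H85.FL

open Finset MeasureTheory Pool.Agent.TH598.GV Pool.Agent.R735.HA
open scoped ComplexConjugate ComplexOrder

lemma sumSR (F : S → ℝ) : ∑ s, F s = ∑ k : K 2, F (false, k) + ∑ k : K 2, F (true, k) := by
  rw [Fintype.sum_prod_type (α₁ := Bool), Fintype.sum_bool, add_comm]

lemma nsq (z : ℂ) : ((‖z‖ ^ 2 : ℝ) : ℂ) = z * conj z := by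
  rw [Complex.mul_conj, Complex.normSq_eq_norm_sq]

/-- squared norm -/
noncomputable def sq {I : Type} [Fintype I] (x : I → ℂ) : ℝ := ∑ i, ‖x i‖ ^ 2

lemma sq_nonneg' {I : Type} [Fintype I] (x : I → ℂ) : 0 ≤ sq x :=
  Finset.sum_nonneg fun _ _ => by positivity

lemma sq_c {I : Type} [Fintype I] (x : I → ℂ) : ((sq x : ℝ) : ℂ) = ∑ i, x i * conj (x i) := by
  unfold sq
  rw [Complex.ofReal_sum]
  exact Finset.sum_congr rfl fun i _ => nsq _

/-- the bilinear form of an array -/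
noncomputable def bi (b : T6 → ℂ) (x y : K 2 → ℂ) : ℂ := ∑ q : T6, b q * (x q.1 * y q.2)

/-- Lagrange's identity -/
lemma lagrange {I : Type} [Fintype I] (z w : I → ℂ) :
    ((sq z * sq w : ℝ) : ℂ) = (1 / 2) * ∑ k, ∑ l, ((‖z k * w l - z l * w k‖ ^ 2 : ℝ) : ℂ) +
      (∑ k, z k * conj (w k)) * (∑ k, w k * conj (z k)) := by
  have h1 : ∀ k l, ((‖z k * w l - z l * w k‖ ^ 2 : ℝ) : ℂ) =
      z k * conj (z k) * (w l * conj (w l)) + z l * conj (z l) * (w k * conj (w k)) -
      z k * conj (w k) * (w l * conj (z l)) - z l * conj (w l) * (w k * conj (z k)) := by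
    intro k l
    rw [nsq, map_sub, map_mul, map_mul]
    ring
  simp only [h1, Finset.sum_add_distrib, Finset.sum_sub_distrib]
  have h2 : ∑ k, ∑ l, z l * conj (z l) * (w k * conj (w k)) =
      ∑ k, ∑ l, z k * conj (z k) * (w l * conj (w l)) := Finset.sum_comm
  have h3 : ∑ k, ∑ l, z l * conj (w l) * (w k * conj (z k)) =
      ∑ k, ∑ l, z k * conj (w k) * (w l * conj (z l)) := Finset.sum_comm
  rw [h2, h3]
  push_cast
  rw [sq_c, sq_c, Finset.sum_mul_sum, Finset.sum_mul_sum]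
  ring

lemma bi_self {b : T6 → ℂ} (hb : ∀ i j, b (j, i) = -b (i, j)) (z : K 2 → ℂ) : bi b z z = 0 := by
  have h : bi b z z = -bi b z z := by
    conv_lhs => rw [bi, Fintype.sum_prod_type (α₁ := K 2), Finset.sum_comm]
    unfold bi
    rw [Fintype.sum_prod_type (α₁ := K 2), ← Finset.sum_neg_distrib]
    refine Finset.sum_congr rfl fun k _ => ?_
    rw [← Finset.sum_neg_distrib]
    refine Finset.sum_congr rfl fun l _ => ?_
    rw [hb k l]
    ring
  have h2 : (2 : ℂ) * bi b z z = 0 := by linear_combination h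
  rcases mul_eq_zero.1 h2 with h3 | h3
  · norm_num at h3
  · exact h3

/-- bound through the Gram determinant -/
lemma gram {b : T6 → ℂ} (hb : ∀ i j, b (j, i) = -b (i, j)) (r : ℝ)
    (h : ∀ x y : K 2 → ℂ, ‖bi b x y‖ ^ 2 ≤ r ^ 2 * (sq x * sq y)) (z w : K 2 → ℂ) :
    ‖bi b z w‖ ^ 2 ≤ r ^ 2 * ((1 / 2) * ∑ k, ∑ l, ‖z k * w l - z l * w k‖ ^ 2) := by
  by_cases hz : sq z = 0
  · have h1 := h z w
    rw [hz, zero_mul, mul_zero] at h1
    refine h1.trans ?_
    have : 0 ≤ ∑ k, ∑ l, ‖z k * w l - z l * w k‖ ^ 2 :=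
      Finset.sum_nonneg fun _ _ => Finset.sum_nonneg fun _ _ => by positivity
    positivity
  · obtain ⟨c, hc⟩ : ∃ c : ℂ, c = (∑ k, w k * conj (z k)) / ((sq z : ℝ) : ℂ) := ⟨_, rfl⟩
    have hz' : ((sq z : ℝ) : ℂ) ≠ 0 := by exact_mod_cast hz
    have h1 : bi b z (fun k => w k - c * z k) = bi b z w := by
      have h2 : bi b z (fun k => w k - c * z k) = bi b z w - c * bi b z z := by
        unfold bi
        rw [Finset.mul_sum, ← Finset.sum_sub_distrib]
        exact Finset.sum_congr rfl fun q _ => by ring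
      rw [h2, bi_self hb, mul_zero, sub_zero]
    have h2 := h z (fun k => w k - c * z k)
    rw [h1] at h2
    have h3 := lagrange z (fun k => w k - c * z k)
    have h4 : ∑ k, (w k - c * z k) * conj (z k) = 0 := by
      simp only [sub_mul, Finset.sum_sub_distrib]
      have : ∑ k, c * z k * conj (z k) = c * ((sq z : ℝ) : ℂ) := by
        rw [sq_c, Finset.mul_sum]
        exact Finset.sum_congr rfl fun k _ => by ring
      rw [this, hc, div_mul_cancel₀ _ hz', sub_self]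
    rw [h4, mul_zero, add_zero] at h3
    have h5 : ∀ k l, z k * (w l - c * z l) - z l * (w k - c * z k) = z k * w l - z l * w k := by
      intro k l
      ring
    simp only [h5] at h3
    have h6 : sq z * sq (fun k => w k - c * z k) =
        (1 / 2) * ∑ k, ∑ l, ‖z k * w l - z l * w k‖ ^ 2 := by
      have h7 : (((1 / 2) * ∑ k, ∑ l, ‖z k * w l - z l * w k‖ ^ 2 : ℝ) : ℂ) =
          (1 / 2) * ∑ k, ∑ l, ((‖z k * w l - z l * w k‖ ^ 2 : ℝ) : ℂ) := by
        push_cast
        rfl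
      rw [← h7] at h3
      exact_mod_cast h3
    rw [h6] at h2
    exact h2

lemma rr_norm (x y : K 2 → ℂ) : ∑ p : T6, ‖rr x y p.1 p.2‖ ^ 2 ≤ 2 * (sq x * sq y) := by
  have h1 : ∀ p : T6, ((‖rr x y p.1 p.2‖ ^ 2 : ℝ) : ℂ) = ∑ k, ∑ l, ∑ k', ∑ l',
      (E4 p.1 p.2 k l * E4 p.1 p.2 k' l') * (x k * y l * (conj (x k') * conj (y l'))) := by
    intro p
    rw [nsq]
    unfold rr
    simp only [map_sum, map_mul, E4_conj]
    rw [← Pool.Agent.TH367.J4006.mul4]
    refine Finset.sum_congr rfl fun k _ => Finset.sum_congr rfl fun l _ =>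
      Finset.sum_congr rfl fun k' _ => Finset.sum_congr rfl fun l' _ => by ring
  have h2 : ((∑ p : T6, ‖rr x y p.1 p.2‖ ^ 2 : ℝ) : ℂ) = ∑ k, ∑ l, ∑ k', ∑ l',
      (2 * ((if k = k' then 1 else 0) * (if l = l' then 1 else 0) -
      (if k = l' then 1 else 0) * (if l = k' then 1 else 0))) *
        (x k * y l * (conj (x k') * conj (y l'))) := by
    rw [Complex.ofReal_sum]
    simp only [h1]
    rw [← Pool.Agent.TH367.J4006.swap4 (fun (p : T6) k l k' l' =>
      (E4 p.1 p.2 k l * E4 p.1 p.2 k' l') * (x k * y l * (conj (x k') * conj (y l'))))]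
    refine Finset.sum_congr rfl fun k _ => Finset.sum_congr rfl fun l _ =>
      Finset.sum_congr rfl fun k' _ => Finset.sum_congr rfl fun l' _ => ?_
    rw [← Finset.sum_mul, E4_ss]
  have h3 : ∑ k, ∑ l, ∑ k', ∑ l',
      (2 * ((if k = k' then 1 else 0) * (if l = l' then 1 else 0) -
      (if k = l' then 1 else 0) * (if l = k' then 1 else 0))) *
        (x k * y l * (conj (x k') * conj (y l'))) =
      2 * (((sq x * sq y : ℝ) : ℂ) - (∑ k, x k * conj (y k)) * (∑ l, y l * conj (x l))) := by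
    have e : ∀ k l, ∑ k', ∑ l', (2 * ((if k = k' then (1 : ℂ) else 0) *
      (if l = l' then 1 else 0) - (if k = l' then 1 else 0) * (if l = k' then 1 else 0))) *
        (x k * y l * (conj (x k') * conj (y l'))) =
        2 * (x k * conj (x k) * (y l * conj (y l)) - x k * conj (y k) * (y l * conj (x l))) := by
      intro k l
      have e2 : ∀ k' l', (2 * ((if k = k' then (1 : ℂ) else 0) *
        (if l = l' then 1 else 0) - (if k = l' then 1 else 0) * (if l = k' then 1 else 0))) *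
        (x k * y l * (conj (x k') * conj (y l'))) =
        (if k = k' then (if l = l' then 2 * (x k * y l * (conj (x k') * conj (y l'))) else 0)
          else 0) -
        (if l = k' then (if k = l' then 2 * (x k * y l * (conj (x k') * conj (y l'))) else 0)
          else 0) := by
        intro k' l'
        split_ifs <;> ring
      simp only [e2, Finset.sum_sub_distrib, Finset.sum_ite_irrel, Finset.sum_const_zero,
        Finset.sum_ite_eq, Finset.mem_univ, if_true]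
      ring
    simp only [e, ← Finset.mul_sum, Finset.sum_sub_distrib]
    push_cast
    rw [sq_c, sq_c, Finset.sum_mul_sum, Finset.sum_mul_sum]
    simp only [← Finset.mul_sum]
  rw [h3] at h2
  have h4 : (∑ k, x k * conj (y k)) * (∑ l, y l * conj (x l)) =
      ((‖∑ k, x k * conj (y k)‖ ^ 2 : ℝ) : ℂ) := by
    rw [nsq, map_sum]
    congr 1
    exact Finset.sum_congr rfl fun l _ => by rw [map_mul, Complex.conj_conj, mul_comm]
  rw [h4] at h2
  have h5 : ∑ p : T6, ‖rr x y p.1 p.2‖ ^ 2 = 2 * (sq x * sq y - ‖∑ k, x k * conj (y k)‖ ^ 2) := by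
    exact_mod_cast h2
  rw [h5]
  have : 0 ≤ ‖∑ k, x k * conj (y k)‖ ^ 2 := by positivity
  linarith

/-- the bound passes to the dual array -/
lemma dual_bound {b : T6 → ℂ} (hb : ∀ i j, b (j, i) = -b (i, j)) (r : ℝ)
    (h : ∀ x y : K 2 → ℂ, ‖bi b x y‖ ^ 2 ≤ r ^ 2 * (sq x * sq y)) (x y : K 2 → ℂ) :
    ‖∑ q : T6, b q * rr x y q.1 q.2‖ ^ 2 ≤ 4 * (r ^ 2 * (sq x * sq y)) := by
  by_cases hr : ∃ i j, rr x y i j ≠ 0
  · obtain ⟨i, j, hij⟩ := hr
    have h1 : rr x y i j * ∑ q : T6, b q * rr x y q.1 q.2 =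
        2 * bi b (fun k => rr x y i k) (fun k => rr x y j k) := by
      rw [Finset.mul_sum]
      have e1 : ∀ q : T6, rr x y i j * (b q * rr x y q.1 q.2) =
          b q * (rr x y i q.1 * rr x y j q.2) + b (q.2, q.1) * (rr x y i q.2 * rr x y j q.1) := by
        intro q
        have := rr_plucker x y i j q.1 q.2
        have e2 : b (q.2, q.1) = -b q := hb q.1 q.2
        rw [e2]
        linear_combination (b q) * this
      simp only [e1, Finset.sum_add_distrib]
      have e3 : ∑ q : T6, b (q.2, q.1) * (rr x y i q.2 * rr x y j q.1) =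
          ∑ q : T6, b q * (rr x y i q.1 * rr x y j q.2) := by
        rw [Fintype.sum_prod_type (α₁ := K 2), Fintype.sum_prod_type (α₁ := K 2),
          Finset.sum_comm]
      rw [e3]
      unfold bi
      ring
    have h2 := gram hb r h (fun k => rr x y i k) (fun k => rr x y j k)
    have h3 : ∑ k, ∑ l, ‖rr x y i k * rr x y j l - rr x y i l * rr x y j k‖ ^ 2 =
        ‖rr x y i j‖ ^ 2 * ∑ p : T6, ‖rr x y p.1 p.2‖ ^ 2 := by
      rw [Finset.mul_sum, Fintype.sum_prod_type (α₁ := K 2)]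
      refine Finset.sum_congr rfl fun k _ => Finset.sum_congr rfl fun l _ => ?_
      rw [← rr_plucker, norm_mul, mul_pow]
    rw [h3] at h2
    have h4 := rr_norm x y
    have h5 : 0 < ‖rr x y i j‖ ^ 2 := by positivity
    have h6 : ‖rr x y i j‖ ^ 2 * ‖∑ q : T6, b q * rr x y q.1 q.2‖ ^ 2 =
        4 * ‖bi b (fun k => rr x y i k) (fun k => rr x y j k)‖ ^ 2 := by
      rw [← mul_pow, ← norm_mul, h1, norm_mul, mul_pow]
      norm_num
    refine le_of_mul_le_mul_left (a := ‖rr x y i j‖ ^ 2) ?_ h5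
    rw [h6]
    have h7 : r ^ 2 * (1 / 2 * (‖rr x y i j‖ ^ 2 * ∑ p : T6, ‖rr x y p.1 p.2‖ ^ 2)) ≤
        r ^ 2 * (1 / 2 * (‖rr x y i j‖ ^ 2 * (2 * (sq x * sq y)))) := by
      have hr2 : 0 ≤ r ^ 2 := by positivity
      exact mul_le_mul_of_nonneg_left (mul_le_mul_of_nonneg_left
        (mul_le_mul_of_nonneg_left h4 h5.le) (by norm_num)) hr2
    linarith
  · push Not at hr
    simp only [hr, mul_zero, Finset.sum_const_zero, norm_zero]
    have h0 : 0 ≤ 4 * (r ^ 2 * (sq x * sq y)) := mul_nonneg (by norm_num)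
      (mul_nonneg (by positivity) (mul_nonneg (sq_nonneg' x) (sq_nonneg' y)))
    simpa using h0

/-- the bound for the dual of the plane-complement block -/
lemma gs_bound {b : T6 → ℂ} (hb : ∀ i j, b (j, i) = -b (i, j)) (r : ℝ) (hr : 0 ≤ r)
    (h : ∀ x y : K 2 → ℂ, ‖bi b x y‖ ^ 2 ≤ r ^ 2 * (sq x * sq y)) (x y : K 2 → ℂ) :
    ‖∑ q : T6, gs b q * (x q.1 * y q.2)‖ ≤ r * (sq x + sq y) := by
  have h1 := dual_bound hb r h (fun k => conj (x k)) (fun k => conj (y k))
  have e1 : ∀ z : K 2 → ℂ, sq (fun k => conj (z k)) = sq z := by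
    intro z
    unfold sq
    simp only [RCLike.norm_conj]
  rw [e1, e1] at h1
  have h2 : ∑ q : T6, gs b q * (x q.1 * y q.2) =
      conj (∑ q : T6, b q * rr (fun k => conj (x k)) (fun k => conj (y k)) q.1 q.2) := by
    unfold gs rr
    simp only [map_sum, map_mul, E4_conj, Complex.conj_conj, Finset.mul_sum, Finset.sum_mul]
    rw [Finset.sum_comm]
    refine Finset.sum_congr rfl fun p _ => ?_
    rw [Fintype.sum_prod_type (α₁ := K 2)]
    refine Finset.sum_congr rfl fun k _ => Finset.sum_congr rfl fun l _ => ?_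
    ring
  have h3 : ‖∑ q : T6, gs b q * (x q.1 * y q.2)‖ ^ 2 ≤ 4 * (r ^ 2 * (sq x * sq y)) := by
    rw [h2, RCLike.norm_conj]
    exact h1
  have h4 : 4 * (r ^ 2 * (sq x * sq y)) ≤ (r * (sq x + sq y)) ^ 2 := by
    have := sq_nonneg (sq x - sq y)
    have hr2 : 0 ≤ r ^ 2 := by positivity
    nlinarith [mul_nonneg hr2 this]
  have h5 : 0 ≤ r * (sq x + sq y) := mul_nonneg hr (add_nonneg (sq_nonneg' x) (sq_nonneg' y))
  exact le_of_sq_le_sq (h3.trans h4) h5

/-- the duality is isometric -/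
lemma na_iso (n : S → T6 → ℂ) (hn : ∀ s i j, n s (j, i) = -n s (i, j)) (s : S) :
    ∑ k, ∑ l, ‖na n s k l‖ ^ 2 = ∑ q : T6, ‖n s q‖ ^ 2 := by
  have h1 : ((∑ k, ∑ l, ‖na n s k l‖ ^ 2 : ℝ) : ℂ) = ((∑ q : T6, ‖n s q‖ ^ 2 : ℝ) : ℂ) := by
    rw [Complex.ofReal_sum, Complex.ofReal_sum]
    simp only [Complex.ofReal_sum, nsq]
    have e1 : ∀ k l, conj (na n s k l) = ∑ p : T6, (1 / 2) * (conj (n s p) * E4 k l p.1 p.2) := by
      intro k l
      unfold na
      rw [map_mul, map_sum, Finset.mul_sum]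
      refine Finset.sum_congr rfl fun p _ => ?_
      rw [map_mul, E4_conj, E4_pair k l p.1 p.2, map_div₀, map_one, Complex.conj_ofNat]
    have e2 : ∑ k, ∑ l, na n s k l * conj (na n s k l) =
        ∑ p : T6, (1 / 2) * (conj (n s p) * ∑ k, ∑ l, na n s k l * E4 k l p.1 p.2) := by
      simp only [e1, Finset.mul_sum]
      rw [sw3]
      refine Finset.sum_congr rfl fun p _ => Finset.sum_congr rfl fun k _ =>
        Finset.sum_congr rfl fun l _ => by ring
    rw [e2]
    simp only [na_inv n hn]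
    exact Finset.sum_congr rfl fun p _ => by ring
  exact_mod_cast h1

lemma G3_133' {H : Ix 2 → Ix 2 → Ix 2 → Ix 2 → ℂ} (hH : HS H) :
    G3 H 1 3 3 = -32 * ∑ q : T6, ∑ p : T6, gs (bc H) p *
      (bn H (false, p.1) q * na (bn H) (true, p.2) q.1 q.2) := by
  rw [G3_133 hH]
  have h1 : ∀ s t : S, ∑ q : T6, ∑ q' : T6, bn H s q * bn H t q' * E4 q.1 q.2 q'.1 q'.2 =
      2 * ∑ q : T6, bn H s q * na (bn H) t q.1 q.2 := by
    intro s t
    rw [Finset.mul_sum]
    refine Finset.sum_congr rfl fun q _ => ?_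
    rw [mul_left_comm, ← na_sum, Finset.mul_sum]
    refine Finset.sum_congr rfl fun q' _ => ?_
    rw [E4_pair q.1 q.2 q'.1 q'.2]
    ring
  have h1s : ∀ s t : S, ∑ q : T6, bn H s q * na (bn H) t q.1 q.2 =
      ∑ q : T6, bn H t q * na (bn H) s q.1 q.2 := by
    intro s t
    have e1 := h1 s t
    have e2 := h1 t s
    have e3 : ∑ q : T6, ∑ q' : T6, bn H s q * bn H t q' * E4 q.1 q.2 q'.1 q'.2 =
        ∑ q : T6, ∑ q' : T6, bn H t q * bn H s q' * E4 q.1 q.2 q'.1 q'.2 := by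
      rw [Finset.sum_comm]
      refine Finset.sum_congr rfl fun q _ => Finset.sum_congr rfl fun q' _ => ?_
      rw [E4_pair q.1 q.2 q'.1 q'.2]
      ring
    rw [e1, e2] at e3
    exact mul_left_cancel₀ two_ne_zero e3
  have h2 : ∑ p : T6, ∑ x : S × T6, ∑ y : S × T6,
      conj (bc H p) * bn H x.1 x.2 * bn H y.1 y.2 *
        (se x.1 y.1 p * E4 x.2.1 x.2.2 y.2.1 y.2.2) =
      ∑ p : T6, conj (bc H p) * ∑ s, ∑ t, se s t p *
        (2 * ∑ q : T6, bn H s q * na (bn H) t q.1 q.2) := by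
    refine Finset.sum_congr rfl fun p _ => ?_
    simp only [Fintype.sum_prod_type (α₁ := S)]
    rw [Finset.mul_sum]
    refine Finset.sum_congr rfl fun s _ => ?_
    rw [Finset.sum_comm, Finset.mul_sum]
    refine Finset.sum_congr rfl fun t _ => ?_
    rw [← h1, Finset.mul_sum, Finset.mul_sum]
    refine Finset.sum_congr rfl fun q _ => ?_
    rw [Finset.mul_sum, Finset.mul_sum]
    exact Finset.sum_congr rfl fun q' _ => by ring
  rw [h2]
  have h3 : ∀ p : T6, ∑ s, ∑ t, se s t p * (2 * ∑ q : T6, bn H s q * na (bn H) t q.1 q.2) =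
      4 * ∑ k, ∑ l, E4 p.1 p.2 k l * ∑ q : T6, bn H (false, k) q *
        na (bn H) (true, l) q.1 q.2 := by
    intro p
    rw [se_sum (fun s t => 2 * ∑ q : T6, bn H s q * na (bn H) t q.1 q.2), Finset.mul_sum]
    refine Finset.sum_congr rfl fun k _ => ?_
    rw [Finset.mul_sum]
    refine Finset.sum_congr rfl fun l _ => ?_
    rw [h1s (true, l) (false, k)]
    ring
  simp only [h3]
  have h4 : ∑ q : T6, ∑ p : T6, gs (bc H) p *
      (bn H (false, p.1) q * na (bn H) (true, p.2) q.1 q.2) =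
      ∑ p : T6, gs (bc H) p * ∑ q : T6, bn H (false, p.1) q * na (bn H) (true, p.2) q.1 q.2 := by
    rw [Finset.sum_comm]
    exact Finset.sum_congr rfl fun p _ => by rw [Finset.mul_sum]
  rw [h4]
  have h5 : ∑ p : T6, conj (bc H p) * (4 * ∑ k, ∑ l, E4 p.1 p.2 k l * ∑ q : T6,
      bn H (false, k) q * na (bn H) (true, l) q.1 q.2) =
      4 * ∑ p : T6, gs (bc H) p * ∑ q : T6, bn H (false, p.1) q *
        na (bn H) (true, p.2) q.1 q.2 := by
    unfold gs
    simp only [Finset.sum_mul]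
    rw [Finset.sum_comm, Finset.mul_sum]
    refine Finset.sum_congr rfl fun p _ => ?_
    rw [Fintype.sum_prod_type (α₁ := K 2), mul_left_comm, Finset.mul_sum]
    congr 1
    refine Finset.sum_congr rfl fun k _ => ?_
    rw [Finset.mul_sum]
    exact Finset.sum_congr rfl fun l _ => by ring
  rw [h5]
  ring

/-- **The cubic terms containing the plane-complement block.** -/
lemma cub_bound {H : Ix 2 → Ix 2 → Ix 2 → Ix 2 → ℂ} (hH : HS H) (r : ℝ) (hr : 0 ≤ r)
    (h : ∀ x y : K 2 → ℂ, ‖bi (bc H) x y‖ ^ 2 ≤ r ^ 2 * (sq x * sq y)) :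
    -(32 * r * n2 (na (bn H))) ≤ (G3 H 1 3 3).re := by
  have hn : ∀ s i j, bn H s (j, i) = -bn H s (i, j) := fun s i j => alt_r hH _ _ _ _
  have hb : ∀ i j, bc H (j, i) = -bc H (i, j) := fun i j => alt_r hH _ _ _ _
  obtain ⟨X, hX⟩ : ∃ X : ℂ, X = ∑ q : T6, ∑ p : T6, gs (bc H) p *
      (bn H (false, p.1) q * na (bn H) (true, p.2) q.1 q.2) := ⟨_, rfl⟩
  have h1 : ‖X‖ ≤ r * n2 (na (bn H)) := by
    have h2 : ‖X‖ ≤ ∑ q : T6, r * (sq (fun k => bn H (false, k) q) +
        sq (fun l => na (bn H) (true, l) q.1 q.2)) := by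
      rw [hX]
      refine (norm_sum_le _ _).trans (Finset.sum_le_sum fun q _ => ?_)
      exact gs_bound hb r hr h (fun k => bn H (false, k) q)
        (fun l => na (bn H) (true, l) q.1 q.2)
    refine h2.trans (le_of_eq ?_)
    rw [← Finset.mul_sum, Finset.sum_add_distrib]
    congr 1
    unfold n2 sq
    have e1 : ∑ s, ∑ k, ∑ l, ‖na (bn H) s k l‖ ^ 2 =
        ∑ a, (∑ k, ∑ l, ‖na (bn H) (false, a) k l‖ ^ 2) +
        ∑ a, ∑ k, ∑ l, ‖na (bn H) (true, a) k l‖ ^ 2 := by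
      exact sumSR (fun s => ∑ k, ∑ l, ‖na (bn H) s k l‖ ^ 2)
    rw [e1]
    congr 1
    · rw [Finset.sum_comm]
      exact Finset.sum_congr rfl fun a _ => (na_iso (bn H) hn (false, a)).symm
    · rw [Finset.sum_comm]
      exact Finset.sum_congr rfl fun a _ => by rw [Fintype.sum_prod_type (α₁ := K 2)]
  rw [G3_133' hH, ← hX]
  have h32 : (-32 : ℂ) = ((-32 : ℝ) : ℂ) := by norm_num
  rw [h32, Complex.re_ofReal_mul]
  have := (Complex.re_le_norm X).trans h1
  linarith

/-- **Nonnegativity for a pinched mixed block and a trace free mixed-complement block.** -/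
lemma pin_tf {H : Ix 2 → Ix 2 → Ix 2 → Ix 2 → ℂ} (hH : HS H)
    (hK : ∀ z w : Ix 2 → ℂ, 0 ≤ (qf H z w).re)
    (h0 : H (0, false) (0, true) (0, false) (0, true) = 0) (μ1 μ2 r : ℝ) (hr : 0 ≤ r)
    (h1 : ∀ x : S → ℂ, μ1 * sq x ≤ MM (bm H) x)
    (h2 : ∀ x : S → ℂ, MM (bm H) x ≤ μ2 * sq x)
    (hb : ∀ x y : K 2 → ℂ, ‖bi (bc H) x y‖ ^ 2 ≤ r ^ 2 * (sq x * sq y))
    (ht : ∀ c j, ∑ i, bn H (c, i) (i, j) = 0) (hp : 2 * r ≤ 5 * μ1 - 3 * μ2) :
    0 ≤ (GG H).re := by
  have hN := null_of_bp hH hK h0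
  have e1 := sep_nonneg hH hN hK
  have e2 := mix_bound hH μ1 μ2 h1 h2 ht
  have e3 := cub_bound hH r hr hb
  have e4 : (GG H).re = (6 * G3 H 0 1 5 + 3 * G3 H 2 2 5).re + 6 * (G3 H 1 3 3).re +
      6 * (G3 H 2 3 4).re := by
    rw [G3_main hN, G3_044 hH]
    have h6 : (6 : ℂ) = ((6 : ℝ) : ℂ) := by norm_num
    have h3 : (3 : ℂ) = ((3 : ℝ) : ℂ) := by norm_num
    rw [h6, h3]
    simp only [Complex.add_re, Complex.re_ofReal_mul, Complex.conj_re]
    ring
  have e5 := n2_nonneg (na (bn H))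
  rw [e4]
  nlinarith [mul_nonneg (sub_nonneg.2 hp) e5]

end Pool.Agent.H85.FL
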