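import Pool.Agent.H85.Flat.Form3
import Pool.Agent.H85.Flat.Abs

/-!
# The terms without the mixed-complement block
-/

set_option autoImplicit false

namespace Pool.Agent.H85.FL

open Finset MeasureTheory Pool.Agent.TH598.GV Pool.Agent.R735.HA
open scoped ComplexConjugate ComplexOrder

lemma bl_ot (a b z w : Ix 2 → ℂ) : bl (ot a b) z w =
    (∑ i, a i * z i) * (∑ j, b j * w j) - (∑ j, a j * w j) * (∑ i, b i * z i) := by
  unfold bl ot
  rw [Finset.sum_mul_sum, Finset.sum_mul_sum, Finset.sum_comm (s := univ) (t := univ)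
    (f := fun i j => a i * w i * (b j * z j)), ← Finset.sum_sub_distrib]
  refine Finset.sum_congr rfl fun i _ => ?_
  rw [← Finset.sum_sub_distrib]
  exact Finset.sum_congr rfl fun j _ => by ring

lemma sum_ev (c : Bool) (z : Ix 2 → ℂ) : ∑ i, ev c i * z i = z (0, c) := by
  unfold ev
  simp

lemma sum_dl (k : K 2) (z : Ix 2 → ℂ) : ∑ i, dl k i * z i = z (em k) := by
  unfold dl
  simp

lemma bl_P0 (z w : Ix 2 → ℂ) : bl P0 z w = z (0, false) * w (0, true) - w (0, false) * z (0, true) := by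
  rw [P0, bl_ot, sum_ev, sum_ev, sum_ev, sum_ev]

lemma bl_ms (s : S) (z w : Ix 2 → ℂ) : bl (ms s) z w =
    z (0, s.1) * w (em s.2) - w (0, s.1) * z (em s.2) := by
  rw [ms, bl_ot, sum_ev, sum_ev, sum_dl, sum_dl]

lemma ms_conj (s : S) (i j : Ix 2) : conj (ms s i j) = ms s i j := by
  unfold ms ot ev dl
  split_ifs <;> simp

lemma P0_conj (i j : Ix 2) : conj (P0 i j) = P0 i j := by
  unfold P0 ot ev
  split_ifs <;> simp

lemma qf_add {I : Type} [Fintype I] (H G : I → I → I → I → ℂ) (z w : I → ℂ) :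
    qf (fun i j k l => H i j k l + G i j k l) z w = qf H z w + qf G z w := by
  unfold qf
  simp only [add_mul, Finset.sum_add_distrib]

lemma qf_rk {A : Type} [Fintype A] (H : Ix 2 → Ix 2 → Ix 2 → Ix 2 → ℂ) (c : A → ℂ)
    (M N : A → Ix 2 → Ix 2 → ℂ) (hN : ∀ a i j, conj (N a i j) = N a i j)
    (h : ∀ i j k l, H i j k l = ∑ a, c a * M a i j * N a k l) (z w : Ix 2 → ℂ) :
    qf H z w = ∑ a, c a * bl (M a) z w * conj (bl (N a) z w) := by
  rw [← qf_rank c M N z w]
  congr 1
  funext i j k l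
  rw [h]
  exact Finset.sum_congr rfl fun a _ => by rw [hN]

/-- the Hermitian form through its blocks -/
lemma qf_blocks {H : Ix 2 → Ix 2 → Ix 2 → Ix 2 → ℂ} (hH : HS H) (hN : Null H)
    (z w : Ix 2 → ℂ) : (qf H z w).re =
      2 * (∑ q : T6, bc H q * bl P0 z w * conj (bl (wp q) z w)).re +
      (∑ x : S × S, bm H x.1 x.2 * bl (ms x.1) z w * conj (bl (ms x.2) z w)).re +
      2 * (∑ x : S × T6, bn H x.1 x.2 * bl (ms x.1) z w * conj (bl (wp x.2) z w)).re +
      (∑ x : T6 × T6, bo H x.1 x.2 * bl (wp x.1) z w * conj (bl (wp x.2) z w)).re := by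
  have h1 : qf H z w = ∑ t, qf (blk H t) z w := by
    have e : H = fun i j k l => ∑ t, blk H t i j k l := by
      funext i j k l
      exact blk_sum hN i j k l
    conv_lhs => rw [e]
    simp only [Fin.sum_univ_six, qf_add]
  rw [h1, Fin.sum_univ_six]
  rw [qf_rk (blk H 0) (fun q : T6 => bc H q) (fun _ => P0) wp (fun a i j => conj_wp a i j)
      (blk0 hH),
    qf_rk (blk H 1) (fun q : T6 => conj (bc H q)) wp (fun _ => P0) (fun a i j => P0_conj i j)
      (blk1 hH),
    qf_rk (blk H 2) (fun x : S × S => bm H x.1 x.2) (fun x => ms x.1) (fun x => ms x.2)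
      (fun a i j => ms_conj _ i j) (blk2 hH),
    qf_rk (blk H 3) (fun x : S × T6 => bn H x.1 x.2) (fun x => ms x.1) (fun x => wp x.2)
      (fun a i j => conj_wp _ i j) (blk3 hH),
    qf_rk (blk H 4) (fun x : S × T6 => conj (bn H x.1 x.2)) (fun x => wp x.2) (fun x => ms x.1)
      (fun a i j => ms_conj _ i j) (blk4 hH),
    qf_rk (blk H 5) (fun x : T6 × T6 => bo H x.1 x.2) (fun x => wp x.1) (fun x => wp x.2)
      (fun a i j => conj_wp _ i j) blk5]
  simp only [Complex.add_re]
  have e1 : (∑ q : T6, conj (bc H q) * bl (wp q) z w * conj (bl P0 z w)).re =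
      (∑ q : T6, bc H q * bl P0 z w * conj (bl (wp q) z w)).re := by
    rw [← Complex.conj_re, map_sum]
    congr 1
    refine Finset.sum_congr rfl fun q _ => ?_
    simp only [map_mul, Complex.conj_conj]
    ring
  have e2 : (∑ x : S × T6, conj (bn H x.1 x.2) * bl (wp x.2) z w * conj (bl (ms x.1) z w)).re =
      (∑ x : S × T6, bn H x.1 x.2 * bl (ms x.1) z w * conj (bl (wp x.2) z w)).re := by
    rw [← Complex.conj_re, map_sum]
    congr 1
    refine Finset.sum_congr rfl fun q _ => ?_
    simp only [map_mul, Complex.conj_conj]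
    ring
  rw [e1, e2]
  ring

/-- first order condition at a zero of the Hermitian form -/
lemma first_order {I : Type} [Fintype I] [DecidableEq I] {H : I → I → I → I → ℂ} (hH : HS H)
    (hK : ∀ z w : I → ℂ, 0 ≤ (qf H z w).re) (a b d : I) (h0 : H a b a b = 0) :
    H a b a d = 0 := by
  have key : ∀ c : ℂ, qf H (fun i => if i = a then 1 else 0)
      (fun i => (if i = b then 1 else 0) + c * (if i = d then 1 else 0)) =
      H a b a b + conj c * H a b a d + c * H a d a b + c * conj c * H a d a d := by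
    intro c
    have h1 : ∀ w : I → ℂ, qf H (fun i => if i = a then 1 else 0) w =
        ∑ j, ∑ l, H a j a l * (w j * conj (w l)) := by
      intro w
      unfold qf
      simp
    rw [h1]
    simp only [map_add, map_mul, add_mul, mul_add, Finset.sum_add_distrib]
    simp
    ring
  have hre : ∀ (c : ℂ) (δ : ℝ), 0 ≤ δ * (2 * (conj c * H a b a d).re) +
      δ ^ 2 * (c * conj c * H a d a d).re := by
    intro c δ
    have h2 := hK (fun i => if i = a then 1 else 0)
      (fun i => (if i = b then 1 else 0) + (δ * c) * (if i = d then 1 else 0))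
    rw [key, h0, hH.herm a b a d, zero_add] at h2
    have e1 : (c * conj (H a b a d)).re = (conj c * H a b a d).re := by
      rw [← Complex.conj_re, map_mul, Complex.conj_conj]
    have e2 : (conj (δ * c) * H a b a d + δ * c * conj (H a b a d) +
        δ * c * conj (δ * c) * H a d a d).re = δ * (2 * (conj c * H a b a d).re) +
        δ ^ 2 * (c * conj c * H a d a d).re := by
      have e3 : conj ((δ : ℂ) * c) * H a b a d + δ * c * conj (H a b a d) +
        δ * c * conj (δ * c) * H a d a d = ((δ : ℝ) : ℂ) * (conj c * H a b a d) +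
          ((δ : ℝ) : ℂ) * (c * conj (H a b a d)) + ((δ ^ 2 : ℝ) : ℂ) *
          (c * conj c * H a d a d) := by
        rw [map_mul, Complex.conj_ofReal]
        push_cast
        ring
      rw [e3]
      simp only [Complex.add_re, Complex.re_ofReal_mul]
      rw [e1]
      ring
    rw [e2] at h2
    exact h2
  apply Complex.ext
  · have h3 := lin_zero _ _ (hre 1)
    simpa using h3
  · have h3 := lin_zero _ _ (hre Complex.I)
    simpa using h3

lemma bool_ne : ∀ c d : Bool, ¬ d = c → d = !c := by decide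

lemma null_of_bp {H : Ix 2 → Ix 2 → Ix 2 → Ix 2 → ℂ} (hH : HS H)
    (hK : ∀ z w : Ix 2 → ℂ, 0 ≤ (qf H z w).re)
    (h0 : H (0, false) (0, true) (0, false) (0, true) = 0) : Null H := by
  have hd : ∀ i k l, H i i k l = 0 := by
    intro i k l
    have h := hH.alt i i k l
    have h2 : (2 : ℂ) * H i i k l = 0 := by linear_combination h
    rcases mul_eq_zero.1 h2 with h3 | h3
    · norm_num at h3
    · exact h3
  have h00 : ∀ c : Bool, H (0, c) (0, !c) (0, c) (0, !c) = 0 := by
    intro c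
    cases c
    · exact h0
    · change H (0, true) (0, false) (0, true) (0, false) = 0
      rw [hH.alt, alt_r hH, h0]
      ring
  have claim : ∀ (c d : Bool) (l : Ix 2), H (0, c) (0, !c) (0, d) l = 0 := by
    intro c d l
    by_cases h : d = c
    · subst h
      exact first_order hH hK _ _ _ (h00 d)
    · have hdc : d = !c := bool_ne c d h
      subst hdc
      have h2 := first_order hH hK (0, !c) (0, c) l (by simpa using h00 (!c))
      rw [hH.alt, h2, neg_zero]
  have two : ∀ i j : Ix 2, dg i + dg j = 2 → ∃ c c', i = (0, c) ∧ j = (0, c') := by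
    refine two_cases ?_ ?_ ?_ ?_
    · intro c c' _
      exact ⟨c, c', rfl, rfl⟩
    · intro c a h
      rw [dg_0, dg_em] at h
      omega
    · intro a c h
      rw [dg_0, dg_em] at h
      omega
    · intro a b h
      rw [dg_em, dg_em] at h
      omega
  have one : ∀ i j : Ix 2, 1 ≤ dg i + dg j → (∃ c, i = (0, c)) ∨ (∃ c, j = (0, c)) := by
    refine two_cases ?_ ?_ ?_ ?_
    · intro c c' _
      exact Or.inl ⟨c, rfl⟩
    · intro c a _
      exact Or.inl ⟨c, rfl⟩
    · intro a c _
      exact Or.inr ⟨c, rfl⟩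
    · intro a b h
      rw [dg_em, dg_em] at h
      omega
  have left : ∀ i j k l, dg i + dg j = 2 → 1 ≤ dg k + dg l → H i j k l = 0 := by
    intro i j k l h1 h2
    obtain ⟨c, c', rfl, rfl⟩ := two i j h1
    by_cases hc : c' = c
    · subst hc
      exact hd _ _ _
    · have hcc : c' = !c := bool_ne c c' hc
      subst hcc
      rcases one k l h2 with ⟨d, rfl⟩ | ⟨d, rfl⟩
      · exact claim _ _ _
      · rw [alt_r hH, claim, neg_zero]
  exact ⟨left, fun i j k l h1 h2 => by rw [hH.herm k l i j, left k l i j h2 h1, map_zero]⟩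

/-- the point of the mixed space -/
def xi (u v : K 2 → ℂ) (s : S) : ℂ := if s.1 then -u s.2 else v s.2

/-- the second order condition -/
lemma second {H : Ix 2 → Ix 2 → Ix 2 → Ix 2 → ℂ} (hH : HS H) (hN : Null H)
    (hK : ∀ z w : Ix 2 → ℂ, 0 ≤ (qf H z w).re) (u v : K 2 → ℂ) :
    0 ≤ 2 * (∑ q : T6, bc H q * conj (u q.1 * v q.2)).re +
      (∑ x : S × S, bm H x.1 x.2 * xi u v x.1 * conj (xi u v x.2)).re := by
  refine second_order _ (2 * (∑ x : S × T6, bn H x.1 x.2 * xi u v x.1 *
    conj (u x.2.1 * v x.2.2)).re) ((∑ x : T6 × T6, bo H x.1 x.2 * (u x.1.1 * v x.1.2) *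
    conj (u x.2.1 * v x.2.2)).re) fun δ hδ => ?_
  have h1 := hK (zv (fun c => if c then 0 else 1) (fun j => (δ : ℂ) * u j))
    (zv (fun c => if c then 1 else 0) (fun j => (δ : ℂ) * v j))
  rw [qf_blocks hH hN] at h1
  have e0 : bl P0 (zv (fun c => if c then 0 else 1) (fun j => (δ : ℂ) * u j))
    (zv (fun c => if c then 1 else 0) (fun j => (δ : ℂ) * v j)) = 1 := by
    rw [bl_P0]
    simp only [zv_0]
    simp
  have e1 : ∀ s : S, bl (ms s) (zv (fun c => if c then 0 else 1) (fun j => (δ : ℂ) * u j))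
    (zv (fun c => if c then 1 else 0) (fun j => (δ : ℂ) * v j)) = δ * xi u v s := by
    rintro ⟨c, k⟩
    rw [bl_ms]
    simp only [zv_0, zv_em, xi]
    cases c <;> simp
  have e2 : ∀ p : T6, bl (wp p) (zv (fun c => if c then 0 else 1) (fun j => (δ : ℂ) * u j))
    (zv (fun c => if c then 1 else 0) (fun j => (δ : ℂ) * v j)) =
      δ * δ * (u p.1 * v p.2) := by
    intro p
    rw [bl_wp, zv_em, zv_em]
    ring
  simp only [e0, e1, e2] at h1
  have f1 : ∑ q : T6, bc H q * 1 * conj ((δ : ℂ) * δ * (u q.1 * v q.2)) =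
      ((δ ^ 2 : ℝ) : ℂ) * ∑ q : T6, bc H q * conj (u q.1 * v q.2) := by
    rw [Finset.mul_sum]
    refine Finset.sum_congr rfl fun q _ => ?_
    simp only [map_mul, Complex.conj_ofReal]
    push_cast
    ring
  have f2 : ∑ x : S × S, bm H x.1 x.2 * (δ * xi u v x.1) * conj (δ * xi u v x.2) =
      ((δ ^ 2 : ℝ) : ℂ) * ∑ x : S × S, bm H x.1 x.2 * xi u v x.1 * conj (xi u v x.2) := by
    rw [Finset.mul_sum]
    refine Finset.sum_congr rfl fun q _ => ?_
    simp only [map_mul, Complex.conj_ofReal]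
    push_cast
    ring
  have f3 : ∑ x : S × T6, bn H x.1 x.2 * (δ * xi u v x.1) *
      conj ((δ : ℂ) * δ * (u x.2.1 * v x.2.2)) = ((δ ^ 3 : ℝ) : ℂ) *
      ∑ x : S × T6, bn H x.1 x.2 * xi u v x.1 * conj (u x.2.1 * v x.2.2) := by
    rw [Finset.mul_sum]
    refine Finset.sum_congr rfl fun q _ => ?_
    simp only [map_mul, Complex.conj_ofReal]
    push_cast
    ring
  have f4 : ∑ x : T6 × T6, bo H x.1 x.2 * ((δ : ℂ) * δ * (u x.1.1 * v x.1.2)) *
      conj ((δ : ℂ) * δ * (u x.2.1 * v x.2.2)) = ((δ ^ 4 : ℝ) : ℂ) *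
      ∑ x : T6 × T6, bo H x.1 x.2 * (u x.1.1 * v x.1.2) * conj (u x.2.1 * v x.2.2) := by
    rw [Finset.mul_sum]
    refine Finset.sum_congr rfl fun q _ => ?_
    simp only [map_mul, Complex.conj_ofReal]
    push_cast
    ring
  rw [f1, f2, f3, f4] at h1
  simp only [Complex.re_ofReal_mul] at h1
  have h2 : 0 < δ ^ 2 := by positivity
  refine nonneg_of_mul_nonneg_right (b := _) (a := δ ^ 2) ?_ h2
  nlinarith [h1]

end Pool.Agent.H85.FL
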