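import Pool.Agent.H85.Flat.Sep

/-!
# Positivity of the terms without the mixed-complement block
-/

set_option autoImplicit false
set_option linter.unusedSimpArgs false

namespace Pool.Agent.H85.FL

open Finset MeasureTheory Pool.Agent.TH598.GV Pool.Agent.R735.HA
open scoped ComplexConjugate ComplexOrder

/-- the dual of `y ∧ z` in dimension four -/
noncomputable def rr (y z : K 2 → ℂ) (i j : K 2) : ℂ := ∑ k, ∑ l, E4 i j k l * (y k * z l)

lemma rr_swap (y z : K 2 → ℂ) (i j : K 2) : rr y z j i = -rr y z i j := by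
  unfold rr
  simp only [E4_s01 i j, neg_mul, Finset.sum_neg_distrib]

lemma rr_self (y z : K 2 → ℂ) (i : K 2) : rr y z i i = 0 := by
  unfold rr
  simp only [E4_z01, zero_mul, Finset.sum_const_zero]

lemma e4_vals : (∀ k l, e4 (0, false) (0, true) k l = (if k = (1, false) then 1 else 0) *
      (if l = (1, true) then 1 else 0) - (if k = (1, true) then 1 else 0) *
      (if l = (1, false) then 1 else 0)) ∧
    (∀ k l, e4 (0, false) (1, false) k l = -((if k = (0, true) then 1 else 0) *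
      (if l = (1, true) then 1 else 0) - (if k = (1, true) then 1 else 0) *
      (if l = (0, true) then 1 else 0))) ∧
    (∀ k l, e4 (0, false) (1, true) k l = (if k = (0, true) then 1 else 0) *
      (if l = (1, false) then 1 else 0) - (if k = (1, false) then 1 else 0) *
      (if l = (0, true) then 1 else 0)) ∧
    (∀ k l, e4 (0, true) (1, false) k l = (if k = (0, false) then 1 else 0) *
      (if l = (1, true) then 1 else 0) - (if k = (1, true) then 1 else 0) *
      (if l = (0, false) then 1 else 0)) ∧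
    (∀ k l, e4 (0, true) (1, true) k l = -((if k = (0, false) then 1 else 0) *
      (if l = (1, false) then 1 else 0) - (if k = (1, false) then 1 else 0) *
      (if l = (0, false) then 1 else 0))) ∧
    (∀ k l, e4 (1, false) (1, true) k l = (if k = (0, false) then 1 else 0) *
      (if l = (0, true) then 1 else 0) - (if k = (0, true) then 1 else 0) *
      (if l = (0, false) then 1 else 0)) := by decide +kernel

lemma rr_aux (y z : K 2 → ℂ) (i j a b : K 2) (c : ℂ)
    (h : ∀ k l, E4 i j k l = c * ((if k = a then 1 else 0) * (if l = b then 1 else 0) -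
      (if k = b then 1 else 0) * (if l = a then 1 else 0))) :
    rr y z i j = c * (y a * z b - y b * z a) := by
  unfold rr
  simp only [h]
  simp [sub_mul, mul_sub, Finset.sum_sub_distrib, ite_and]

lemma rr_01 (y z : K 2 → ℂ) : rr y z (0, false) (0, true) =
    -1 * (y (1, false) * z (1, true) - y (1, true) * z (1, false)) := by
  refine rr_aux y z _ _ _ _ _ fun k l => ?_
  rw [E4_val, e4_vals.1]
  push_cast
  ring

lemma rr_02 (y z : K 2 → ℂ) : rr y z (0, false) (1, false) =
    1 * (y (0, true) * z (1, true) - y (1, true) * z (0, true)) := by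
  refine rr_aux y z _ _ _ _ _ fun k l => ?_
  rw [E4_val, e4_vals.2.1]
  push_cast
  ring

lemma rr_03 (y z : K 2 → ℂ) : rr y z (0, false) (1, true) =
    -1 * (y (0, true) * z (1, false) - y (1, false) * z (0, true)) := by
  refine rr_aux y z _ _ _ _ _ fun k l => ?_
  rw [E4_val, e4_vals.2.2.1]
  push_cast
  ring

lemma rr_12 (y z : K 2 → ℂ) : rr y z (0, true) (1, false) =
    -1 * (y (0, false) * z (1, true) - y (1, true) * z (0, false)) := by
  refine rr_aux y z _ _ _ _ _ fun k l => ?_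
  rw [E4_val, e4_vals.2.2.2.1]
  push_cast
  ring

lemma rr_13 (y z : K 2 → ℂ) : rr y z (0, true) (1, true) =
    1 * (y (0, false) * z (1, false) - y (1, false) * z (0, false)) := by
  refine rr_aux y z _ _ _ _ _ fun k l => ?_
  rw [E4_val, e4_vals.2.2.2.2.1]
  push_cast
  ring

lemma rr_23 (y z : K 2 → ℂ) : rr y z (1, false) (1, true) =
    -1 * (y (0, false) * z (0, true) - y (0, true) * z (0, false)) := by
  refine rr_aux y z _ _ _ _ _ fun k l => ?_
  rw [E4_val, e4_vals.2.2.2.2.2]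
  push_cast
  ring

/-- Plücker relations of an alternating array in dimension four whose Pfaffian vanishes -/
lemma plucker (r : K 2 → K 2 → ℂ) (hs : ∀ i j, r j i = -r i j)
    (h : r (0, false) (0, true) * r (1, false) (1, true) -
      r (0, false) (1, false) * r (0, true) (1, true) +
      r (0, false) (1, true) * r (0, true) (1, false) = 0) (i j k l : K 2) :
    r i j * r k l = r i k * r j l - r i l * r j k := by
  have h0 : ∀ i, r i i = 0 := by
    intro i
    have h1 := hs i i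
    have h2 : (2 : ℂ) * r i i = 0 := by linear_combination h1
    rcases mul_eq_zero.1 h2 with h3 | h3
    · norm_num at h3
    · exact h3
  have a1 := hs (0, false) (0, true)
  have a2 := hs (0, false) (1, false)
  have a3 := hs (0, false) (1, true)
  have a4 := hs (0, true) (1, false)
  have a5 := hs (0, true) (1, true)
  have a6 := hs (1, false) (1, true)
  revert i j k l
  refine all4 ?_ ?_ ?_ ?_ <;> refine all4 ?_ ?_ ?_ ?_ <;> refine all4 ?_ ?_ ?_ ?_ <;>
    refine all4 ?_ ?_ ?_ ?_ <;> (try simp only [a1, a2, a3, a4, a5, a6, h0]) <;>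
    first
    | ring1
    | linear_combination h
    | linear_combination -h

lemma rr_plucker (y z : K 2 → ℂ) (i j k l : K 2) :
    rr y z i j * rr y z k l = rr y z i k * rr y z j l - rr y z i l * rr y z j k := by
  refine plucker (rr y z) (rr_swap y z) ?_ i j k l
  rw [rr_01, rr_02, rr_03, rr_12, rr_13, rr_23]
  ring

/-- the Hermitian form of the complement block -/
noncomputable def QQ (l : T6 → T6 → ℂ) (x : T6 → ℂ) : ℝ :=
  (∑ p, ∑ q, l p q * (x p * conj (x q))).re

lemma QQ_par (l : T6 → T6 → ℂ) (x y : T6 → ℂ) :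
    QQ l (x + y) + QQ l (x - y) = 2 * QQ l x + 2 * QQ l y := by
  unfold QQ
  simp only [← Complex.re_ofReal_mul, ← Complex.add_re]
  congr 1
  simp only [Finset.mul_sum, ← Finset.sum_add_distrib, Pi.add_apply, Pi.sub_apply, map_add,
    map_sub]
  refine Finset.sum_congr rfl fun p _ => Finset.sum_congr rfl fun q _ => ?_
  push_cast
  ring

lemma QQ_smul (l : T6 → T6 → ℂ) (c : ℂ) (x : T6 → ℂ) :
    QQ l (fun p => c * x p) = ‖c‖ ^ 2 * QQ l x := by
  unfold QQ
  rw [← Complex.re_ofReal_mul]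
  congr 1
  rw [Finset.mul_sum]
  refine Finset.sum_congr rfl fun p _ => ?_
  rw [Finset.mul_sum]
  refine Finset.sum_congr rfl fun q _ => ?_
  rw [← Complex.normSq_eq_norm_sq, ← Complex.mul_conj, map_mul]
  ring

/-- the complement block is nonnegative on decomposable bivectors -/
lemma QQ_dec {H : Ix 2 → Ix 2 → Ix 2 → Ix 2 → ℂ} (hH : HS H) (hN : Null H)
    (hK : ∀ z w : Ix 2 → ℂ, 0 ≤ (qf H z w).re) (z w : K 2 → ℂ) :
    0 ≤ QQ (bo H) (fun p => z p.1 * w p.2) := by
  have h1 := hK (zv (fun _ => 0) z) (zv (fun _ => 0) w)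
  rw [qf_blocks hH hN] at h1
  simp only [bl_P0, bl_ms, bl_wp, zv_0, zv_em, zero_mul, mul_zero, sub_zero,
    Finset.sum_const_zero, Complex.zero_re, zero_add] at h1
  rw [Fintype.sum_prod_type (α₁ := T6)] at h1
  unfold QQ
  refine le_of_le_of_eq h1 ?_
  congr 1
  refine Finset.sum_congr rfl fun p _ => Finset.sum_congr rfl fun q _ => ?_
  ring

/-- only the alternating part matters -/
lemma QQ_alt {l : T6 → T6 → ℂ} (h1 : ∀ i j q, l (j, i) q = -l (i, j) q)
    (h2 : ∀ p i j, l p (j, i) = -l p (i, j)) (z w : K 2 → ℂ) :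
    QQ l (fun p => z p.1 * w p.2 - z p.2 * w p.1) = 4 * QQ l (fun p => z p.1 * w p.2) := by
  unfold QQ
  have e : (4 : ℝ) * (∑ p, ∑ q, l p q * (z p.1 * w p.2 * conj (z q.1 * w q.2))).re =
      (4 * ∑ p, ∑ q, l p q * (z p.1 * w p.2 * conj (z q.1 * w q.2))).re := by
    have : (4 : ℂ) = ((4 : ℝ) : ℂ) := by norm_num
    rw [this, Complex.re_ofReal_mul]
  rw [e]
  congr 1
  have e1 : ∀ F : T6 → ℂ, ∑ p : T6, F (p.2, p.1) = ∑ p : T6, F p := by
    intro F
    rw [Fintype.sum_prod_type (α₁ := K 2), Fintype.sum_prod_type (α₁ := K 2), Finset.sum_comm]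
  have e2 : ∀ p : T6, ∑ q : T6, l p q * ((z p.1 * w p.2 - z p.2 * w p.1) *
      conj (z q.1 * w q.2 - z q.2 * w q.1)) =
      2 * ∑ q : T6, l p q * ((z p.1 * w p.2 - z p.2 * w p.1) * conj (z q.1 * w q.2)) := by
    intro p
    have e3 : ∑ q : T6, l p q * ((z p.1 * w p.2 - z p.2 * w p.1) *
      conj (z q.1 * w q.2 - z q.2 * w q.1)) =
        (∑ q : T6, l p q * ((z p.1 * w p.2 - z p.2 * w p.1) * conj (z q.1 * w q.2))) +
        ∑ q : T6, l p (q.2, q.1) * ((z p.1 * w p.2 - z p.2 * w p.1) *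
          conj (z q.2 * w q.1)) := by
      rw [← Finset.sum_add_distrib]
      refine Finset.sum_congr rfl fun q _ => ?_
      rw [h2, map_sub]
      ring
    rw [e3, e1 (fun q => l p q * ((z p.1 * w p.2 - z p.2 * w p.1) * conj (z q.1 * w q.2)))]
    ring
  rw [Finset.sum_congr rfl fun p _ => e2 p, ← Finset.mul_sum]
  have e4 : ∑ p : T6, ∑ q : T6, l p q * ((z p.1 * w p.2 - z p.2 * w p.1) *
      conj (z q.1 * w q.2)) = (∑ p : T6, ∑ q : T6, l p q * (z p.1 * w p.2 *
        conj (z q.1 * w q.2))) + ∑ p : T6, ∑ q : T6, l (p.2, p.1) q * (z p.2 * w p.1 *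
        conj (z q.1 * w q.2)) := by
    rw [← Finset.sum_add_distrib]
    refine Finset.sum_congr rfl fun p _ => ?_
    rw [← Finset.sum_add_distrib]
    refine Finset.sum_congr rfl fun q _ => ?_
    rw [h1]
    ring
  rw [e4, e1 (fun p => ∑ q : T6, l p q * (z p.1 * w p.2 * conj (z q.1 * w q.2)))]
  ring

lemma bo_alt {H : Ix 2 → Ix 2 → Ix 2 → Ix 2 → ℂ} (hH : HS H) (i j : K 2) (q : T6) :
    bo H (j, i) q = -bo H (i, j) q := hH.alt _ _ _ _

lemma bo_alt' {H : Ix 2 → Ix 2 → Ix 2 → Ix 2 → ℂ} (hH : HS H) (p : T6) (i j : K 2) :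
    bo H p (j, i) = -bo H p (i, j) := alt_r hH _ _ _ _

/-- nonnegativity on the dual of a decomposable bivector -/
lemma QQ_rr {H : Ix 2 → Ix 2 → Ix 2 → Ix 2 → ℂ} (hH : HS H) (hN : Null H)
    (hK : ∀ z w : Ix 2 → ℂ, 0 ≤ (qf H z w).re) (y z : K 2 → ℂ) :
    0 ≤ QQ (bo H) (fun p => rr y z p.1 p.2) := by
  by_cases h : ∃ i j, rr y z i j ≠ 0
  · obtain ⟨i, j, hij⟩ := h
    have h1 : (fun p : T6 => rr y z i j * rr y z p.1 p.2) =
        fun p : T6 => rr y z i p.1 * rr y z j p.2 - rr y z i p.2 * rr y z j p.1 := by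
      funext p
      exact rr_plucker y z i j p.1 p.2
    have h2 := QQ_smul (bo H) (rr y z i j) (fun p : T6 => rr y z p.1 p.2)
    rw [h1, QQ_alt (bo_alt hH) (bo_alt' hH) (fun k => rr y z i k) (fun k => rr y z j k)] at h2
    have h3 := QQ_dec hH hN hK (fun k => rr y z i k) (fun k => rr y z j k)
    have h4 : 0 < ‖rr y z i j‖ ^ 2 := by positivity
    refine nonneg_of_mul_nonneg_right (b := _) (a := ‖rr y z i j‖ ^ 2) ?_ h4
    rw [← h2]
    linarith
  · push Not at h
    unfold QQ
    simp only [h, zero_mul, mul_zero, Finset.sum_const_zero, Complex.zero_re, le_refl]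

/-- the symmetric bilinear map -/
noncomputable def ph (v w : S → ℂ) : T6 → ℂ := fun p => ∑ s, ∑ t, se s t p * (v s * w t)

lemma sg_symm (c c' : Bool) : sg c' c = -sg c c' := by
  cases c <;> cases c' <;> simp [sg]

lemma se_symm (s t : S) (p : T6) : se t s p = se s t p := by
  unfold se
  rw [sg_symm s.1 t.1, E4_s23 p.1 p.2 s.2 t.2]
  ring

lemma se_conj (s t : S) (p : T6) : conj (se s t p) = se s t p := by
  unfold se
  rw [map_mul, sg_conj, E4_conj]

lemma ph_add (x y z : S → ℂ) : ph (x + y) z = ph x z + ph y z := by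
  funext p
  unfold ph
  rw [Pi.add_apply, ← Finset.sum_add_distrib]
  refine Finset.sum_congr rfl fun s _ => ?_
  rw [← Finset.sum_add_distrib]
  refine Finset.sum_congr rfl fun t _ => ?_
  rw [Pi.add_apply]
  ring

lemma ph_symm (x y : S → ℂ) : ph x y = ph y x := by
  funext p
  unfold ph
  rw [Finset.sum_comm]
  refine Finset.sum_congr rfl fun s _ => Finset.sum_congr rfl fun t _ => ?_
  rw [se_symm]
  ring

lemma sumS (F : S → ℂ) : ∑ s, F s = ∑ k : K 2, F (false, k) + ∑ k : K 2, F (true, k) := by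
  rw [Fintype.sum_prod_type (α₁ := Bool), Fintype.sum_bool, add_comm]

lemma se_sum (F : S → S → ℂ) (p : T6) : ∑ s, ∑ t, se s t p * F s t =
    ∑ k, ∑ l, E4 p.1 p.2 k l * (F (false, k) (true, l) + F (true, l) (false, k)) := by
  rw [sumS]
  simp only [sumS, se, sg, zero_mul, Finset.sum_const_zero, zero_add, add_zero, one_mul, mul_add,
    Finset.sum_add_distrib]
  congr 1
  rw [Finset.sum_comm]
  refine Finset.sum_congr rfl fun k _ => Finset.sum_congr rfl fun l _ => ?_
  rw [E4_s23 p.1 p.2 k l]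
  ring

lemma ph_self (v : S → ℂ) : ph v v =
    fun p => 2 * rr (fun k => v (false, k)) (fun k => v (true, k)) p.1 p.2 := by
  funext p
  unfold ph rr
  rw [se_sum (fun s t => v s * v t), Finset.mul_sum]
  refine Finset.sum_congr rfl fun k _ => ?_
  rw [Finset.mul_sum]
  exact Finset.sum_congr rfl fun l _ => by ring

/-- half of the pseudo-covariance -/
noncomputable def cc (b : T6 → ℂ) (s t : S) : ℂ :=
  match s, t with
  | (false, k), (true, l) => conj (b (k, l)) / 2
  | (true, l), (false, k) => conj (b (k, l)) / 2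
  | (false, _), (false, _) => 0
  | (true, _), (true, _) => 0

lemma cc_symm (b : T6 → ℂ) (s t : S) : cc b t s = cc b s t := by
  obtain ⟨c, k⟩ := s
  obtain ⟨d, l⟩ := t
  cases c <;> cases d <;> rfl

lemma cc_sum (b : T6 → ℂ) (p : T6) : ∑ s, ∑ t, se s t p * cc b s t = gs b p := by
  rw [se_sum]
  unfold gs
  rw [Fintype.sum_prod_type (α₁ := K 2)]
  refine Finset.sum_congr rfl fun k _ => Finset.sum_congr rfl fun l _ => ?_
  rw [E4_pair p.1 p.2 k l]
  change E4 p.1 p.2 k l * (conj (b (k, l)) / 2 + conj (b (k, l)) / 2) = _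
  ring

lemma cc_quad (b : T6 → ℂ) (x : S → ℂ) : ∑ s, ∑ t, cc b s t * (x s * x t) =
    ∑ q : T6, conj (b q) * (x (false, q.1) * x (true, q.2)) := by
  rw [sumS]
  simp only [sumS, cc, zero_mul, Finset.sum_const_zero, zero_add, add_zero,
    Finset.sum_add_distrib]
  rw [Finset.sum_comm (f := fun k l : K 2 => conj (b (l, k)) / 2 * (x (true, k) * x (false, l))),
    ← Finset.sum_add_distrib, Fintype.sum_prod_type (α₁ := K 2)]
  refine Finset.sum_congr rfl fun k _ => ?_
  rw [← Finset.sum_add_distrib]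
  exact Finset.sum_congr rfl fun l _ => by ring

/-- the Hermitian form of the mixed block -/
noncomputable def MM (m : S → S → ℂ) (x : S → ℂ) : ℝ := (∑ s, ∑ t, m s t * (x s * conj (x t))).re

/-- both signs of the second order condition -/
lemma second' {H : Ix 2 → Ix 2 → Ix 2 → Ix 2 → ℂ} (hH : HS H) (hN : Null H)
    (hK : ∀ z w : Ix 2 → ℂ, 0 ≤ (qf H z w).re) (x : S → ℂ) :
    0 ≤ MM (bm H) x + 2 * (∑ q : T6, conj (bc H q) * (x (false, q.1) * x (true, q.2))).re := by
  have h := second hH hN hK (fun k => -x (true, k)) (fun k => x (false, k))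
  have e1 : xi (fun k => -x (true, k)) (fun k => x (false, k)) = x := by
    funext ⟨c, k⟩
    unfold xi
    cases c <;> simp
  rw [e1] at h
  have e2 : (∑ q : T6, bc H q * conj (-x (true, q.1) * x (false, q.2))).re =
      (∑ q : T6, conj (bc H q) * (x (false, q.1) * x (true, q.2))).re := by
    rw [← Complex.conj_re, map_sum]
    congr 1
    rw [Fintype.sum_prod_type (α₁ := K 2), Fintype.sum_prod_type (α₁ := K 2), Finset.sum_comm]
    refine Finset.sum_congr rfl fun k _ => Finset.sum_congr rfl fun l _ => ?_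
    have e3 : bc H (l, k) = -bc H (k, l) := alt_r hH _ _ _ _
    rw [e3]
    simp only [map_mul, map_neg, Complex.conj_conj]
    ring
  rw [e2] at h
  have e4 : (∑ x_1 : S × S, bm H x_1.1 x_1.2 * x x_1.1 * conj (x x_1.2)).re = MM (bm H) x := by
    unfold MM
    rw [Fintype.sum_prod_type (α₁ := S)]
    congr 1
    exact Finset.sum_congr rfl fun s _ => Finset.sum_congr rfl fun t _ => by ring
  rw [e4] at h
  linarith

lemma half_cond {H : Ix 2 → Ix 2 → Ix 2 → Ix 2 → ℂ} (hH : HS H) (hN : Null H)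
    (hK : ∀ z w : Ix 2 → ℂ, 0 ≤ (qf H z w).re) (x : S → ℂ) :
    0 ≤ (∑ s, ∑ t, bm H s t * (x s * conj (x t))).re +
      (∑ s, ∑ t, cc (bc H) s t * (x s * x t)).re := by
  have h1 := second' hH hN hK x
  have h2 := second' hH hN hK (fun s => Complex.I * x s)
  have e1 : MM (bm H) (fun s => Complex.I * x s) = MM (bm H) x := by
    unfold MM
    congr 1
    refine Finset.sum_congr rfl fun s _ => Finset.sum_congr rfl fun t _ => ?_
    rw [map_mul, Complex.conj_I]
    linear_combination -(bm H s t * x s * conj (x t)) * Complex.I_sq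
  have e2 : ∑ q : T6, conj (bc H q) * (Complex.I * x (false, q.1) * (Complex.I * x (true, q.2))) =
      -∑ q : T6, conj (bc H q) * (x (false, q.1) * x (true, q.2)) := by
    rw [← Finset.sum_neg_distrib]
    refine Finset.sum_congr rfl fun q _ => ?_
    linear_combination (conj (bc H q) * x (false, q.1) * x (true, q.2)) * Complex.I_sq
  rw [e1, e2, Complex.neg_re] at h2
  rw [cc_quad]
  change 0 ≤ MM (bm H) x + _
  linarith

/-- **Positivity of the terms without the mixed-complement block.** -/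
lemma sep_nonneg {H : Ix 2 → Ix 2 → Ix 2 → Ix 2 → ℂ} (hH : HS H) (hN : Null H)
    (hK : ∀ z w : Ix 2 → ℂ, 0 ≤ (qf H z w).re) :
    0 ≤ (6 * G3 H 0 1 5 + 3 * G3 H 2 2 5).re := by
  obtain ⟨w, hw1, hw2⟩ := real_factor (bm H) (cc (bc H)) (fun s t => hH.herm _ _ _ _)
    (cc_symm (bc H)) (half_cond hH hN hK)
  have h := para' ph ph_add ph_symm (QQ (bo H)) (QQ_par (bo H)) (fun v => by
    rw [ph_self, QQ_smul (bo H) 2 (fun p : T6 =>
      rr (fun k => v (false, k)) (fun k => v (true, k)) p.1 p.2)]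
    exact mul_nonneg (by positivity) (QQ_rr hH hN hK _ _)) w
  have e1 : ∑ j, ph (w j) (w j) = fun p => 2 * gs (bc H) p := by
    funext p
    rw [Finset.sum_apply]
    unfold ph
    have e2 : ∀ s t, ∑ j, se s t p * (w j s * w j t) = 2 * (se s t p * cc (bc H) s t) := by
      intro s t
      rw [← Finset.mul_sum, ← hw2]
      ring
    calc ∑ j, ∑ s, ∑ t, se s t p * (w j s * w j t) =
        ∑ s, ∑ t, ∑ j, se s t p * (w j s * w j t) := by
          rw [Finset.sum_comm]
          exact Finset.sum_congr rfl fun s _ => Finset.sum_comm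
      _ = ∑ s, ∑ t, 2 * (se s t p * cc (bc H) s t) := by simp only [e2]
      _ = 2 * gs (bc H) p := by simp only [← Finset.mul_sum, cc_sum]
  rw [e1, QQ_smul] at h
  have e2 : (G3 H 0 1 5).re = 4 * QQ (bo H) (gs (bc H)) := by
    rw [G3_015 hH]
    unfold QQ
    have h4 : (4 : ℂ) = ((4 : ℝ) : ℂ) := by norm_num
    rw [h4, Complex.re_ofReal_mul]
    congr 2
    exact Finset.sum_congr rfl fun p _ => Finset.sum_congr rfl fun q _ => by ring
  have e3 : (G3 H 2 2 5).re = 4 * ∑ i, ∑ j, QQ (bo H) (ph (w i) (w j)) := by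
    rw [G3_225 hH]
    unfold QQ
    simp only [← Complex.re_sum]
    have h4 : (4 : ℝ) * (∑ i, ∑ j, ∑ p, ∑ q, bo H p q * (ph (w i) (w j) p *
        conj (ph (w i) (w j) q))).re = (4 * ∑ i, ∑ j, ∑ p, ∑ q, bo H p q *
          (ph (w i) (w j) p * conj (ph (w i) (w j) q))).re := by
      have h4 : (4 : ℂ) = ((4 : ℝ) : ℂ) := by norm_num
      rw [h4, Complex.re_ofReal_mul]
    rw [h4]
    congr 1
    have h5 : ∀ (x y : S × S) (z : T6 × T6), 4 * (bm H x.1 x.2 * bm H y.1 y.2 * bo H z.1 z.2 *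
        (se x.1 y.1 z.1 * se x.2 y.2 z.2)) = ∑ i, ∑ j, bo H z.1 z.2 *
        ((se x.1 y.1 z.1 * (w i x.1 * w j y.1)) *
          (se x.2 y.2 z.2 * (conj (w i x.2) * conj (w j y.2)))) := by
      intro x y z
      have a1 : 4 * (bm H x.1 x.2 * bm H y.1 y.2 * bo H z.1 z.2 *
        (se x.1 y.1 z.1 * se x.2 y.2 z.2)) = (2 * bm H x.1 x.2) * (2 * bm H y.1 y.2) *
          (bo H z.1 z.2 * (se x.1 y.1 z.1 * se x.2 y.2 z.2)) := by ring
      rw [a1, hw1, hw1, Finset.sum_mul_sum, Finset.sum_mul]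
      refine Finset.sum_congr rfl fun i _ => ?_
      rw [Finset.sum_mul]
      exact Finset.sum_congr rfl fun j _ => by ring
    have h6 : (16 : ℂ) * ∑ x : S × S, ∑ y : S × S, ∑ z : T6 × T6,
        bm H x.1 x.2 * bm H y.1 y.2 * bo H z.1 z.2 * (se x.1 y.1 z.1 * se x.2 y.2 z.2) =
        4 * ∑ x : S × S, ∑ y : S × S, ∑ z : T6 × T6, ∑ i, ∑ j, bo H z.1 z.2 *
        ((se x.1 y.1 z.1 * (w i x.1 * w j y.1)) *
          (se x.2 y.2 z.2 * (conj (w i x.2) * conj (w j y.2)))) := by
      simp only [← h5]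
      simp only [← Finset.mul_sum]
      ring
    rw [h6]
    congr 1
    have sw : ∀ F : S × S → S × S → T6 × T6 → S × Bool → S × Bool → ℂ,
        ∑ x, ∑ y, ∑ z, ∑ i, ∑ j, F x y z i j = ∑ i, ∑ j, ∑ z, ∑ x, ∑ y, F x y z i j := by
      intro F
      calc ∑ x, ∑ y, ∑ z, ∑ i, ∑ j, F x y z i j =
          ∑ a : (S × S) × (S × S) × (T6 × T6), ∑ b : (S × Bool) × (S × Bool),
            F a.1 a.2.1 a.2.2 b.1 b.2 := by
            simp only [Fintype.sum_prod_type (α₁ := S × S), Fintype.sum_prod_type (α₁ := S × Bool)]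
        _ = ∑ b : (S × Bool) × (S × Bool), ∑ a : (S × S) × (S × S) × (T6 × T6),
            F a.1 a.2.1 a.2.2 b.1 b.2 := Finset.sum_comm
        _ = ∑ i, ∑ j, ∑ x, ∑ y, ∑ z, F x y z i j := by
            simp only [Fintype.sum_prod_type (α₁ := S × S), Fintype.sum_prod_type (α₁ := S × Bool)]
        _ = _ := Finset.sum_congr rfl fun i _ => Finset.sum_congr rfl fun j _ => sw3 _
    rw [sw]
    refine Finset.sum_congr rfl fun i _ => Finset.sum_congr rfl fun j _ => ?_
    rw [Fintype.sum_prod_type (α₁ := T6)]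
    refine Finset.sum_congr rfl fun p _ => Finset.sum_congr rfl fun q _ => ?_
    have h7 : conj (ph (w i) (w j) q) = ∑ t, ∑ t', se t t' q * (conj (w i t) * conj (w j t')) := by
      unfold ph
      simp only [map_sum, map_mul, se_conj]
    rw [h7]
    unfold ph
    rw [← Pool.Agent.TH367.J4006.mul4, Finset.mul_sum, Fintype.sum_prod_type (α₁ := S)]
    refine Finset.sum_congr rfl fun s _ => ?_
    rw [Finset.mul_sum]
    simp only [Fintype.sum_prod_type (α₁ := S), Finset.mul_sum]
    rw [Finset.sum_comm]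
  have e4 : (6 * G3 H 0 1 5 + 3 * G3 H 2 2 5).re = 6 * (G3 H 0 1 5).re + 3 * (G3 H 2 2 5).re := by
    have h6 : (6 : ℂ) = ((6 : ℝ) : ℂ) := by norm_num
    have h3 : (3 : ℂ) = ((3 : ℝ) : ℂ) := by norm_num
    rw [h6, h3, Complex.add_re, Complex.re_ofReal_mul, Complex.re_ofReal_mul]
  rw [e4, e2, e3]
  have h8 : ‖(2 : ℂ)‖ ^ 2 = 4 := by norm_num
  rw [h8] at h
  linarith

end Pool.Agent.H85.FL
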